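import Pool.Agent.H618.PM.TV

/-! # The number of odd steps is `O(n^(3/2))` (Alon, Behajaina, Paran) -/

set_option autoImplicit false

namespace Pool.Agent.H618.PM

open Polynomial Finset Pool.Agent.Q74

/-- coefficients of the iterates -/
theorem coeff_iter {f : (ZMod 2)[X]} (h0 : f ≠ 0) (j i : ℕ) :
    (FC.S^[j] f).coeff i = ((X + 1) ^ FC.odds j f * f).coeff (j + i) := by
  have h1 := FC.main_formula j f
  have h2 : (X ^ j * FC.S^[j] f).coeff (i + j) = ((X + 1) ^ FC.odds j f * f + FC.R j f).coeff (i + j) := by rw [h1]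
  rw [coeff_X_pow_mul, coeff_add] at h2
  rw [add_comm j i, h2]
  have h3 : (FC.R j f).coeff (i + j) = 0 := by
    apply coeff_eq_zero_of_degree_lt
    refine lt_of_lt_of_le (FC.R_degree j f) ?_
    exact_mod_cast Nat.le_add_left j i
  rw [h3, add_zero]

theorem X1_pow_two_pow (J : ℕ) : ((X + 1) ^ (2 ^ J) : (ZMod 2)[X]) = X ^ (2 ^ J) + 1 := by
  have h := add_pow_char_pow (R := (ZMod 2)[X]) (p := 2) (n := J) X 1
  rw [one_pow] at h
  exact h

/-- the coefficient at distance `D` from the top is periodic in the exponent -/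
theorem periodic {f : (ZMod 2)[X]} {J t D : ℕ} (hD : D < 2 ^ J) (hD2 : D ≤ f.natDegree + t) :
    ((X + 1) ^ (t + 2 ^ J) * f).coeff (f.natDegree + (t + 2 ^ J) - D) = ((X + 1) ^ t * f).coeff (f.natDegree + t - D) := by
  have h1 : ((X + 1) ^ (t + 2 ^ J) * f : (ZMod 2)[X]) = X ^ (2 ^ J) * ((X + 1) ^ t * f) + (X + 1) ^ t * f := by
    rw [pow_add, X1_pow_two_pow]; ring
  have e : f.natDegree + (t + 2 ^ J) - D = (f.natDegree + t - D) + 2 ^ J := by omega
  rw [h1, coeff_add, e, coeff_X_pow_mul]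
  have h2 : ((X + 1) ^ t * f).coeff (f.natDegree + t - D + 2 ^ J) = 0 := by
    apply coeff_eq_zero_of_natDegree_lt
    refine lt_of_le_of_lt natDegree_mul_le ?_
    rw [X1_pow_natDegree]
    omega
  rw [h2, add_zero]

theorem periodic' {f : (ZMod 2)[X]} {J t D : ℕ} (hD : D < 2 ^ J) (hD2 : D ≤ f.natDegree + t) (l : ℕ) :
    ((X + 1) ^ (t + l * 2 ^ J) * f).coeff (f.natDegree + (t + l * 2 ^ J) - D) = ((X + 1) ^ t * f).coeff (f.natDegree + t - D) := by
  induction l with
  | zero => simp
  | succ l ih =>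
    have e : t + (l + 1) * 2 ^ J = (t + l * 2 ^ J) + 2 ^ J := by ring
    rw [e, periodic hD (by omega), ih]

theorem odds_sub {f : (ZMod 2)[X]} (j i : ℕ) : FC.odds (j + i) f = FC.odds j f + FC.odds i (FC.S^[j] f) := by
  induction i with
  | zero => simp [FC.odds]
  | succ i ih =>
    rw [← add_assoc]
    simp only [FC.odds]
    rw [ih, ← Function.iterate_add_apply, add_comm i j]
    ring

/-- the odd steps before reaching `1` -/
noncomputable def Js (f : (ZMod 2)[X]) : Finset ℕ := by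
  classical
  exact (range (f.natDegree + nu f)).filter (fun j => FC.par (FC.S^[j] f) = 1)

theorem mem_Js {f : (ZMod 2)[X]} {j : ℕ} : j ∈ Js f ↔ j < f.natDegree + nu f ∧ FC.par (FC.S^[j] f) = 1 := by
  classical
  unfold Js
  rw [mem_filter, mem_range]

theorem card_Js {f : (ZMod 2)[X]} (h0 : f ≠ 0) : (Js f).card = nu f := by
  classical
  have h1 : (Js f).card = FC.odds (f.natDegree + nu f) f := by
    rw [FC.odds_card]; rfl
  rw [h1]
  have h2 := (S_reach _ f h0 rfl (f.natDegree + nu f)).2 le_rfl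
  have h3 := (FC.S_iter_ne h0 (f.natDegree + nu f)).2
  rw [h2, natDegree_one] at h3
  omega

/-- degree at time `j` -/
noncomputable def dg (f : (ZMod 2)[X]) (j : ℕ) : ℕ := (FC.S^[j] f).natDegree

theorem dg_eq {f : (ZMod 2)[X]} (h0 : f ≠ 0) (j : ℕ) : dg f j + j = f.natDegree + FC.odds j f := (FC.S_iter_ne h0 j).2

theorem dg_anti {f : (ZMod 2)[X]} (h0 : f ≠ 0) {i j : ℕ} (h : i ≤ j) : dg f j ≤ dg f i := by
  induction j, h using Nat.le_induction with
  | base => exact le_rfl
  | succ j _ ih =>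
    refine le_trans ?_ ih
    have h1 := dg_eq h0 j
    have h2 := dg_eq h0 (j + 1)
    have h3 := FC.par_le (FC.S^[j] f)
    simp only [FC.odds] at h2
    omega

theorem dg_pos {f : (ZMod 2)[X]} (h0 : f ≠ 0) {j : ℕ} (h : j < f.natDegree + nu f) : 1 ≤ dg f j := by
  by_contra hcon
  have h1 : (FC.S^[j] f).natDegree = 0 := by unfold dg at hcon; omega
  have h2 := FC.eq_one_of_natDegree (FC.S_iter_ne h0 j).1 h1
  have h3 := (S_reach _ f h0 rfl j).1 h2
  omega

/-- equal degrees at two odd times: only odd steps in between -/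
theorem run {f : (ZMod 2)[X]} (h0 : f ≠ 0) {j j' : ℕ} (hj : j ≤ j') (hd : dg f j = dg f j') :
    ∀ i < j' - j, FC.par (FC.S^[i] (FC.S^[j] f)) = 1 := by
  intro i hi
  have h1 := dg_eq h0 (j + i)
  have h2 := dg_eq h0 (j + i + 1)
  simp only [FC.odds] at h2
  have h3 := dg_anti h0 (show j ≤ j + i by omega)
  have h4 := dg_anti h0 (show j + i + 1 ≤ j' by omega)
  have h5 := dg_anti h0 (show j + i ≤ j + i + 1 by omega)
  rw [← Function.iterate_add_apply, add_comm i j]
  have h6 := FC.par_le (FC.S^[j + i] f)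
  omega

/-- zeros after the constant term during a run -/
theorem run_zero {f : (ZMod 2)[X]} (h0 : f ≠ 0) {j j' : ℕ} (hj : j ≤ j') (hd : dg f j = dg f j')
    (hp : FC.par (FC.S^[j'] f) = 1) {i : ℕ} (hi : 1 ≤ i) (hi' : i ≤ j' - j) : (FC.S^[j] f).coeff i = 0 := by
  have h1 : ∀ i < j' - j + 1, FC.par (FC.S^[i] (FC.S^[j] f)) = 1 := by
    intro i hi
    rcases Nat.lt_or_ge i (j' - j) with h | h
    · exact run h0 hj hd i h
    · have e : i = j' - j := by omega
      rw [e, ← Function.iterate_add_apply]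
      have e2 : j' - j + j = j' := by omega
      rw [e2, hp]
  have h2 := FC.all_odd h1
  rw [X_pow_dvd_iff] at h2
  have h3 := h2 i (by omega)
  rw [coeff_sub, coeff_one, if_neg (by omega), sub_zero] at h3
  exact h3

theorem run_short {f : (ZMod 2)[X]} (h0 : f ≠ 0) {j j' : ℕ} (hj : j ≤ j') (hd : dg f j = dg f j')
    (hp : FC.par (FC.S^[j'] f) = 1) (hj' : j < f.natDegree + nu f) : j' - j < dg f j := by
  by_contra hcon
  rw [not_lt] at hcon
  have h1 := dg_pos h0 hj'
  have h2 := run_zero h0 hj hd hp h1 hcon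
  have h3 : (FC.S^[j] f).leadingCoeff = 0 := h2
  exact (FC.S_iter_ne h0 j).1 (leadingCoeff_eq_zero.1 h3)

open Classical in
/-- pairs in the same run -/
noncomputable def Pr (f : (ZMod 2)[X]) : Finset (ℕ × ℕ) :=
  ((Js f) ×ˢ (Js f)).filter (fun p => p.1 < p.2 ∧ dg f p.1 = dg f p.2)

theorem card_Pr {f : (ZMod 2)[X]} (h0 : f ≠ 0) {J : ℕ} (hJ : f.natDegree < 2 ^ J) :
    (Pr f).card ≤ f.natDegree * 2 ^ J := by
  classical
  have hc : ((range f.natDegree) ×ˢ (range (2 ^ J))).card = f.natDegree * 2 ^ J := by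
    rw [card_product, card_range, card_range]
  rw [← hc]
  apply card_le_card_of_injOn (fun p => (dg f p.1 - (p.2 - p.1), (FC.odds p.1 f) % 2 ^ J))
  · rintro ⟨j, j'⟩ hp
    rw [mem_coe] at hp
    unfold Pr at hp
    simp only [mem_filter, mem_product, mem_Js] at hp
    obtain ⟨⟨⟨h1, h2⟩, ⟨h3, h4⟩⟩, h5, h6⟩ := hp
    simp only [coe_product, Set.mem_prod, mem_coe, mem_range]
    have h7 := run_short h0 h5.le h6 h4 h1
    have h8 := dg_anti h0 (Nat.zero_le j)
    have h9 : dg f 0 = f.natDegree := rfl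
    exact ⟨by omega, Nat.mod_lt _ (by positivity)⟩
  · -- injectivity
    have key : ∀ j j' m m' : ℕ, (j, j') ∈ Pr f → (m, m') ∈ Pr f → j < m →
        dg f j - (j' - j) = dg f m - (m' - m) → FC.odds j f % 2 ^ J = FC.odds m f % 2 ^ J → False := by
      intro j j' m m' hp hp2 hlt hc1 hc2
      unfold Pr at hp hp2
      simp only [mem_filter, mem_product, mem_Js] at hp hp2
      obtain ⟨⟨⟨h1, h2⟩, ⟨h3, h4⟩⟩, h5, h6⟩ := hp
      obtain ⟨⟨⟨k1, k2⟩, ⟨k3, k4⟩⟩, k5, k6⟩ := hp2
      have h7 := run_short h0 h5.le h6 h4 h1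
      have k7 := run_short h0 k5.le k6 k4 k1
      have hodds : FC.odds j f ≤ FC.odds m f := by
        have := odds_sub (f := f) j (m - j)
        have e : j + (m - j) = m := by omega
        rw [e] at this
        omega
      -- the exponents differ by a multiple of the period
      obtain ⟨l, hl⟩ : ∃ l, FC.odds m f = FC.odds j f + l * 2 ^ J := by
        have h8 := (Nat.modEq_iff_dvd' hodds).1 hc2
        obtain ⟨l, hl⟩ := h8
        refine ⟨l, ?_⟩
        rw [mul_comm l]
        omega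
      have hdm : dg f m ≤ dg f j := dg_anti h0 hlt.le
      have hdn : dg f 0 = f.natDegree := rfl
      have hdj0 := dg_anti h0 (Nat.zero_le j)
      rcases Nat.eq_or_lt_of_le hdm with heq | hlt2
      · -- same run: the run would be too long
        have h8 := run_short h0 hlt.le heq.symm k2 h1
        have h9 := odds_sub (f := f) j (m - j)
        have e : j + (m - j) = m := by omega
        rw [e] at h9
        have h10 := FC.odds_all (fun i hi => run h0 hlt.le heq.symm i hi)
        rw [h10] at h9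
        rcases Nat.eq_zero_or_pos l with rfl | hl0
        · omega
        · have : 2 ^ J ≤ l * 2 ^ J := Nat.le_mul_of_pos_left _ hl0
          omega
      · -- different columns
        have h8 : (FC.S^[j] f).coeff (dg f j - dg f m) = 0 := by
          apply run_zero h0 h5.le h6 h4 <;> omega
        rw [coeff_iter h0] at h8
        have h9 := coeff_iter h0 m 0
        rcases FC.par_cases (FC.S^[m] f) with ⟨h10, _⟩ | ⟨_, h10⟩
        · omega
        · rw [h10, add_zero] at h9
          have e1 := dg_eq h0 j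
          have e2 := dg_eq h0 m
          have h11 := periodic' (f := f) (J := J) (t := FC.odds j f) (D := dg f m) (by omega) (by omega) l
          rw [← hl] at h11
          have e3 : f.natDegree + FC.odds m f - dg f m = m := by omega
          have e4 : f.natDegree + FC.odds j f - dg f m = j + (dg f j - dg f m) := by omega
          rw [e3, e4, h8, ← h9] at h11
          exact one_ne_zero h11
    rintro ⟨j, j'⟩ hp ⟨m, m'⟩ hp2 he
    rw [mem_coe] at hp hp2
    simp only [Prod.mk.injEq] at he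
    rcases lt_trichotomy j m with h | h | h
    · exact (key j j' m m' hp hp2 h he.1 he.2).elim
    · subst h
      unfold Pr at hp hp2
      simp only [mem_filter, mem_product, mem_Js] at hp hp2
      obtain ⟨⟨⟨h1, h2⟩, ⟨h3, h4⟩⟩, h5, h6⟩ := hp
      obtain ⟨⟨⟨k1, k2⟩, ⟨k3, k4⟩⟩, k5, k6⟩ := hp2
      have h7 := run_short h0 h5.le h6 h4 h1
      have k7 := run_short h0 k5.le k6 k4 k1
      have : j' = m' := by omega
      rw [this]
    · exact (key m m' j j' hp2 hp h he.1.symm he.2.symm).elim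

/-- worst case bound -/
theorem nu_sq_le {f : (ZMod 2)[X]} (h0 : f ≠ 0) : nu f ^ 2 ≤ 9 * f.natDegree ^ 3 := by
  classical
  rcases Nat.eq_zero_or_pos f.natDegree with hn0 | hn0
  · rw [FC.eq_one_of_natDegree h0 hn0, nu_one]; simp
  set n := f.natDegree with hn
  obtain ⟨J, hJ1, hJ2⟩ : ∃ J, n < 2 ^ J ∧ 2 ^ J ≤ 2 * n := by
    refine ⟨Nat.log 2 n + 1, Nat.lt_pow_succ_log_self (by norm_num) n, ?_⟩
    rw [pow_succ, mul_comm]
    exact Nat.mul_le_mul_left 2 (Nat.pow_log_le_self 2 (by omega))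
  have h1 := card_Pr h0 hJ1
  rw [← hn] at h1
  have h2 : (Pr f).card ≤ 2 * n ^ 2 := by
    refine h1.trans ?_
    calc n * 2 ^ J ≤ n * (2 * n) := Nat.mul_le_mul_left _ hJ2
      _ = 2 * n ^ 2 := by ring
  -- fibres
  set c : ℕ → ℕ := fun D => ((Js f).filter (fun j => dg f j = D)).card with hc
  have h3 : nu f = ∑ D ∈ Icc 1 n, c D := by
    rw [← card_Js h0]
    apply card_eq_sum_card_fiberwise
    intro j hj
    rw [mem_coe, mem_Js] at hj
    rw [mem_coe, mem_Icc]
    exact ⟨dg_pos h0 hj.1, dg_anti h0 (Nat.zero_le j)⟩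
  have h4 : ∑ D ∈ Icc 1 n, c D ^ 2 ≤ 2 * (Pr f).card + nu f := by
    set Q := ((Js f) ×ˢ (Js f)).filter (fun p => dg f p.1 = dg f p.2) with hQ
    have h5 : Q.card = ∑ D ∈ Icc 1 n, c D ^ 2 := by
      rw [card_eq_sum_card_fiberwise (f := fun p => dg f p.1) (t := Icc 1 n)]
      · refine sum_congr rfl fun D _ => ?_
        rw [pow_two]
        simp only [hc]
        rw [← card_product]
        congr 1
        ext ⟨a, b⟩
        simp only [hQ, mem_filter, mem_product]
        constructor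
        · rintro ⟨⟨⟨h6, h7⟩, h8⟩, h9⟩
          exact ⟨⟨h6, h9⟩, ⟨h7, by rw [← h8, h9]⟩⟩
        · rintro ⟨⟨h6, h7⟩, ⟨h8, h9⟩⟩
          exact ⟨⟨⟨h6, h8⟩, by rw [h7, h9]⟩, h7⟩
      · rintro ⟨a, b⟩ hp
        rw [mem_coe] at hp
        simp only [hQ, mem_filter, mem_product, mem_Js] at hp
        rw [mem_coe, mem_Icc]
        exact ⟨dg_pos h0 hp.1.1.1, dg_anti h0 (Nat.zero_le a)⟩
    rw [← h5]
    have h6 : Q ⊆ Pr f ∪ ((Pr f).image Prod.swap ∪ (Js f).image (fun j => (j, j))) := by
      rintro ⟨a, b⟩ hp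
      simp only [hQ, mem_filter, mem_product] at hp
      rw [mem_union, mem_union, mem_image, mem_image]
      rcases lt_trichotomy a b with h | h | h
      · left
        unfold Pr
        simp only [mem_filter, mem_product]
        exact ⟨hp.1, h, hp.2⟩
      · right; right
        exact ⟨a, hp.1.1, by rw [h]⟩
      · right; left
        refine ⟨(b, a), ?_, rfl⟩
        unfold Pr
        simp only [mem_filter, mem_product]
        exact ⟨⟨hp.1.2, hp.1.1⟩, h, hp.2.symm⟩
    refine (card_le_card h6).trans ((card_union_le _ _).trans ?_)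
    have h7 := card_union_le ((Pr f).image Prod.swap) ((Js f).image (fun j => (j, j)))
    have h8 : ((Pr f).image Prod.swap).card ≤ (Pr f).card := card_image_le
    have h9 : ((Js f).image (fun j => (j, j))).card ≤ (Js f).card := card_image_le
    rw [card_Js h0] at h9
    omega
  have h5 : nu f ^ 2 ≤ n * ∑ D ∈ Icc 1 n, c D ^ 2 := by
    rw [h3]
    have := sq_sum_le_card_mul_sum_sq (s := Icc 1 n) (f := fun D => c D)
    rw [Nat.card_Icc, Nat.add_sub_cancel] at this
    exact_mod_cast this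
  have h6 : nu f ^ 2 ≤ n * (4 * n ^ 2 + nu f) := by
    refine h5.trans (Nat.mul_le_mul_left _ (h4.trans ?_))
    omega
  by_contra hcon
  rw [not_le] at hcon
  -- ν² > 9 n³ and ν² ≤ 4 n³ + n ν
  have h7 : n * nu f > 5 * n ^ 3 := by
    have : n * (4 * n ^ 2 + nu f) = 4 * n ^ 3 + n * nu f := by ring
    omega
  have h8 : 5 * n ^ 2 < nu f := by
    have e : 5 * n ^ 3 = n * (5 * n ^ 2) := by ring
    rw [e] at h7
    exact Nat.lt_of_mul_lt_mul_left h7
  have h9 : 4 * n ^ 2 + nu f < 2 * nu f := by nlinarith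
  have h10 : nu f ^ 2 < n * (2 * nu f) := lt_of_le_of_lt h6 (Nat.mul_lt_mul_of_pos_left h9 hn0)
  have h11 : nu f < 2 * n := by
    have e : n * (2 * nu f) = nu f * (2 * n) := by ring
    rw [e, pow_two] at h10
    exact Nat.lt_of_mul_lt_mul_left h10
  nlinarith

end Pool.Agent.H618.PM
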