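import Pool.Agent.H618.PM.Avg

/-! # Signed path sums in a Pascal array of signs -/

set_option autoImplicit false

namespace Pool.Agent.H618.PM

/-- signed path sums: the walk goes from `(j, t)` to `(j + 1, t + 1)` with sign `s j (t + 1)` or to `(j, t + 1)`
with sign `1`, each with weight `1/2`, during `n` steps, and has to end in row `κ`. -/
noncomputable def g (s : ℕ → ℕ → ℝ) (κ : ℕ) : ℕ → ℕ → ℕ → ℝ
  | 0, j, _ => if j = κ then 1 else 0
  | n + 1, j, t => (s j (t + 1) * g s κ n (j + 1) (t + 1) + g s κ n j (t + 1)) / 2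

/-- a Pascal array of signs, with a last row of `-1` -/
structure IsArr (s : ℕ → ℕ → ℝ) (κ : ℕ) : Prop where
  sgn : ∀ j t, s j t = 1 ∨ s j t = -1
  mul : ∀ j t, s j t = s j (t + 1) * s (j + 1) (t + 1)
  top : ∀ t, s κ t = -1

variable {s : ℕ → ℕ → ℝ} {κ : ℕ}

theorem g_zero : ∀ (n j t : ℕ), κ < j → g s κ n j t = 0 := by
  intro n
  induction n with
  | zero =>
    intro j t h
    simp only [g]
    rw [if_neg (by omega)]
  | succ n ih =>
    intro j t h
    simp only [g]
    rw [ih _ _ (by omega), ih _ _ h]
    ring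

theorem g_short : ∀ (n j t : ℕ), j + n < κ → g s κ n j t = 0 := by
  intro n
  induction n with
  | zero =>
    intro j t h
    simp only [g]
    rw [if_neg (by omega)]
  | succ n ih =>
    intro j t h
    simp only [g]
    rw [ih _ _ (by omega), ih _ _ (by omega)]
    ring

theorem g_abs (hs : IsArr s κ) : ∀ (n j t : ℕ), |g s κ n j t| ≤ 1 := by
  intro n
  induction n with
  | zero =>
    intro j t
    simp only [g]
    split_ifs <;> simp
  | succ n ih =>
    intro j t
    simp only [g]
    have h1 := abs_le.1 (ih (j + 1) (t + 1))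
    have h2 := abs_le.1 (ih j (t + 1))
    rw [abs_le]
    rcases hs.sgn j (t + 1) with h | h <;> rw [h] <;> constructor <;> linarith [h1.1, h1.2, h2.1, h2.2]

theorem g_sq_le_one (hs : IsArr s κ) (n j t : ℕ) : g s κ n j t ^ 2 ≤ 1 := by
  rw [sq_le_one_iff_abs_le_one]
  exact g_abs hs n j t

/-- the triangle of ones -/
theorem tri (hs : IsArr s κ) {j t τ : ℕ} (h : ∀ i < τ, s j (t + i + 1) = 1) :
    ∀ r i : ℕ, i + r < τ → s (j + r) (t + r + i + 1) = 1 := by
  intro r
  induction r with
  | zero => intro i hi; exact h i (by omega)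
  | succ r ih =>
    intro i hi
    have h1 := ih i (by omega)
    have h2 := ih (i + 1) (by omega)
    have h3 := hs.mul (j + r) (t + r + i + 1)
    rw [h1] at h3
    have e1 : t + r + (i + 1) + 1 = t + r + i + 1 + 1 := by ring
    rw [e1] at h2
    rw [h2, one_mul] at h3
    have e2 : t + (r + 1) + i + 1 = t + r + i + 1 + 1 := by ring
    have e3 : j + (r + 1) = j + r + 1 := by ring
    rw [e2, e3]
    exact h3.symm

/-- the column of minus ones -/
theorem col (hs : IsArr s κ) {j t τ : ℕ} (h : ∀ i < τ, s j (t + i + 1) = 1) (h1 : s j (t + τ + 1) = -1) :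
    ∀ r ≤ τ, s (j + r) (t + τ + 1) = -1 := by
  intro r
  induction r with
  | zero => intro _; exact h1
  | succ r ih =>
    intro hr
    have h2 := ih (by omega)
    have h3 := tri hs h r (τ - 1 - r) (by omega)
    have e : t + r + (τ - 1 - r) + 1 = t + τ := by omega
    rw [e] at h3
    have h4 := hs.mul (j + r) (t + τ)
    rw [h3, h2] at h4
    have : s (j + r + 1) (t + τ + 1) = -1 := by linarith
    rw [← add_assoc]
    exact this

/-- free motion inside the triangle -/
theorem free (hs : IsArr s κ) {τ : ℕ} : ∀ {j t n : ℕ}, (∀ r i : ℕ, i + r < τ → s (j + r) (t + r + i + 1) = 1) →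
    g s κ (n + τ) j t = P τ (fun i => g s κ n (j + i) (t + τ)) 0 := by
  induction τ with
  | zero => intro j t n _; simp [P]
  | succ τ ih =>
    intro j t n h
    have e : n + (τ + 1) = (n + τ) + 1 := by ring
    rw [e]
    simp only [g]
    have h0 := h 0 0 (by omega)
    simp only [add_zero] at h0
    rw [h0, one_mul]
    have h1 := ih (j := j + 1) (t := t + 1) (n := n) (fun r i hri => by
      have := h (r + 1) i (by omega)
      have e1 : j + 1 + r = j + (r + 1) := by ring
      have e2 : t + 1 + r + i + 1 = t + (r + 1) + i + 1 := by ring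
      rw [e1, e2]; exact this)
    have h2 := ih (j := j) (t := t + 1) (n := n) (fun r i hri => by
      have := h r (i + 1) (by omega)
      have e2 : t + 1 + r + i + 1 = t + r + (i + 1) + 1 := by ring
      rw [e2]; exact this)
    rw [h1, h2]
    simp only [P]
    have e3 : t + 1 + τ = t + (τ + 1) := by ring
    rw [e3, ← P_shift]
    have e4 : (fun i => g s κ n (j + 1 + i) (t + (τ + 1))) = fun i => g s κ n (j + (i + 1)) (t + (τ + 1)) := by
      funext i
      congr 1
      ring
    rw [e4]
    ring

/-- THE TRIANGLE INEQUALITY (crossing a triangle of width `τ` gains `1/(τ+1)` in mean square) -/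
theorem cross (hs : IsArr s κ) {j t τ n : ℕ} (h : ∀ i < τ, s j (t + i + 1) = 1) (h1 : s j (t + τ + 1) = -1) :
    ((τ : ℝ) + 1) * g s κ (n + 1 + τ) j t ^ 2 ≤ P (τ + 1) (fun i => g s κ n (j + i) (t + τ + 1) ^ 2) 0 := by
  have h2 := tri hs h
  have h3 := col hs h h1
  rw [free hs h2]
  have h4 : P τ (fun i => g s κ (n + 1) (j + i) (t + τ)) 0 =
      P τ (fun i => ((fun i => g s κ n (j + i) (t + τ + 1)) i - (fun i => g s κ n (j + i) (t + τ + 1)) (i + 1)) / 2) 0 := by
    apply P_congr
    intro i hi
    simp only [zero_add, g]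
    rw [h3 i hi]
    have : j + (i + 1) = j + i + 1 := by ring
    rw [this]
    ring
  rw [h4]
  exact P_grad τ _

theorem P_last {m : ℕ} {F : ℕ → ℝ} (h : ∀ i < m, F i = 0) : P m F 0 = F m / 2 ^ m := by
  rw [P_binom, Finset.sum_range_succ, Finset.sum_eq_zero]
  · simp
  · intro i hi
    rw [Finset.mem_range] at hi
    rw [zero_add, h i hi, mul_zero]

/-- POINTWISE DECAY -/
theorem decay (q : ℕ) : ∃ K : ℝ, 0 < K ∧ ∀ (s : ℕ → ℕ → ℝ) (κ : ℕ), IsArr s κ → ∀ n j t : ℕ, j ≤ κ →
    g s κ n j t ^ 2 ≤ K * R q (κ + 1 - j) := by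
  set T₀ : ℕ := 2 ^ (q + 1) with hT₀
  obtain ⟨l₁, hl₁⟩ := R_slow q T₀
  obtain ⟨l₂, hl₂⟩ := R_exp q
  set l₀ : ℕ := l₁ + l₂ + 2 with hl₀
  set K : ℝ := 2 / R q l₀ + 2 with hK
  have hR0 := R_pos q l₀
  have hK0 : 0 < K := by rw [hK]; positivity
  have hK2 : 2 ≤ K := by
    have : 0 < 2 / R q l₀ := by positivity
    rw [hK]; linarith
  refine ⟨K, hK0, ?_⟩
  intro s κ hs
  set B : ℕ → ℝ := fun l => K * R q l with hB
  have hBpos : ∀ l, 0 < B l := fun l => mul_pos hK0 (R_pos q l)
  have hBanti : ∀ {l l' : ℕ}, l ≤ l' → B l' ≤ B l := fun h => mul_le_mul_of_nonneg_left (R_anti q h) hK0.le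
  have hBsmall : ∀ l ≤ l₀, 2 ≤ B l := by
    intro l hl
    have h1 := R_anti q hl
    have h2 : 2 / R q l₀ * R q l₀ = 2 := by field_simp
    have h3 : 2 ≤ K * R q l₀ := by rw [hK, add_mul, h2]; linarith
    exact h3.trans (mul_le_mul_of_nonneg_left h1 hK0.le)
  have hBslow : ∀ l ≥ l₀, ∀ i ≤ T₀, B (l - i) ≤ 5 / 4 * B l := by
    intro l hl i hi
    obtain ⟨h1, h2⟩ := hl₁ l (by omega)
    have h3 : R q (l - i) ≤ R q (l - T₀) := R_anti q (by omega)
    have h4 := mul_le_mul_of_nonneg_left (h3.trans h2) hK0.le
    simp only [hB]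
    linarith
  -- main induction
  have main : ∀ n : ℕ, (∀ j t : ℕ, j ≤ κ → g s κ n j t ^ 2 ≤ B (κ + 1 - j)) ∧
      (∀ j t : ℕ, j ≤ κ → s j (t + 1) = 1 → g s κ n j t ^ 2 ≤ 3 / 4 * B (κ + 1 - j)) := by
    intro n
    induction n using Nat.strong_induction_on with
    | _ n ih =>
    have C2 : ∀ j t : ℕ, j ≤ κ → s j (t + 1) = 1 → g s κ n j t ^ 2 ≤ 3 / 4 * B (κ + 1 - j) := by
      intro j t hj hone
      by_cases hsmall : κ + 1 - j ≤ l₀
      · have h1 := hBsmall _ hsmall
        have h2 := g_sq_le_one hs n j t
        linarith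
      rw [not_le] at hsmall
      -- the run of ones
      have hex : ∃ i, s j (t + i + 1) = -1 := by
        by_contra hcon
        push Not at hcon
        have h1 : ∀ i < κ - j + 1, s j (t + i + 1) = 1 := by
          intro i _
          rcases hs.sgn j (t + i + 1) with h | h
          · exact h
          · exact absurd h (hcon i)
        have h2 := tri hs h1 (κ - j) 0 (by omega)
        have e : j + (κ - j) = κ := by omega
        rw [e, hs.top] at h2
        norm_num at h2
      classical
      set τ := Nat.find hex with hτ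
      have hτ1 : s j (t + τ + 1) = -1 := Nat.find_spec hex
      have hτ2 : ∀ i < τ, s j (t + i + 1) = 1 := by
        intro i hi
        rcases hs.sgn j (t + i + 1) with h | h
        · exact h
        · exact absurd h (Nat.find_min hex hi)
      have hτpos : 1 ≤ τ := by
        by_contra hcon
        have h0 : τ = 0 := by omega
        rw [h0] at hτ1
        simp only [add_zero] at hτ1
        rw [hτ1] at hone
        norm_num at hone
      have hτle : τ + j ≤ κ := by
        by_contra hcon
        have h2 := tri hs hτ2 (κ - j) 0 (by omega)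
        have e : j + (κ - j) = κ := by omega
        rw [e, hs.top] at h2
        norm_num at h2
      by_cases hn : τ + 1 ≤ n
      · -- cross the triangle
        obtain ⟨m, rfl⟩ : ∃ m, n = m + 1 + τ := ⟨n - 1 - τ, by omega⟩
        have h1 := cross hs (n := m) hτ2 hτ1
        have ihm := (ih m (by omega)).1
        have h2 : ∀ i ≤ τ + 1, g s κ m (j + i) (t + τ + 1) ^ 2 ≤ B (κ + 1 - j - i) := by
          intro i _
          by_cases hi : j + i ≤ κ
          · have := ihm (j + i) (t + τ + 1) hi
            have e : κ + 1 - (j + i) = κ + 1 - j - i := by omega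
            rwa [e] at this
          · rw [g_zero m (j + i) _ (by omega)]
            have := hBpos (κ + 1 - j - i)
            simpa using this.le
        have hBl := hBpos (κ + 1 - j)
        by_cases hbig : T₀ ≤ τ + 1
        · have h3 : P (τ + 1) (fun i => g s κ m (j + i) (t + τ + 1) ^ 2) 0 ≤ 2 ^ q * B (κ + 1 - j) := by
            have h4 := P_mono (m := τ + 1) (F := fun i => g s κ m (j + i) (t + τ + 1) ^ 2)
              (G := fun i => K * R q (κ + 1 - j - i)) (a := 0) (fun i hi => by simpa using h2 i hi)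
            rw [P_smul] at h4
            have h5 := P_R q (κ + 1 - j) (τ + 1) (by omega)
            have h6 := mul_le_mul_of_nonneg_left h5 hK0.le
            simp only [hB]
            linarith
          have h7 : (2 : ℝ) ^ (q + 1) ≤ (τ : ℝ) + 1 := by
            have : 2 ^ (q + 1) ≤ τ + 1 := by rw [← hT₀]; exact hbig
            exact_mod_cast this
          have h8 : (2 : ℝ) ^ (q + 1) * g s κ (m + 1 + τ) j t ^ 2 ≤ 2 ^ q * B (κ + 1 - j) :=
            (mul_le_mul_of_nonneg_right h7 (sq_nonneg _)).trans (h1.trans h3)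
          rw [pow_succ, mul_assoc] at h8
          have h9 : (0 : ℝ) < 2 ^ q := by positivity
          have h10 := le_of_mul_le_mul_left h8 h9
          linarith
        · have h3 : P (τ + 1) (fun i => g s κ m (j + i) (t + τ + 1) ^ 2) 0 ≤ 5 / 4 * B (κ + 1 - j) := by
            have h4 := P_mono (m := τ + 1) (F := fun i => g s κ m (j + i) (t + τ + 1) ^ 2)
              (G := fun _ => 5 / 4 * B (κ + 1 - j)) (a := 0) (fun i hi => by
                simp only [zero_add]
                exact (h2 i hi).trans (hBslow _ (by omega) i (by omega)))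
            rwa [P_const] at h4
          have h7 : (2 : ℝ) ≤ (τ : ℝ) + 1 := by
            have : 2 ≤ τ + 1 := by omega
            exact_mod_cast this
          have h8 : (2 : ℝ) * g s κ (m + 1 + τ) j t ^ 2 ≤ 5 / 4 * B (κ + 1 - j) :=
            (mul_le_mul_of_nonneg_right h7 (sq_nonneg _)).trans (h1.trans h3)
          linarith
      · -- the triangle covers all the remaining time
        by_cases hshort : j + n < κ
        · rw [g_short n j t hshort]
          have := hBpos (κ + 1 - j)
          simp only [ne_eq, OfNat.ofNat_ne_zero, not_false_eq_true, zero_pow]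
          linarith
        · have hn' : n = κ - j := by omega
          have hnτ : n = τ := by omega
          have h2 := tri hs hτ2
          have h3 := free hs (n := 0) h2
          rw [zero_add, ← hnτ] at h3
          have h4 : ∀ i < n, (fun i => g s κ 0 (j + i) (t + n)) i = 0 := by
            intro i hi
            simp only [g]
            rw [if_neg (by omega)]
          rw [P_last h4] at h3
          simp only [g] at h3
          rw [if_pos (by omega)] at h3
          rw [h3]
          have h5 := hl₂ (κ + 1 - j) (by omega)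
          have e : κ + 1 - j - 1 = n := by omega
          rw [e] at h5
          have h6 : (1 / (2 : ℝ) ^ n) ^ 2 ≤ 1 / 2 * (1 / 2) ^ n := by
            have h7 : (1 / (2 : ℝ) ^ n) = (1 / 2) ^ n := by rw [one_div_pow]
            rw [h7, pow_two]
            apply mul_le_mul_of_nonneg_right _ (by positivity)
            have : (1 / 2 : ℝ) ^ n ≤ (1 / 2) ^ 1 := pow_le_pow_of_le_one (by norm_num) (by norm_num) (by omega)
            simpa using this
          have h8 := R_pos q (κ + 1 - j)
          have h9 : 2 * R q (κ + 1 - j) ≤ B (κ + 1 - j) := by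
            simp only [hB]
            exact mul_le_mul_of_nonneg_right hK2 h8.le
          linarith
    refine ⟨?_, C2⟩
    intro j t hj
    by_cases hsmall : κ + 1 - j ≤ l₀
    · have h1 := hBsmall _ hsmall
      have h2 := g_sq_le_one hs n j t
      linarith
    rw [not_le] at hsmall
    have hBl := hBpos (κ + 1 - j)
    rcases hs.sgn j (t + 1) with hone | hone
    · have := C2 j t hj hone
      linarith
    · rcases Nat.eq_zero_or_pos n with rfl | hnpos
      · rw [g_short 0 j t (by omega)]
        simp only [ne_eq, OfNat.ofNat_ne_zero, not_false_eq_true, zero_pow]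
        exact hBl.le
      obtain ⟨m, rfl⟩ : ∃ m, n = m + 1 := ⟨n - 1, by omega⟩
      have hκ : j + 1 ≤ κ := by omega
      have ih1 := (ih m (by omega)).1
      have ih2 := (ih m (by omega)).2
      have hstep : g s κ (m + 1) j t = (-(g s κ m (j + 1) (t + 1)) + g s κ m j (t + 1)) / 2 := by
        simp only [g]
        rw [hone]
        ring
      set a := g s κ m (j + 1) (t + 1) with ha
      set b := g s κ m j (t + 1) with hb
      have hsq : g s κ (m + 1) j t ^ 2 ≤ (a ^ 2 + b ^ 2) / 2 := by
        rw [hstep]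
        nlinarith [sq_nonneg (a + b)]
      have hT1 : 1 ≤ T₀ := Nat.one_le_two_pow
      have hB1 : B (κ + 1 - (j + 1)) ≤ 5 / 4 * B (κ + 1 - j) := by
        have := hBslow (κ + 1 - j) hsmall.le 1 hT1
        have e : κ + 1 - (j + 1) = κ + 1 - j - 1 := by omega
        rwa [e]
      have hmul := hs.mul j (t + 1)
      rw [hone] at hmul
      rcases hs.sgn j (t + 1 + 1) with h2 | h2
      · have hb2 : b ^ 2 ≤ 3 / 4 * B (κ + 1 - j) := ih2 j (t + 1) hj h2
        have ha2 : a ^ 2 ≤ B (κ + 1 - (j + 1)) := ih1 (j + 1) (t + 1) hκ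
        linarith
      · have h3 : s (j + 1) (t + 1 + 1) = 1 := by
          rw [h2] at hmul
          linarith
        have ha2 : a ^ 2 ≤ 3 / 4 * B (κ + 1 - (j + 1)) := ih2 (j + 1) (t + 1) hκ h3
        have hb2 : b ^ 2 ≤ B (κ + 1 - j) := ih1 j (t + 1) hj
        linarith
  intro n j t hj
  exact (main n).1 j t hj

end Pool.Agent.H618.PM
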