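import Mathlib

/-! # Binomial averages -/

set_option autoImplicit false

namespace Pool.Agent.H618.PM

/-- binomial average: `P m F a` is the mean of `F (a + I)`, `I` binomial with parameters `m`, `1/2` -/
noncomputable def P : ℕ → (ℕ → ℝ) → ℕ → ℝ
  | 0, F, a => F a
  | m + 1, F, a => (P m F a + P m F (a + 1)) / 2

theorem P_mono {m : ℕ} {F G : ℕ → ℝ} {a : ℕ} (h : ∀ i ≤ m, F (a + i) ≤ G (a + i)) : P m F a ≤ P m G a := by
  induction m generalizing a with
  | zero => simpa [P] using h 0 le_rfl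
  | succ m ih =>
    simp only [P]
    have h1 := ih (a := a) (fun i hi => h i (by omega))
    have h2 := ih (a := a + 1) (fun i hi => by
      have := h (i + 1) (by omega)
      have e : a + 1 + i = a + (i + 1) := by ring
      rw [e]; exact this)
    linarith

theorem P_congr {m : ℕ} {F G : ℕ → ℝ} {a : ℕ} (h : ∀ i ≤ m, F (a + i) = G (a + i)) : P m F a = P m G a :=
  le_antisymm (P_mono fun i hi => (h i hi).le) (P_mono fun i hi => (h i hi).ge)

theorem P_const (m : ℕ) (c : ℝ) (a : ℕ) : P m (fun _ => c) a = c := by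
  induction m generalizing a with
  | zero => rfl
  | succ m ih => simp only [P, ih]; ring

theorem P_add (m : ℕ) (F G : ℕ → ℝ) (a : ℕ) : P m (fun i => F i + G i) a = P m F a + P m G a := by
  induction m generalizing a with
  | zero => rfl
  | succ m ih => simp only [P, ih]; ring

theorem P_sub (m : ℕ) (F G : ℕ → ℝ) (a : ℕ) : P m (fun i => F i - G i) a = P m F a - P m G a := by
  induction m generalizing a with
  | zero => rfl
  | succ m ih => simp only [P, ih]; ring

theorem P_smul (m : ℕ) (c : ℝ) (F : ℕ → ℝ) (a : ℕ) : P m (fun i => c * F i) a = c * P m F a := by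
  induction m generalizing a with
  | zero => rfl
  | succ m ih => simp only [P, ih]; ring

theorem P_shift (m : ℕ) (F : ℕ → ℝ) (a : ℕ) : P m (fun i => F (i + 1)) a = P m F (a + 1) := by
  induction m generalizing a with
  | zero => rfl
  | succ m ih => simp only [P, ih]

theorem P_shift_zero (m : ℕ) (F : ℕ → ℝ) (a : ℕ) : P m F a = P m (fun i => F (a + i)) 0 := by
  induction a generalizing F with
  | zero => simp
  | succ a ih =>
    rw [← P_shift, ih]
    congr 1
    funext i
    congr 1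
    ring

theorem P_succ' (m : ℕ) (F : ℕ → ℝ) (a : ℕ) : P (m + 1) F a = P m (fun i => (F i + F (i + 1)) / 2) a := by
  have h : (fun i => (F i + F (i + 1)) / 2) = fun i => (1 / 2 : ℝ) * (F i + F (i + 1)) := by funext i; ring
  rw [h, P_smul, P_add, P_shift]
  simp only [P]
  ring

/-- the first Walsh coefficient -/
theorem P_walsh (m : ℕ) (x : ℕ → ℝ) :
    P (m + 1) (fun i => ((m : ℝ) + 1 - 2 * i) * x i) 0 = ((m : ℝ) + 1) * P m (fun i => (x i - x (i + 1)) / 2) 0 := by
  induction m generalizing x with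
  | zero => simp [P]; ring
  | succ m ih =>
    rw [P_succ']
    have h1 : (fun i : ℕ => ((((m + 1 : ℕ) : ℝ) + 1 - 2 * (i : ℝ)) * x i + (((m + 1 : ℕ) : ℝ) + 1 - 2 * ((i + 1 : ℕ) : ℝ)) * x (i + 1)) / 2)
        = fun i : ℕ => ((m : ℝ) + 1 - 2 * i) * ((fun i => (x i + x (i + 1)) / 2) i) + (x i - x (i + 1)) / 2 := by
      funext i
      push_cast
      ring
    rw [h1, P_add, ih]
    have h2 : (fun i : ℕ => ((fun i => (x i + x (i + 1)) / 2) i - (fun i => (x i + x (i + 1)) / 2) (i + 1)) / 2) =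
        fun i => ((fun i => (x i - x (i + 1)) / 2) i + (fun i => (x i - x (i + 1)) / 2) (i + 1)) / 2 := by
      funext i
      simp only
      ring
    rw [h2, ← P_succ']
    push_cast
    ring

theorem P_var (m : ℕ) (c : ℝ) : P m (fun i => (c + m - 2 * i) ^ 2) 0 = c ^ 2 + m := by
  induction m generalizing c with
  | zero => simp [P]
  | succ m ih =>
    rw [P_succ']
    have h1 : (fun i : ℕ => ((c + ((m + 1 : ℕ) : ℝ) - 2 * (i : ℝ)) ^ 2 + (c + ((m + 1 : ℕ) : ℝ) - 2 * ((i + 1 : ℕ) : ℝ)) ^ 2) / 2)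
        = fun i : ℕ => (c + (m : ℝ) - 2 * i) ^ 2 + 1 := by
      funext i
      push_cast
      ring
    rw [h1, P_add, ih, P_const]
    push_cast
    ring

/-- THE GRADIENT INEQUALITY -/
theorem P_grad (m : ℕ) (x : ℕ → ℝ) :
    ((m : ℝ) + 1) * (P m (fun i => (x i - x (i + 1)) / 2) 0) ^ 2 ≤ P (m + 1) (fun i => x i ^ 2) 0 := by
  set g := P m (fun i => (x i - x (i + 1)) / 2) 0 with hg
  have h0 : 0 ≤ P (m + 1) (fun i => (x i - g * ((m : ℝ) + 1 - 2 * i)) ^ 2) 0 := by
    have := P_mono (m := m + 1) (F := fun _ => 0) (G := fun i => (x i - g * ((m : ℝ) + 1 - 2 * i)) ^ 2) (a := 0)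
      (fun i _ => sq_nonneg _)
    rwa [P_const] at this
  have h1 : (fun i : ℕ => (x i - g * ((m : ℝ) + 1 - 2 * i)) ^ 2) =
      fun i : ℕ => (x i ^ 2 - (2 * g) * (((m : ℝ) + 1 - 2 * i) * x i)) + g ^ 2 * ((0 + ((m + 1 : ℕ) : ℝ) - 2 * i) ^ 2) := by
    funext i
    push_cast
    ring
  rw [h1, P_add, P_sub, P_smul, P_smul, P_walsh, P_var, ← hg] at h0
  push_cast at h0
  nlinarith

theorem P_binom (m : ℕ) (F : ℕ → ℝ) (a : ℕ) :
    P m F a = (∑ i ∈ Finset.range (m + 1), (m.choose i : ℝ) * F (a + i)) / 2 ^ m := by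
  induction m generalizing a with
  | zero => simp [P]
  | succ m ih =>
    simp only [P]
    rw [ih, ih, Finset.sum_range_succ' _ (m + 1)]
    have h1 : ∑ i ∈ Finset.range (m + 1), ((m + 1).choose (i + 1) : ℝ) * F (a + (i + 1)) =
        ∑ i ∈ Finset.range (m + 1), (m.choose i : ℝ) * F (a + 1 + i) +
        ∑ i ∈ Finset.range (m + 1), (m.choose (i + 1) : ℝ) * F (a + (i + 1)) := by
      rw [← Finset.sum_add_distrib]
      refine Finset.sum_congr rfl fun i _ => ?_
      rw [Nat.choose_succ_succ]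
      push_cast
      have e : a + (i + 1) = a + 1 + i := by ring
      rw [e]
      ring
    have h2 : ∑ i ∈ Finset.range (m + 1), (m.choose i : ℝ) * F (a + i) =
        ∑ i ∈ Finset.range (m + 1), (m.choose (i + 1) : ℝ) * F (a + (i + 1)) + F a := by
      rw [Finset.sum_range_succ' (fun i => (m.choose i : ℝ) * F (a + i)), Finset.sum_range_succ (fun i => (m.choose (i + 1) : ℝ) * F (a + (i + 1)))]
      simp
    rw [h1, h2]
    simp only [Nat.choose_zero_right, Nat.cast_one, add_zero, one_mul]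
    rw [pow_succ]
    field_simp
    ring

/-- `R q l = l! / (l+q)!` -/
noncomputable def R (q l : ℕ) : ℝ := (l.factorial : ℝ) / ((l + q).factorial : ℝ)

theorem R_pos (q l : ℕ) : 0 < R q l := by unfold R; positivity

theorem R_anti (q : ℕ) {l l' : ℕ} (h : l ≤ l') : R q l' ≤ R q l := by
  induction l', h using Nat.le_induction with
  | base => exact le_rfl
  | succ n _ ih =>
    refine le_trans ?_ ih
    unfold R
    rw [div_le_div_iff₀ (by positivity) (by positivity)]
    have e : n + 1 + q = (n + q) + 1 := by ring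
    rw [e, Nat.factorial_succ, Nat.factorial_succ]
    push_cast
    have h1 : (0 : ℝ) < n.factorial := by positivity
    have h2 : (0 : ℝ) < (n + q).factorial := by positivity
    have h3 : (0 : ℝ) ≤ q := Nat.cast_nonneg q
    have h4 : (0 : ℝ) ≤ (q : ℝ) * (n.factorial * (n + q).factorial) := by positivity
    nlinarith

theorem P_R_top (q l : ℕ) : P l (fun i => R q (l - i)) 0 ≤ 2 ^ q * R q l := by
  rw [P_binom, div_le_iff₀ (by positivity)]
  have h1 : ∀ i ∈ Finset.range (l + 1), (l.choose i : ℝ) * R q (l - (0 + i)) = R q l * ((l + q).choose i : ℝ) := by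
    intro i hi
    rw [Finset.mem_range] at hi
    have hi' : i ≤ l := by omega
    rw [zero_add]
    unfold R
    rw [Nat.cast_choose ℝ hi', Nat.cast_choose ℝ (by omega : i ≤ l + q)]
    have e : l - i + q = l + q - i := by omega
    rw [e]
    have h1 : ((l + q).factorial : ℝ) ≠ 0 := by positivity
    have h2 : ((l - i).factorial : ℝ) ≠ 0 := by positivity
    have h3 : ((l + q - i).factorial : ℝ) ≠ 0 := by positivity
    have h4 : (i.factorial : ℝ) ≠ 0 := by positivity
    field_simp
  rw [Finset.sum_congr rfl h1, ← Finset.mul_sum]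
  have h2 : ∑ i ∈ Finset.range (l + 1), ((l + q).choose i : ℝ) ≤ 2 ^ (l + q) := by
    have h3 : ∑ i ∈ Finset.range (l + q + 1), ((l + q).choose i : ℝ) = 2 ^ (l + q) := by
      exact_mod_cast Nat.sum_range_choose (l + q)
    rw [← h3]
    apply Finset.sum_le_sum_of_subset_of_nonneg
    · intro i hi
      rw [Finset.mem_range] at hi ⊢
      omega
    · intro i _ _
      positivity
  have h4 := mul_le_mul_of_nonneg_left h2 (R_pos q l).le
  rw [pow_add] at h4
  linarith

theorem P_R (q l m : ℕ) (h : m ≤ l) : P m (fun i => R q (l - i)) 0 ≤ 2 ^ q * R q l := by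
  have key : ∀ n m : ℕ, m + n = l → P m (fun i => R q (l - i)) 0 ≤ 2 ^ q * R q l := by
    intro n
    induction n with
    | zero =>
      intro m hm
      rw [add_zero] at hm
      subst hm
      exact P_R_top q m
    | succ n ih =>
      intro m hm
      refine le_trans ?_ (ih (m + 1) (by omega))
      simp only [P]
      have h1 : P m (fun i => R q (l - i)) 0 ≤ P m (fun i => R q (l - i)) (0 + 1) := by
        rw [← P_shift]
        apply P_mono
        intro i _
        exact R_anti q (by omega)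
      linarith
  exact key (l - m) m (by omega)

/-- slow variation -/
theorem R_slow (q T : ℕ) : ∃ l₀ : ℕ, ∀ l ≥ l₀, T ≤ l ∧ R q (l - T) ≤ 5 / 4 * R q l := by
  have h1 : Filter.Tendsto (fun l : ℕ => (1 + (T : ℝ) / (l : ℝ)) ^ q) Filter.atTop (nhds ((1 + 0) ^ q)) := by
    apply Filter.Tendsto.pow
    apply Filter.Tendsto.const_add
    exact tendsto_const_div_atTop_nhds_zero_nat (T : ℝ)
  rw [add_zero, one_pow] at h1
  have h2 := (h1.eventually (gt_mem_nhds (show (1 : ℝ) < 5 / 4 by norm_num)))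
  obtain ⟨l₀, hl₀⟩ := Filter.eventually_atTop.1 h2
  refine ⟨l₀ + T + 1, fun l hl => ⟨by omega, ?_⟩⟩
  obtain ⟨m, rfl⟩ : ∃ m, l = m + T := ⟨l - T, by omega⟩
  rw [Nat.add_sub_cancel]
  have h3 := (hl₀ m (by omega)).le
  have hm : 0 < m := by omega
  have h4 : R q m ≤ (1 + (T : ℝ) / (m : ℝ)) ^ q * R q (m + T) := by
    clear hl hl₀ h1 h2 h3
    have hm' : (0 : ℝ) < m := by exact_mod_cast hm
    have key : ∀ q : ℕ, R q m ≤ (1 + (T : ℝ) / (m : ℝ)) ^ q * R q (m + T) := by
      intro q
      induction q with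
      | zero => unfold R; simp; rw [div_self (by positivity), div_self (by positivity)]
      | succ q ih =>
        have e1 : ∀ l : ℕ, R (q + 1) l = R q l / ((l : ℝ) + q + 1) := by
          intro l
          unfold R
          have : l + (q + 1) = (l + q) + 1 := by ring
          rw [this, Nat.factorial_succ]
          push_cast
          have h5 : ((l + q).factorial : ℝ) ≠ 0 := by positivity
          have h6 : ((l : ℝ) + q + 1) ≠ 0 := by positivity
          field_simp
        rw [e1, e1, div_le_iff₀ (by positivity)]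
        have h7 : 1 ≤ (1 + (T : ℝ) / (m : ℝ)) * ((m : ℝ) + q + 1) / (((m + T : ℕ) : ℝ) + q + 1) := by
          rw [le_div_iff₀ (by positivity)]
          push_cast
          have : (1 + (T : ℝ) / (m : ℝ)) * ((m : ℝ) + q + 1) = m + q + 1 + T + (T : ℝ) / m * (q + 1) := by
            field_simp
            ring
          rw [this]
          have : 0 ≤ (T : ℝ) / m * (q + 1) := by positivity
          linarith
        have h8 : 0 ≤ (1 + (T : ℝ) / (m : ℝ)) ^ q * R q (m + T) := by
          have := (R_pos q (m + T)).le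
          positivity
        calc R q m ≤ (1 + (T : ℝ) / (m : ℝ)) ^ q * R q (m + T) := ih
          _ ≤ (1 + (T : ℝ) / (m : ℝ)) ^ q * R q (m + T) * ((1 + (T : ℝ) / (m : ℝ)) * ((m : ℝ) + q + 1) / (((m + T : ℕ) : ℝ) + q + 1)) :=
            le_mul_of_one_le_right h8 h7
          _ = (1 + (T : ℝ) / (m : ℝ)) ^ (q + 1) * (R q (m + T) / (((m + T : ℕ) : ℝ) + q + 1)) * ((m : ℝ) + q + 1) := by
            rw [pow_succ]; ring
    exact key q
  refine h4.trans (mul_le_mul_of_nonneg_right h3 (R_pos q _).le)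

/-- exponentials are small compared with `R` -/
theorem R_exp (q : ℕ) : ∃ l₀ : ℕ, ∀ l ≥ l₀, (1 / 2 : ℝ) ^ (l - 1) ≤ R q l := by
  have h1 : Filter.Tendsto (fun l : ℕ => (l : ℝ) ^ q * (1 / 2 : ℝ) ^ l) Filter.atTop (nhds 0) :=
    tendsto_pow_const_mul_const_pow_of_abs_lt_one q (by norm_num [abs_of_pos])
  have h2 := (Filter.tendsto_add_atTop_iff_nat (f := fun l : ℕ => (l : ℝ) ^ q * (1 / 2 : ℝ) ^ l) q).2 h1
  have h3 := h2.eventually (gt_mem_nhds (show (0 : ℝ) < (1 / 2) ^ (q + 1) by positivity))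
  obtain ⟨l₀, hl₀⟩ := Filter.eventually_atTop.1 h3
  refine ⟨l₀ + 1, fun l hl => ?_⟩
  have h4 := (hl₀ l (by omega)).le
  have h5 : 1 / ((l + q : ℕ) : ℝ) ^ q ≤ R q l := by
    unfold R
    have hp : (0 : ℝ) < ((l + q : ℕ) : ℝ) ^ q := by
      have : (0 : ℝ) < ((l + q : ℕ) : ℝ) := by exact_mod_cast (by omega : 0 < l + q)
      positivity
    rw [div_le_div_iff₀ hp (by positivity), one_mul]
    have h6 : (l + q).factorial ≤ l.factorial * (l + q) ^ q := by
      have h7 : ∀ k ≤ q, (l + k).factorial ≤ l.factorial * (l + q) ^ k := by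
        intro k
        induction k with
        | zero => intro _; simp
        | succ k ih =>
          intro hk
          have h8 := ih (by omega)
          rw [← add_assoc, Nat.factorial_succ, pow_succ, ← mul_assoc, mul_comm]
          exact Nat.mul_le_mul h8 (by omega)
      exact h7 q le_rfl
    exact_mod_cast h6
  refine le_trans ?_ h5
  have hpos : (0 : ℝ) < ((l + q : ℕ) : ℝ) ^ q := by
    have : (0 : ℝ) < ((l + q : ℕ) : ℝ) := by exact_mod_cast (by omega : 0 < l + q)
    positivity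
  rw [le_div_iff₀ hpos]
  have e1 : (1 / 2 : ℝ) ^ (l + q) = (1 / 2) ^ (l - 1) * (1 / 2) ^ (q + 1) := by
    rw [← pow_add]; congr 1; omega
  rw [e1] at h4
  have h7 : (0 : ℝ) < (1 / 2) ^ (q + 1) := by positivity
  have h8 : ((1 / 2 : ℝ) ^ (l - 1) * ((l + q : ℕ) : ℝ) ^ q) * (1 / 2) ^ (q + 1) ≤ 1 * (1 / 2) ^ (q + 1) := by
    linarith
  exact le_of_mul_le_mul_right h8 h7

end Pool.Agent.H618.PM
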