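import Pool.Agent.H618.PM.Words

/-! # Real characters of a finite group of exponent two, path sums and parity words -/

set_option autoImplicit false

namespace Pool.Agent.H618.PM

open Polynomial Finset Pool.Agent.Q74

section chars

variable {A : Type} [CommRing A]

/-- the sign of a character -/
noncomputable def sg (χ : AddChar A ℂ) (v : A) : ℝ := (χ v).re

theorem sg_spec (h2 : ∀ v : A, v + v = 0) (χ : AddChar A ℂ) (v : A) :
    (χ v = 1 ∨ χ v = -1) := by
  have h : χ v * χ v = 1 := by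
    rw [← AddChar.map_add_eq_mul, h2, AddChar.map_zero_eq_one]
  exact mul_self_eq_one_iff.1 h

theorem sg_cases (h2 : ∀ v : A, v + v = 0) (χ : AddChar A ℂ) (v : A) : sg χ v = 1 ∨ sg χ v = -1 := by
  unfold sg
  rcases sg_spec h2 χ v with h | h <;> rw [h] <;> simp

theorem sg_add (h2 : ∀ v : A, v + v = 0) (χ : AddChar A ℂ) (v w : A) : sg χ (v + w) = sg χ v * sg χ w := by
  unfold sg
  rw [AddChar.map_add_eq_mul]
  rcases sg_spec h2 χ v with h | h <;> rcases sg_spec h2 χ w with h' | h' <;> rw [h, h'] <;> simp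

theorem sg_zero (χ : AddChar A ℂ) : sg χ (0 : A) = 1 := by
  unfold sg
  rw [AddChar.map_zero_eq_one]; simp

theorem sum_sg [Fintype A] [DecidableEq A] (v : A) :
    ∑ χ : AddChar A ℂ, sg χ v = if v = 0 then (Fintype.card A : ℝ) else 0 := by
  have h := congrArg Complex.re (AddChar.sum_apply_eq_ite v)
  rw [Complex.re_sum] at h
  unfold sg
  rw [h]
  split_ifs <;> simp

/-- PARSEVAL for weighted families -/
theorem parseval [Fintype A] [DecidableEq A] (h2 : ∀ v : A, v + v = 0) {ι : Type} (T : Finset ι) (V : ι → A)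
    (c : ι → ℝ) : ∑ χ : AddChar A ℂ, (∑ f ∈ T, c f * sg χ (V f)) ^ 2 =
      (Fintype.card A : ℝ) * ∑ f ∈ T, ∑ f' ∈ T, (if V f = V f' then c f * c f' else 0) := by
  have h1 : ∀ χ : AddChar A ℂ, (∑ f ∈ T, c f * sg χ (V f)) ^ 2 =
      ∑ f ∈ T, ∑ f' ∈ T, (c f * c f') * sg χ (V f + V f') := by
    intro χ
    rw [pow_two, sum_mul_sum]
    refine sum_congr rfl fun f _ => sum_congr rfl fun f' _ => ?_
    rw [sg_add h2]
    ring
  rw [sum_congr rfl fun χ _ => h1 χ, sum_comm, mul_sum]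
  refine sum_congr rfl fun f _ => ?_
  rw [sum_comm, mul_sum]
  refine sum_congr rfl fun f' _ => ?_
  rw [← mul_sum, sum_sg]
  have h3 : V f + V f' = 0 ↔ V f = V f' := by
    constructor
    · intro h
      have h4 := h2 (V f')
      exact add_right_cancel (h.trans h4.symm)
    · intro h
      rw [h, h2]
  by_cases h : V f = V f'
  · rw [if_pos (h3.2 h), if_pos h]; ring
  · rw [if_neg (fun h' => h (h3.1 h')), if_neg h]; ring

theorem parseval_fun [Fintype A] [DecidableEq A] (h2 : ∀ v : A, v + v = 0) (F : A → ℝ) :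
    ∑ χ : AddChar A ℂ, (∑ v, F v * sg χ v) ^ 2 = (Fintype.card A : ℝ) * ∑ v, F v ^ 2 := by
  have h := parseval h2 (univ : Finset A) (fun v => v) F
  rw [h]
  congr 1
  refine sum_congr rfl fun v _ => ?_
  rw [sum_ite_eq]
  simp [pow_two]

theorem parseval_inj [Fintype A] [DecidableEq A] (h2 : ∀ v : A, v + v = 0) {ι : Type} (T : Finset ι) (V : ι → A)
    (hV : Set.InjOn V (T : Set ι)) : ∑ χ : AddChar A ℂ, (∑ f ∈ T, sg χ (V f)) ^ 2 =
      (Fintype.card A : ℝ) * T.card := by
  classical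
  have h := parseval h2 T V (fun _ => 1)
  simp only [one_mul] at h
  rw [h]
  congr 1
  rw [card_eq_sum_ones, Nat.cast_sum]
  refine sum_congr rfl fun f hf => ?_
  have h3 : ∑ f' ∈ T, (if V f = V f' then (1 : ℝ) else 0) = ∑ f' ∈ T, (if f = f' then (1 : ℝ) else 0) := by
    refine sum_congr rfl fun f' hf' => ?_
    by_cases h4 : f = f'
    · rw [if_pos h4, h4, if_pos rfl]
    · rw [if_neg h4, if_neg (fun h5 => h4 (hV hf hf' h5))]
  rw [h3, sum_ite_eq, if_pos hf]
  simp

/-- test functions -/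
theorem test_bound [Fintype A] [DecidableEq A] (h2 : ∀ v : A, v + v = 0) {ι : Type} (T : Finset ι) (V : ι → A)
    (z : A) (φ : A → ℝ) (hφ : ∀ v, |φ v| ≤ 1) :
    (∑ f ∈ T, (φ (V f) - φ (V f + z))) ^ 2 ≤
      ∑ χ : AddChar A ℂ, ((1 - sg χ z) * ∑ f ∈ T, sg χ (V f)) ^ 2 := by
  classical
  set N : A → ℝ := fun v => ((T.filter (fun f => V f = v)).card : ℝ) with hN
  have hsum : ∀ ψ : A → ℝ, ∑ f ∈ T, ψ (V f) = ∑ v, N v * ψ v := by
    intro ψ
    rw [← sum_fiberwise T V]
    refine sum_congr rfl fun v _ => ?_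
    rw [sum_congr rfl (g := fun _ => ψ v) (fun f hf => by rw [(mem_filter.1 hf).2]), sum_const, nsmul_eq_mul]
  have hsum2 : ∀ ψ : A → ℝ, ∑ f ∈ T, ψ (V f + z) = ∑ v, N (v + z) * ψ v := by
    intro ψ
    rw [hsum (fun v => ψ (v + z))]
    have := Fintype.sum_equiv (Equiv.addRight z) (fun v => N v * ψ (v + z)) (fun v => N (v + z) * ψ v) (by
      intro v
      simp only [Equiv.coe_addRight]
      rw [add_assoc, h2, add_zero])
    exact this
  set F : A → ℝ := fun v => N v - N (v + z) with hF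
  have h1 : ∑ f ∈ T, (φ (V f) - φ (V f + z)) = ∑ v, F v * φ v := by
    rw [sum_sub_distrib, hsum, hsum2, ← sum_sub_distrib]
    refine sum_congr rfl fun v _ => ?_
    simp only [hF]
    ring
  have h3 : (∑ v, F v * φ v) ^ 2 ≤ (∑ v, F v ^ 2) * ∑ v, φ v ^ 2 := sum_mul_sq_le_sq_mul_sq _ _ _
  have h4 : ∑ v : A, φ v ^ 2 ≤ (Fintype.card A : ℝ) := by
    calc ∑ v : A, φ v ^ 2 ≤ ∑ _v : A, (1 : ℝ) := sum_le_sum fun v _ => by
          rw [sq_le_one_iff_abs_le_one]; exact hφ v
      _ = _ := by simp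
  have h5 : ∑ χ : AddChar A ℂ, (∑ v, F v * sg χ v) ^ 2 = (Fintype.card A : ℝ) * ∑ v, F v ^ 2 := parseval_fun h2 F
  have h6 : ∀ χ : AddChar A ℂ, ∑ v, F v * sg χ v = (1 - sg χ z) * ∑ f ∈ T, sg χ (V f) := by
    intro χ
    have e1 := hsum (sg χ)
    have e2 := hsum2 (sg χ)
    have e3 : ∑ f ∈ T, sg χ (V f + z) = sg χ z * ∑ f ∈ T, sg χ (V f) := by
      rw [mul_sum]
      refine sum_congr rfl fun f _ => ?_
      rw [sg_add h2]; ring
    rw [e3] at e2
    simp only [hF]
    rw [sub_mul, one_mul, e2, e1, ← sum_sub_distrib]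
    refine sum_congr rfl fun v _ => ?_
    ring
  rw [h1]
  have h7 : 0 ≤ ∑ v, F v ^ 2 := sum_nonneg fun v _ => sq_nonneg _
  calc (∑ v, F v * φ v) ^ 2 ≤ (∑ v, F v ^ 2) * ∑ v, φ v ^ 2 := h3
    _ ≤ (∑ v, F v ^ 2) * (Fintype.card A : ℝ) := mul_le_mul_of_nonneg_left h4 h7
    _ = ∑ χ : AddChar A ℂ, (∑ v, F v * sg χ v) ^ 2 := by rw [h5]; ring
    _ = _ := by rw [sum_congr rfl fun χ _ => by rw [h6 χ]]

end chars

/-! ### reductions -/

/-- `A` is the ring of polynomials modulo `(X + 1)^M`, and `w` is the inverse of `X` -/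
structure Red (M : ℕ) {A : Type} [CommRing A] (π : (ZMod 2)[X] →+* A) (w : A) : Prop where
  surj : Function.Surjective π
  ker : ∀ f, π f = 0 ↔ (X + 1) ^ M ∣ f
  inv : w * π X = 1

section red

variable {A : Type} [CommRing A] {M : ℕ} {π : (ZMod 2)[X] →+* A} {w : A}

theorem Red.two (h : Red M π w) (v : A) : v + v = 0 := by
  obtain ⟨f, rfl⟩ := h.surj v
  rw [← map_add, CharTwo.add_self_eq_zero, map_zero]

theorem X1_monic : (X + 1 : (ZMod 2)[X]).Monic := by
  have : (X + C 1 : (ZMod 2)[X]).Monic := monic_X_add_C 1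
  rwa [map_one] at this

theorem X1_pow_natDegree (M : ℕ) : ((X + 1) ^ M : (ZMod 2)[X]).natDegree = M := by
  have h : (X + 1 : (ZMod 2)[X]).natDegree = 1 := natDegree_eq_of_degree_eq_some FC.deg_X1
  rw [natDegree_pow, h, mul_one]

theorem Red.inj (h : Red M π w) {f f' : (ZMod 2)[X]} (hf : (f - f').degree < (M : WithBot ℕ)) (he : π f = π f') :
    f = f' := by
  have h1 : π (f - f') = 0 := by rw [map_sub, he, sub_self]
  rw [h.ker] at h1
  by_contra hne
  have h2 : f - f' ≠ 0 := sub_ne_zero.2 hne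
  have h3 := natDegree_le_of_dvd h1 h2
  rw [X1_pow_natDegree] at h3
  rw [degree_eq_natDegree h2] at hf
  have h4 : (f - f').natDegree < M := by exact_mod_cast hf
  omega

theorem Red.inj_L (h : Red M π w) : Set.InjOn π (FC.L M : Set ((ZMod 2)[X])) := by
  intro f hf f' hf' he
  rw [mem_coe, FC.mem_L] at hf hf'
  exact h.inj (lt_of_le_of_lt (degree_sub_le _ _) (max_lt hf hf')) he

theorem Red.surj_L (h : Red M π w) (v : A) : ∃ f ∈ FC.L M, π f = v := by
  obtain ⟨f, rfl⟩ := h.surj v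
  have hm : ((X + 1) ^ M : (ZMod 2)[X]).Monic := X1_monic.pow M
  refine ⟨f %ₘ ((X + 1) ^ M), ?_, ?_⟩
  · rw [FC.mem_L]
    have h1 := degree_modByMonic_lt f hm
    rw [degree_eq_natDegree hm.ne_zero, X1_pow_natDegree] at h1
    exact h1
  · have h1 := modByMonic_add_div f ((X + 1) ^ M : (ZMod 2)[X])
    have h2 : π ((X + 1) ^ M * (f /ₘ (X + 1) ^ M)) = 0 := by
      rw [h.ker]
      exact dvd_mul_right _ _
    conv_rhs => rw [← h1]
    rw [map_add, h2, add_zero]

theorem Red.card [Fintype A] (h : Red M π w) : Fintype.card A = 2 ^ M := by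
  classical
  rw [← FC.card_L M]
  have h1 : (FC.L M).image π = univ := by
    ext v
    simp only [mem_image, mem_univ, iff_true]
    exact h.surj_L v
  rw [← card_univ, ← h1, card_image_of_injOn h.inj_L]

theorem Red.y_eq (_ : Red M π w) : π (X + 1) = π X + 1 := by rw [map_add, map_one]

theorem Red.wpow (h : Red M π w) (t : ℕ) : w ^ t = w ^ (t + 1) + π (X + 1) * w ^ (t + 1) := by
  have h1 := h.inv
  have h2 := h.two (w ^ (t + 1))
  have h3 : w ^ (t + 1) + π (X + 1) * w ^ (t + 1) = (w ^ (t + 1) + w ^ (t + 1)) + (w * π X) * w ^ t := by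
    rw [h.y_eq]; ring
  rw [h3, h2, h1, zero_add, one_mul]

/-- the array of signs of a character -/
noncomputable def arr (π : (ZMod 2)[X] →+* A) (w : A) (χ : AddChar A ℂ) (j t : ℕ) : ℝ := sg χ (π (X + 1) ^ j * w ^ t)

theorem arr_mul (h : Red M π w) (χ : AddChar A ℂ) (j t : ℕ) :
    arr π w χ j t = arr π w χ j (t + 1) * arr π w χ (j + 1) (t + 1) := by
  unfold arr
  rw [← sg_add h.two]
  congr 1
  conv_lhs => rw [h.wpow t]
  ring

theorem Red.top_w (h : Red (M + 1) π w) : π (X + 1) ^ M * w = π (X + 1) ^ M := by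
  have h1 : π (X + 1) ^ (M + 1) = 0 := by rw [← map_pow, h.ker]
  have h2 : π (X + 1) ^ M * π X + π (X + 1) ^ M = 0 := by
    rw [← h1, pow_succ]
    conv_rhs => rw [h.y_eq]
    rw [mul_add, mul_one, ← h.y_eq]
  have h3 : π (X + 1) ^ M * π X = π (X + 1) ^ M := by
    have h4 := h.two (π (X + 1) ^ M)
    exact add_right_cancel (h2.trans h4.symm)
  calc π (X + 1) ^ M * w = π (X + 1) ^ M * π X * w := by rw [h3]
    _ = π (X + 1) ^ M * (w * π X) := by ring
    _ = π (X + 1) ^ M := by rw [h.inv, mul_one]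

theorem Red.top_wpow (h : Red (M + 1) π w) (t : ℕ) : π (X + 1) ^ M * w ^ t = π (X + 1) ^ M := by
  induction t with
  | zero => simp
  | succ t ih => rw [pow_succ, ← mul_assoc, ih, h.top_w]

theorem arr_isArr (h : Red (M + 1) π w) (χ : AddChar A ℂ) (hχ : sg χ (π (X + 1) ^ M) = -1) :
    IsArr (arr π w χ) M where
  sgn j t := sg_cases h.two χ _
  mul j t := arr_mul h χ j t
  top t := by unfold arr; rw [h.top_wpow, hχ]

/-- the value of a parity word -/
noncomputable def V (π : (ZMod 2)[X] →+* A) (w : A) (d : ℕ) (f : (ZMod 2)[X]) : A := π (FC.R d f) * w ^ d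

theorem class_iter (h : Red M π w) (d : ℕ) (f : (ZMod 2)[X]) :
    π (FC.S^[d] f) = V π w d f + π (X + 1) ^ FC.odds d f * w ^ d * π f := by
  have h1 := congrArg π (FC.main_formula d f)
  rw [map_mul, map_add, map_mul, map_pow, map_pow] at h1
  have h2 : w ^ d * π X ^ d = 1 := by rw [← mul_pow, h.inv, one_pow]
  calc π (FC.S^[d] f) = (w ^ d * π X ^ d) * π (FC.S^[d] f) := by rw [h2, one_mul]
    _ = w ^ d * (π X ^ d * π (FC.S^[d] f)) := by ring
    _ = _ := by rw [h1]; unfold V; ring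

/-- sums of signs over words are path sums -/
theorem word_sum (h : Red M π w) (χ : AddChar A ℂ) (κ : ℕ) : ∀ d j t : ℕ,
    ∑ f ∈ FC.L d, (if j + FC.odds d f = κ then sg χ (π (X + 1) ^ j * w ^ t * V π w d f) else 0) =
      2 ^ d * g (arr π w χ) κ d j t := by
  intro d
  induction d with
  | zero =>
    intro j t
    have h0 : FC.L 0 = {0} := by
      ext f
      rw [FC.mem_L, mem_singleton]
      constructor
      · intro h
        rw [Polynomial.degree_lt_iff_coeff_zero] at h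
        ext i
        simpa using h i (by simp)
      · rintro rfl; simp
    rw [h0]
    simp only [sum_singleton, FC.odds, add_zero, g, V, FC.R, map_zero, zero_mul, mul_zero, sg_zero, pow_zero, one_mul]
  | succ d ih =>
    intro j t
    set H : ℕ → ℕ → (ZMod 2)[X] → ℝ := fun p k r =>
      if j + (k + p) = κ then sg χ (π (X + 1) ^ j * w ^ t * (π ((X + 1) ^ p * r + C (p : ZMod 2) * X ^ d) * w ^ (d + 1))) else 0 with hH
    have h1 := last_step d H
    have h2 : ∑ f ∈ FC.L (d + 1), (if j + FC.odds (d + 1) f = κ then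
        sg χ (π (X + 1) ^ j * w ^ t * V π w (d + 1) f) else 0) =
        ∑ f ∈ FC.L (d + 1), H (FC.par (FC.S^[d] f)) (FC.odds d f) (FC.R d f) := by
      refine sum_congr rfl fun f _ => ?_
      simp only [hH, FC.odds, V, FC.R]
    rw [h2, h1, sum_add_distrib]
    have e0 : ∀ f : (ZMod 2)[X], H 0 (FC.odds d f) (FC.R d f) =
        if j + FC.odds d f = κ then sg χ (π (X + 1) ^ j * w ^ (t + 1) * V π w d f) else 0 := by
      intro f
      simp only [hH, add_zero, pow_zero, one_mul, Nat.cast_zero, map_zero, zero_mul, V]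
      split_ifs with hk
      · congr 1
        ring
      · rfl
    have hwX : w ^ d * π X ^ d = 1 := by rw [← mul_pow, h.inv, one_pow]
    have e1 : ∀ f : (ZMod 2)[X], H 1 (FC.odds d f) (FC.R d f) = arr π w χ j (t + 1) *
        if j + 1 + FC.odds d f = κ then sg χ (π (X + 1) ^ (j + 1) * w ^ (t + 1) * V π w d f) else 0 := by
      intro f
      simp only [hH, pow_one, Nat.cast_one, map_one, one_mul, V]
      have e2 : (j + (FC.odds d f + 1) = κ) ↔ (j + 1 + FC.odds d f = κ) := by omega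
      by_cases hk : j + 1 + FC.odds d f = κ
      · rw [if_pos (e2.2 hk), if_pos hk]
        unfold arr
        rw [← sg_add h.two]
        congr 1
        rw [map_add π ((X + 1) * FC.R d f) (X ^ d), map_mul π (X + 1) (FC.R d f), map_pow π X d]
        calc π (X + 1) ^ j * w ^ t * ((π (X + 1) * π (FC.R d f) + π X ^ d) * w ^ (d + 1))
            = π (X + 1) ^ j * w ^ (t + 1) * (w ^ d * π X ^ d) + π (X + 1) ^ (j + 1) * w ^ (t + 1) * (π (FC.R d f) * w ^ d) := by ring
          _ = _ := by rw [hwX, mul_one]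
      · rw [if_neg (fun hh => hk (e2.1 hh)), if_neg hk, mul_zero]
    rw [sum_congr rfl fun f _ => e0 f, sum_congr rfl fun f _ => e1 f, ← mul_sum, ih, ih]
    simp only [g]
    ring

/-- the words of a given length at most `M` and with a given number of odd steps have different values -/
theorem V_inj (h : Red M π w) (d r : ℕ) (hd : d ≤ M) :
    Set.InjOn (V π w d) ((FC.L d).filter (fun f => FC.odds d f = r) : Finset ((ZMod 2)[X])) := by
  intro f hf f' hf' he
  rw [mem_coe, mem_filter] at hf hf'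
  unfold V at he
  have hwX : w ^ d * π X ^ d = 1 := by rw [← mul_pow, h.inv, one_pow]
  have h1 : π (FC.R d f) = π (FC.R d f') := by
    calc π (FC.R d f) = (π (FC.R d f) * w ^ d) * π X ^ d := by rw [mul_assoc, hwX, mul_one]
      _ = (π (FC.R d f') * w ^ d) * π X ^ d := by rw [he]
      _ = π (FC.R d f') := by rw [mul_assoc, hwX, mul_one]
  have hdM : (d : WithBot ℕ) ≤ (M : WithBot ℕ) := by exact_mod_cast hd
  have h2 : FC.R d f = FC.R d f' := by
    apply h.inj _ h1
    refine lt_of_lt_of_le (lt_of_le_of_lt (degree_sub_le _ _) (max_lt (FC.R_degree d f) (FC.R_degree d f'))) hdM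
  have h3 := FC.main_formula d f
  have h4 := FC.main_formula d f'
  rw [hf.2, h2] at h3
  rw [hf'.2] at h4
  have h5 : X ^ d * (FC.S^[d] f - FC.S^[d] f') = (X + 1) ^ r * (f - f') := by
    rw [mul_sub, mul_sub, h3, h4]; ring
  have h6 : X ^ d ∣ (X + 1) ^ r * (f - f') := ⟨_, h5.symm⟩
  have h7 : IsCoprime (X ^ d : (ZMod 2)[X]) ((X + 1) ^ r) := by
    apply IsCoprime.pow
    exact ⟨-1, 1, by ring⟩
  have h8 := h7.dvd_of_dvd_mul_left h6
  by_contra hne
  have h9 : f - f' ≠ 0 := sub_ne_zero.2 hne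
  have h10 := natDegree_le_of_dvd h8 h9
  rw [natDegree_X_pow] at h10
  have h11 : (f - f').degree < (d : WithBot ℕ) :=
    lt_of_le_of_lt (degree_sub_le _ _) (max_lt (FC.mem_L.1 hf.1) (FC.mem_L.1 hf'.1))
  rw [degree_eq_natDegree h9] at h11
  have h12 : (f - f').natDegree < d := by exact_mod_cast h11
  omega

/-- the quotient ring -/
theorem exists_red (M : ℕ) : ∃ (w : (ZMod 2)[X] ⧸ Ideal.span {((X + 1) ^ M : (ZMod 2)[X])}),
    Red M (Ideal.Quotient.mk (Ideal.span {((X + 1) ^ M : (ZMod 2)[X])})) w := by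
  have h1 : IsCoprime (X : (ZMod 2)[X]) ((X + 1) ^ M) := by
    apply IsCoprime.pow_right
    exact ⟨-1, 1, by ring⟩
  obtain ⟨a, b, hab⟩ := h1
  refine ⟨Ideal.Quotient.mk _ a, Ideal.Quotient.mk_surjective, ?_, ?_⟩
  · intro f
    rw [Ideal.Quotient.eq_zero_iff_mem, Ideal.mem_span_singleton]
  · rw [← map_mul, ← map_one (Ideal.Quotient.mk _), Ideal.Quotient.mk_eq_mk_iff_sub_mem, Ideal.mem_span_singleton]
    exact ⟨-b, by linear_combination hab⟩

theorem Red.finite (h : Red M π w) : Finite A := by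
  classical
  have : (Set.univ : Set A) = π '' (FC.L M : Set ((ZMod 2)[X])) := by
    ext v
    simp only [Set.mem_univ, Set.mem_image, mem_coe, true_iff]
    exact h.surj_L v
  rw [← Set.finite_univ_iff, this]
  exact (FC.L M).finite_toSet.image _

end red

end Pool.Agent.H618.PM
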