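import Pool.Agent.H618.PM.Area

/-! # Exceptional sets: upper bound -/

set_option autoImplicit false

namespace Pool.Agent.H618.PM

open Polynomial Finset Pool.Agent.Q74

theorem sum_odds_D (n : ℕ) (F : ℕ → ℝ) : ∑ f ∈ FC.D n, F (FC.odds n f) = 2 ^ n * P n F 0 := by
  classical
  rw [← sum_odds]
  unfold FC.D
  rw [sum_image (fun a _ b _ hab => add_left_cancel hab)]
  refine sum_congr rfl fun h _ => ?_
  have h1 := (shiftX n h 1).1
  rw [mul_one, add_comm] at h1
  rw [h1]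

theorem P_pow (n : ℕ) (l : ℝ) : P n (fun i => l ^ i) 0 = ((1 + l) / 2) ^ n := by
  have key : ∀ a : ℕ, P n (fun i => l ^ i) a = ((1 + l) / 2) ^ n * l ^ a := by
    induction n with
    | zero => intro a; simp [P]
    | succ n ih =>
      intro a
      simp only [P, ih]
      rw [pow_succ, pow_succ]
      ring
  rw [key 0]; simp

open Classical in
/-- polynomials with many odd steps among the first `n` -/
noncomputable def Dv (θ : ℝ) (n : ℕ) : Finset ((ZMod 2)[X]) := (FC.D n).filter (fun f => θ * n < FC.odds n f)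

theorem exists_q (θ : ℝ) (hθ : 1 / 2 < θ) : ∃ q : ℝ, 0 < q ∧ q < 1 ∧ ∀ n : ℕ, ((Dv θ n).card : ℝ) / 2 ^ n ≤ q ^ n := by
  classical
  -- choose l > 1 with (1+l)/2 < l^θ
  obtain ⟨l, hl1, hl2⟩ : ∃ l : ℝ, 1 < l ∧ (1 + l) / 2 < l ^ θ := by
    have hd : HasDerivAt (fun l : ℝ => l ^ θ - (1 + l) / 2) (θ * 1 ^ (θ - 1) - 1 / 2) 1 := by
      have h1 := Real.hasDerivAt_rpow_const (x := (1 : ℝ)) (p := θ) (Or.inl one_ne_zero)
      have h2 : HasDerivAt (fun l : ℝ => (1 + l) / 2) (1 / 2) 1 := by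
        have := ((hasDerivAt_id (1 : ℝ)).const_add 1).div_const 2
        exact this
      exact h1.sub h2
    rw [Real.one_rpow, mul_one] at hd
    have hpos : 0 < θ - 1 / 2 := by linarith
    have h3 := hd.tendsto_slope
    have h4 := h3.eventually (lt_mem_nhds hpos)
    have h5 : ∀ᶠ l in nhdsWithin (1 : ℝ) (Set.Ioi 1), 0 < slope (fun l : ℝ => l ^ θ - (1 + l) / 2) 1 l :=
      h4.filter_mono (nhdsWithin_mono _ (fun x hx => ne_of_gt hx))
    obtain ⟨l, hl, hl'⟩ := (h5.and self_mem_nhdsWithin).exists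
    refine ⟨l, hl', ?_⟩
    rw [slope_def_field] at hl
    have hl'' : 0 < l - 1 := sub_pos.2 hl'
    rw [lt_div_iff₀ hl'', zero_mul, Real.one_rpow] at hl
    norm_num at hl
    linarith
  have hl0 : 0 < l := by linarith
  have hlθ : 0 < l ^ θ := Real.rpow_pos_of_pos hl0 θ
  refine ⟨(1 + l) / 2 / l ^ θ, by positivity, by rw [div_lt_one hlθ]; exact hl2, ?_⟩
  intro n
  have h1 := sum_odds_D n (fun i => l ^ i)
  rw [P_pow] at h1
  have h2 : ∑ f ∈ Dv θ n, l ^ (θ * n) ≤ ∑ f ∈ FC.D n, l ^ (FC.odds n f) := by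
    refine (sum_le_sum (g := fun f => l ^ FC.odds n f) fun f hf => ?_).trans
      (sum_le_sum_of_subset_of_nonneg (filter_subset _ _) fun f _ _ => by positivity)
    unfold Dv at hf
    rw [mem_filter] at hf
    rw [← Real.rpow_natCast]
    exact Real.rpow_le_rpow_of_exponent_le hl1.le hf.2.le
  rw [sum_const, nsmul_eq_mul, h1] at h2
  rw [div_pow, ← Real.rpow_natCast (l ^ θ), ← Real.rpow_mul hl0.le, div_le_div_iff₀ (by positivity) (by positivity)]
  linarith

open Classical in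
/-- exceptional polynomials -/
noncomputable def Bd2 (β M : ℝ) (n : ℕ) : Finset ((ZMod 2)[X]) := (FC.D n).filter (fun f => β * n + M < nu f)

/-- their proportion -/
noncomputable def bb (β M : ℝ) (n : ℕ) : ℝ := ((Bd2 β M n).card : ℝ) / 2 ^ n

theorem bb_nonneg (β M : ℝ) (n : ℕ) : 0 ≤ bb β M n := by unfold bb; positivity

theorem bb_zero {β M : ℝ} {n : ℕ} (hβ : 0 ≤ β) (hM : 0 ≤ M) (h : (n : ℝ) ≤ (M / 3) ^ ((2 : ℝ) / 3)) : bb β M n = 0 := by
  classical
  unfold bb
  have : Bd2 β M n = ∅ := by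
    rw [eq_empty_iff_forall_notMem]
    intro f hf
    unfold Bd2 at hf
    rw [mem_filter, FC.mem_D'] at hf
    have h1 := nu_sq_le hf.1.1
    rw [hf.1.2] at h1
    have h2 : (nu f : ℝ) ^ 2 ≤ 9 * (n : ℝ) ^ 3 := by exact_mod_cast h1
    have h3 : (n : ℝ) ^ 3 ≤ (M / 3) ^ 2 := by
      have h4 : (n : ℝ) ^ 3 ≤ ((M / 3) ^ ((2 : ℝ) / 3)) ^ 3 := pow_le_pow_left₀ (Nat.cast_nonneg n) h 3
      have h5 : ((M / 3) ^ ((2 : ℝ) / 3)) ^ 3 = (M / 3) ^ 2 := by
        rw [← Real.rpow_natCast, ← Real.rpow_mul (by positivity), ← Real.rpow_natCast]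
        norm_num
      rwa [h5] at h4
    have h6 : (nu f : ℝ) ^ 2 ≤ M ^ 2 := by nlinarith
    have h7 : (nu f : ℝ) ≤ M := by
      apply le_of_sq_le_sq _ hM
      exact h6
    have h8 : 0 ≤ β * n := by positivity
    linarith [hf.2]
  rw [this]; simp

theorem bb_rec {β M θ : ℝ} (hβ : 1 < β) (hθ : θ = β / (1 + β)) (n : ℕ) (hn : 1 ≤ n) :
    bb β M n ≤ ((Dv θ n).card : ℝ) / 2 ^ n + ∑ a ∈ (range n).filter (fun a : ℕ => (a : ℝ) ≤ θ * n), bb β M a := by
  classical
  have hθ1 : θ < 1 := by rw [hθ, div_lt_one (by linarith)]; linarith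
  have hn0 : (0 : ℝ) < n := by exact_mod_cast hn
  have hsub : Bd2 β M n ⊆ Dv θ n ∪ ((range n).filter (fun a : ℕ => (a : ℝ) ≤ θ * n)).biUnion
      (fun a => (Bd2 β M a).biUnion (fun g => (FC.D n).filter (fun f => FC.S^[n] f = g))) := by
    intro f hf
    unfold Bd2 at hf
    rw [mem_filter] at hf
    rw [mem_union]
    by_cases h : θ * n < FC.odds n f
    · left
      unfold Dv
      rw [mem_filter]
      exact ⟨hf.1, h⟩
    · right
      rw [not_lt] at h
      have h1 := FC.mem_D'.1 hf.1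
      obtain ⟨h2, h3⟩ := FC.S_iter_ne h1.1 n
      have h4 : (FC.S^[n] f).natDegree = FC.odds n f := by omega
      have h5 := nu_iter h1.1 n (by omega)
      rw [mem_biUnion]
      refine ⟨FC.odds n f, ?_, ?_⟩
      · rw [mem_filter, mem_range]
        refine ⟨?_, h⟩
        have : (FC.odds n f : ℝ) < n := lt_of_le_of_lt h (by nlinarith)
        exact_mod_cast this
      · rw [mem_biUnion]
        refine ⟨FC.S^[n] f, ?_, ?_⟩
        · unfold Bd2
          rw [mem_filter, FC.mem_D']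
          refine ⟨⟨h2, h4⟩, ?_⟩
          have h6 : (nu f : ℝ) = FC.odds n f + nu (FC.S^[n] f) := by exact_mod_cast h5
          have h7 : (FC.odds n f : ℝ) * (1 + β) ≤ β * n := by
            rw [hθ, div_mul_eq_mul_div, le_div_iff₀ (by linarith)] at h
            exact h
          have := hf.2
          nlinarith
        · rw [mem_filter]
          exact ⟨hf.1, rfl⟩
  have hcard : ((Bd2 β M n).card : ℝ) ≤ (Dv θ n).card +
      ∑ a ∈ (range n).filter (fun a : ℕ => (a : ℝ) ≤ θ * n), ((Bd2 β M a).card : ℝ) * 2 ^ (n - a) := by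
    have h1 : (Bd2 β M n).card ≤ (Dv θ n).card +
      ∑ a ∈ (range n).filter (fun a : ℕ => (a : ℝ) ≤ θ * n), (Bd2 β M a).card * 2 ^ (n - a) := by
      refine (card_le_card hsub).trans ((card_union_le _ _).trans (Nat.add_le_add_left ?_ _))
      refine card_biUnion_le.trans (sum_le_sum fun a ha => ?_)
      refine card_biUnion_le.trans ?_
      rw [card_eq_sum_ones, sum_mul]
      refine sum_le_sum fun g hg => ?_
      rw [one_mul]
      unfold Bd2 at hg
      rw [mem_filter, FC.mem_D'] at hg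
      have h := FC.fibre n n g hg.1.1
      rw [hg.1.2] at h
      convert h
    exact_mod_cast h1
  unfold bb
  have h3 : ((Bd2 β M n).card : ℝ) / 2 ^ n ≤ ((Dv θ n).card : ℝ) / 2 ^ n +
      (∑ a ∈ (range n).filter (fun a : ℕ => (a : ℝ) ≤ θ * n), ((Bd2 β M a).card : ℝ) * 2 ^ (n - a)) / 2 ^ n := by
    rw [← add_div]
    exact div_le_div_of_nonneg_right hcard (by positivity)
  refine h3.trans (add_le_add_right ?_ _)
  rw [sum_div]
  refine sum_le_sum fun a ha => ?_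
  rw [mem_filter, mem_range] at ha
  have : (2 : ℝ) ^ n = 2 ^ (n - a) * 2 ^ a := by rw [← pow_add]; congr 1; omega
  rw [this, mul_div_mul_comm]
  have h4 : (2 : ℝ) ^ (n - a) ≠ 0 := by positivity
  field_simp
  exact le_refl _

theorem bb_stage {β M θ q ρ : ℝ} (hβ : 1 < β) (hM : 0 ≤ M) (hθ : θ = β / (1 + β)) (hq0 : 0 < q) (hq1 : q < 1)
    (hq : ∀ n : ℕ, ((Dv θ n).card : ℝ) / 2 ^ n ≤ q ^ n) (hρ : ρ = (M / 3) ^ ((2 : ℝ) / 3)) (d : ℕ) :
    ∀ k a : ℕ, a ≤ d → (a : ℝ) * θ ^ k ≤ ρ → bb β M a ≤ q ^ ρ * ((d : ℝ) + 1) ^ k := by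
  classical
  have hθ0 : 0 < θ := by rw [hθ]; positivity
  have hqρ : 0 < q ^ ρ := Real.rpow_pos_of_pos hq0 ρ
  intro k
  induction k with
  | zero =>
    intro a _ h
    rw [pow_zero, mul_one, hρ] at h
    rw [bb_zero (by linarith) hM h]
    positivity
  | succ k ih =>
    intro a ha h
    rcases le_or_gt (a : ℝ) ρ with h1 | h1
    · rw [hρ] at h1
      rw [bb_zero (by linarith) hM h1]
      positivity
    · have hρ0 : 0 ≤ ρ := by rw [hρ]; positivity
      have ha1 : 1 ≤ a := by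
        have : (0 : ℝ) < a := lt_of_le_of_lt hρ0 h1
        exact_mod_cast this
      refine (bb_rec hβ hθ a ha1).trans ?_
      have h2 : q ^ a ≤ q ^ ρ := by
        rw [← Real.rpow_natCast]
        exact Real.rpow_le_rpow_of_exponent_ge hq0 hq1.le h1.le
      have h3 : ∑ b ∈ (range a).filter (fun b : ℕ => (b : ℝ) ≤ θ * a), bb β M b ≤
          ∑ b ∈ (range a).filter (fun b : ℕ => (b : ℝ) ≤ θ * a), q ^ ρ * ((d : ℝ) + 1) ^ k := by
        refine sum_le_sum fun b hb => ?_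
        rw [mem_filter, mem_range] at hb
        apply ih b (by omega)
        calc (b : ℝ) * θ ^ k ≤ (θ * a) * θ ^ k := mul_le_mul_of_nonneg_right hb.2 (by positivity)
          _ = a * θ ^ (k + 1) := by rw [pow_succ]; ring
          _ ≤ ρ := h
      rw [sum_const, nsmul_eq_mul] at h3
      have h4 : ((((range a).filter (fun b : ℕ => (b : ℝ) ≤ θ * a)).card : ℕ) : ℝ) ≤ d := by
        have : ((range a).filter (fun b : ℕ => (b : ℝ) ≤ θ * a)).card ≤ a := by
          refine (card_filter_le _ _).trans ?_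
          rw [card_range]
        exact_mod_cast this.trans ha
      have hd0 : (0 : ℝ) ≤ d := Nat.cast_nonneg d
      have h5 : (1 : ℝ) ≤ ((d : ℝ) + 1) ^ k := one_le_pow₀ (by linarith)
      calc ((Dv θ a).card : ℝ) / 2 ^ a + ∑ b ∈ (range a).filter (fun b : ℕ => (b : ℝ) ≤ θ * a), bb β M b
          ≤ q ^ ρ + d * (q ^ ρ * ((d : ℝ) + 1) ^ k) := by
            refine add_le_add ((hq a).trans h2) (h3.trans (mul_le_mul_of_nonneg_right h4 (by positivity)))
        _ ≤ q ^ ρ * ((d : ℝ) + 1) ^ k + d * (q ^ ρ * ((d : ℝ) + 1) ^ k) := by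
            have := mul_le_mul_of_nonneg_left h5 hqρ.le
            linarith
        _ = q ^ ρ * ((d : ℝ) + 1) ^ (k + 1) := by rw [pow_succ]; ring

/-- UPPER BOUND for the exceptional sets -/
theorem except_upper (B : ℝ) (hB : 1 < B) : ∃ c : ℝ, 0 < c ∧ ∃ n₀ : ℕ, ∀ n : ℕ, n₀ ≤ n → ∀ lam : ℝ, B ≤ lam →
    ∀ E : Finset ((ZMod 2)[X]), (∀ f ∈ E, f ∈ FC.D n ∧ lam * n ≤ nu f) →
      (E.card : ℝ) ≤ 2 ^ ((n : ℝ) - c * (lam * n) ^ ((2 : ℝ) / 3)) := by
  classical
  set β : ℝ := (1 + B) / 2 with hβ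
  have hβ1 : 1 < β := by rw [hβ]; linarith
  set ε : ℝ := (B - 1) / (4 * B) with hε
  have hε0 : 0 < ε := by rw [hε]; exact div_pos (by linarith) (by linarith)
  have hε1 : ε * B = (B - 1) / 4 := by rw [hε]; field_simp
  set θ : ℝ := β / (1 + β) with hθ
  have hθ0 : 0 < θ := by rw [hθ]; positivity
  have hθ1 : θ < 1 := by rw [hθ, div_lt_one (by linarith)]; linarith
  have hθ2 : 1 / 2 < θ := by rw [hθ, div_lt_div_iff₀ (by norm_num) (by linarith)]; linarith
  obtain ⟨q, hq0, hq1, hq⟩ := exists_q θ hθ2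
  set κ : ℝ := -Real.log q with hκ
  have hκ0 : 0 < κ := by rw [hκ]; have := Real.log_neg hq0 hq1; linarith
  set lθ : ℝ := -Real.log θ with hlθ
  have hlθ0 : 0 < lθ := by rw [hlθ]; have := Real.log_neg hθ0 hθ1; linarith
  -- the constant
  set c₁ : ℝ := (ε / 3) ^ ((2 : ℝ) / 3) with hc₁
  have hc₁0 : 0 < c₁ := Real.rpow_pos_of_pos (by positivity) _
  set c : ℝ := κ * c₁ / 2 / Real.log 2 with hc
  have hl2 : 0 < Real.log 2 := Real.log_pos (by norm_num)
  have hc0 : 0 < c := by rw [hc]; positivity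
  refine ⟨c, hc0, ?_⟩
  -- the logarithm squared is small
  have hlog : (Real.log) =o[Filter.atTop] fun x : ℝ => x ^ ((1 : ℝ) / 3) := isLittleO_log_rpow_atTop (by norm_num)
  set η : ℝ := √(κ * c₁ / 2 / (2 * (1 / lθ + 2) * 2)) with hη
  have hη0 : 0 < η := by rw [hη]; positivity
  have h2 := hlog.def hη0
  have h3 : Filter.Tendsto (fun d : ℕ => (d : ℝ)) Filter.atTop Filter.atTop := tendsto_natCast_atTop_atTop
  have h4 : ∀ᶠ n : ℕ in Filter.atTop, 1 ≤ c₁ * (n : ℝ) ^ ((2 : ℝ) / 3) := by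
    have h5 : Filter.Tendsto (fun n : ℕ => c₁ * (n : ℝ) ^ ((2 : ℝ) / 3)) Filter.atTop Filter.atTop :=
      Filter.Tendsto.const_mul_atTop hc₁0 ((tendsto_rpow_atTop (by norm_num)).comp h3)
    exact h5.eventually_ge_atTop 1
  obtain ⟨n₀, hn₀⟩ := Filter.eventually_atTop.1 (((h3.eventually h2).and h4).and (Filter.eventually_ge_atTop 3))
  refine ⟨n₀, ?_⟩
  intro n hn lam hlam E hE
  obtain ⟨⟨hd, hge⟩, hn3⟩ := hn₀ n hn
  have hn1 : (3 : ℝ) ≤ n := by exact_mod_cast hn3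
  have hn0' : (0 : ℝ) < n := by linarith
  set Z : ℝ := lam * n with hZ
  have hnZ : (n : ℝ) ≤ Z := by
    rw [hZ]
    nlinarith
  have hZ0 : 0 < Z := by linarith
  set M : ℝ := ε * Z with hM
  have hM0 : 0 ≤ M := by positivity
  set ρ : ℝ := (M / 3) ^ ((2 : ℝ) / 3) with hρ
  have hρ1 : ρ = c₁ * Z ^ ((2 : ℝ) / 3) := by
    rw [hρ, hM, hc₁, ← Real.mul_rpow (by positivity) (by positivity)]
    congr 1; ring
  have hpow : (n : ℝ) ^ ((2 : ℝ) / 3) ≤ Z ^ ((2 : ℝ) / 3) := Real.rpow_le_rpow hn0'.le hnZ (by norm_num)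
  set L := Real.log n with hL
  have hL1 : 1 ≤ L := by
    rw [hL, Real.le_log_iff_exp_le hn0']
    have := Real.exp_one_lt_d9
    linarith
  set k : ℕ := ⌈L / lθ⌉₊ with hk
  have hk1 : L / lθ ≤ k := Nat.le_ceil _
  have hk2 : (k : ℝ) < L / lθ + 1 := Nat.ceil_lt_add_one (by positivity)
  have hθk : (n : ℝ) * θ ^ k ≤ ρ := by
    rw [hρ1]
    refine le_trans ?_ (hge.trans (mul_le_mul_of_nonneg_left hpow hc₁0.le))
    rw [← Real.log_nonpos_iff (by positivity), Real.log_mul (by positivity) (by positivity), Real.log_pow]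
    rw [div_le_iff₀ hlθ0] at hk1
    have : (k : ℝ) * Real.log θ = -(k * lθ) := by rw [hlθ]; ring
    rw [this]
    linarith
  have hmain := bb_stage hβ1 hM0 hθ hq0 hq1 hq hρ n k n le_rfl hθk
  -- E is contained in the exceptional set
  have hsub : E ⊆ Bd2 β M n := by
    intro f hf
    obtain ⟨h5, h6⟩ := hE f hf
    unfold Bd2
    rw [mem_filter]
    refine ⟨h5, lt_of_lt_of_le ?_ h6⟩
    have h7 : β * n + ε * Z = (β + ε * lam) * n := by rw [hZ]; ring
    rw [hM, h7, hZ]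
    apply mul_lt_mul_of_pos_right _ hn0'
    have h8 : ε ≤ 1 / 4 := by
      rw [hε, div_le_div_iff₀ (by linarith) (by norm_num)]
      linarith
    have h9 : ε * lam = ε * B + ε * (lam - B) := by ring
    have h10 : ε * (lam - B) ≤ 1 / 4 * (lam - B) := mul_le_mul_of_nonneg_right h8 (by linarith)
    rw [h9, hε1, hβ]
    linarith
  have hcard : (E.card : ℝ) ≤ 2 ^ n * bb β M n := by
    unfold bb
    rw [mul_div_cancel₀ _ (by positivity)]
    exact_mod_cast card_le_card hsub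
  refine hcard.trans ((mul_le_mul_of_nonneg_left hmain (by positivity)).trans ?_)
  -- logarithms
  rw [Real.rpow_sub (by norm_num), Real.rpow_natCast, div_eq_mul_inv]
  apply mul_le_mul_of_nonneg_left _ (by positivity)
  rw [← Real.log_le_log_iff (by positivity) (by positivity), Real.log_mul (by positivity) (by positivity), Real.log_rpow hq0,
    Real.log_pow, Real.log_inv, Real.log_rpow (by norm_num)]
  have h5 : Real.log ((n : ℝ) + 1) ≤ 2 * L := by
    have : (n : ℝ) + 1 ≤ (n : ℝ) ^ 2 := by nlinarith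
    calc Real.log ((n : ℝ) + 1) ≤ Real.log ((n : ℝ) ^ 2) := Real.log_le_log (by positivity) this
      _ = 2 * L := by rw [Real.log_pow, ← hL]; norm_num
  have h6 : (k : ℝ) ≤ (1 / lθ + 1) * L := by
    have : L / lθ + 1 ≤ (1 / lθ + 1) * L := by
      rw [add_mul, one_mul, div_mul_eq_mul_div, one_mul]
      linarith
    linarith
  have h7 : (k : ℝ) * Real.log ((n : ℝ) + 1) ≤ 2 * (1 / lθ + 1) * L ^ 2 := by
    calc (k : ℝ) * Real.log ((n : ℝ) + 1) ≤ ((1 / lθ + 1) * L) * (2 * L) :=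
          mul_le_mul h6 h5 (Real.log_nonneg (by linarith)) (by positivity)
      _ = _ := by ring
  rw [Real.norm_of_nonneg (by linarith), Real.norm_of_nonneg (by positivity)] at hd
  have h8 : L ^ 2 ≤ η ^ 2 * Z ^ ((2 : ℝ) / 3) := by
    have h9 : L ^ 2 ≤ (η * (n : ℝ) ^ ((1 : ℝ) / 3)) ^ 2 := pow_le_pow_left₀ (by linarith) hd 2
    rw [mul_pow, ← Real.rpow_natCast ((n : ℝ) ^ ((1 : ℝ) / 3)), ← Real.rpow_mul hn0'.le] at h9
    norm_num at h9
    refine h9.trans (mul_le_mul_of_nonneg_left ?_ (by positivity))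
    norm_num at hpow ⊢
    exact hpow
  have h9 : η ^ 2 = κ * c₁ / 2 / (2 * (1 / lθ + 2) * 2) := by rw [hη, Real.sq_sqrt (by positivity)]
  set Y := Z ^ ((2 : ℝ) / 3) with hY
  have hY0 : 0 < Y := Real.rpow_pos_of_pos hZ0 _
  have h10 : 2 * (1 / lθ + 1) * L ^ 2 ≤ κ * c₁ / 2 * Y := by
    have h11 : 2 * (1 / lθ + 1) * L ^ 2 ≤ 2 * (1 / lθ + 2) * (η ^ 2 * Y) := by
      apply mul_le_mul _ h8 (by positivity) (by positivity)
      linarith
    refine h11.trans ?_
    rw [h9]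
    have h12 : (1 / lθ + 2) ≠ 0 := by positivity
    have h13 : 2 * (1 / lθ + 2) * (κ * c₁ / 2 / (2 * (1 / lθ + 2) * 2) * Y) = κ * c₁ / 4 * Y := by
      field_simp
      ring
    rw [h13]
    have : 0 < κ * c₁ * Y := by positivity
    linarith
  have h14 : ρ * Real.log q = -(κ * c₁ * Y) := by rw [hρ1, hκ]; ring
  have h15 : -(c * Y * Real.log 2) = -(κ * c₁ / 2 * Y) := by
    rw [hc]; field_simp
  rw [h14, h15]
  linarith

end Pool.Agent.H618.PM
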