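import Pool.Agent.H618.PM.Mean

/-! # Heights of odd polynomials -/

set_option autoImplicit false

namespace Pool.Agent.H618.PM

open Polynomial Finset Pool.Agent.Q74

/-- the map on odd polynomials: `((x+1) f + 1) / x^e`, `x^e` the largest power of `x` dividing `(x+1) f + 1` -/
noncomputable def Cm (f : (ZMod 2)[X]) : (ZMod 2)[X] :=
  ((X + 1) * f + 1) /ₘ X ^ ((X + 1) * f + 1).natTrailingDegree

/-- the height -/
noncomputable def ht (f : (ZMod 2)[X]) : ℕ := sInf {k : ℕ | 1 ≤ k ∧ Cm^[k] f = 1}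

theorem next_ne_zero (f : (ZMod 2)[X]) : (X + 1) * f + 1 ≠ 0 := by
  intro h
  have h3 := congrArg (eval 1) h
  simp only [eval_add, eval_mul, eval_X, eval_one, eval_zero] at h3
  have : (1 + 1 : ZMod 2) = 0 := by decide
  rw [this, zero_mul, zero_add] at h3
  exact one_ne_zero h3

theorem Cm_spec (f : (ZMod 2)[X]) :
    X ^ ((X + 1) * f + 1).natTrailingDegree * Cm f = (X + 1) * f + 1 ∧ (Cm f).coeff 0 = 1 := by
  set p := (X + 1) * f + 1 with hp
  have hp0 : p ≠ 0 := next_ne_zero f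
  have h1 : X ^ p.natTrailingDegree ∣ p := by
    rw [X_pow_dvd_iff]
    intro d hd
    exact coeff_eq_zero_of_lt_natTrailingDegree hd
  obtain ⟨c, hc⟩ := h1
  have h2 : Cm f = c := by
    unfold Cm
    rw [← hp]
    conv_lhs => rw [hc]
    have h3 := mul_divByMonic_cancel_left c (monic_X_pow (R := ZMod 2) p.natTrailingDegree)
    rw [← hc] at h3 ⊢
    exact h3
  rw [h2]
  refine ⟨hc.symm, ?_⟩
  have h3 : p.coeff p.natTrailingDegree ≠ 0 := by
    have := trailingCoeff_nonzero_iff_nonzero.2 hp0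
    exact this
  have h4 : p.coeff p.natTrailingDegree = c.coeff 0 := by
    conv_lhs => rw [hc]
    have := coeff_X_pow_mul c (p.natTrailingDegree) 0
    rw [zero_add] at this
    rw [← hc] at this ⊢
    exact this
  rw [h4] at h3
  rcases FC.zmod2 (c.coeff 0) with h5 | h5
  · exact absurd h5 h3
  · exact h5

theorem par_one_iff (f : (ZMod 2)[X]) : FC.par f = 1 ↔ f.coeff 0 = 1 := by
  rcases FC.par_cases f with ⟨h1, h2⟩ | ⟨h1, h2⟩
  · rw [h1, h2]; simp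
  · rw [h1, h2]; simp

theorem nu_X_pow_mul (g : (ZMod 2)[X]) (hg : g ≠ 0) (e : ℕ) : nu (X ^ e * g) = nu g := by
  induction e with
  | zero => simp
  | succ e ih =>
    have h1 : X ^ (e + 1) * g = X * (X ^ e * g) := by ring
    have h2 : X ^ e * g ≠ 0 := mul_ne_zero (pow_ne_zero _ X_ne_zero) hg
    rw [h1, nu_even (mul_ne_zero X_ne_zero h2) (S_X_mul _).1, (S_X_mul _).2, ih]

theorem nu_Cm {f : (ZMod 2)[X]} (h : f.coeff 0 = 1) (h1 : f ≠ 1) : nu f = nu (Cm f) + 1 := by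
  obtain ⟨h2, h3⟩ := Cm_spec f
  have hp := (par_one_iff f).2 h
  have hC : Cm f ≠ 0 := by intro h4; rw [h4] at h3; simp at h3
  have h4 := FC.X_mul_S f
  rw [hp, pow_one, Nat.cast_one, map_one, ← h2] at h4
  set e := ((X + 1) * f + 1).natTrailingDegree with he
  have he0 : e ≠ 0 := by
    intro h5
    rw [h5, pow_zero, one_mul] at h4
    rw [← h4] at h3
    simp at h3
  obtain ⟨e', he'⟩ : ∃ e', e = e' + 1 := ⟨e - 1, by omega⟩
  have h5 : FC.S f = X ^ e' * Cm f := by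
    apply mul_left_cancel₀ (X_ne_zero (R := ZMod 2))
    rw [h4, he']
    ring
  rw [nu_odd h1 hp, h5, nu_X_pow_mul _ hC]

theorem Cm_one : Cm 1 = 1 := by
  obtain ⟨h2, h3⟩ := Cm_spec 1
  have h4 : ((X + 1) * 1 + 1 : (ZMod 2)[X]) = X := by
    rw [mul_one, add_assoc, CharTwo.add_self_eq_zero, add_zero]
  rw [h4, natTrailingDegree_X, pow_one] at h2
  exact mul_left_cancel₀ X_ne_zero (h2.trans (mul_one X).symm)

theorem nu_pos {f : (ZMod 2)[X]} (h : f.coeff 0 = 1) (h1 : f ≠ 1) : 1 ≤ nu f := by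
  rw [nu_Cm h h1]; omega

theorem Cm_iter {f : (ZMod 2)[X]} (h : f.coeff 0 = 1) (k : ℕ) :
    (Cm^[k] f).coeff 0 = 1 ∧ nu (Cm^[k] f) = nu f - k := by
  induction k with
  | zero => exact ⟨h, by simp⟩
  | succ k ih =>
    rw [Function.iterate_succ_apply']
    refine ⟨(Cm_spec _).2, ?_⟩
    by_cases h1 : Cm^[k] f = 1
    · rw [h1, Cm_one, nu_one]
      have h2 := ih.2
      rw [h1, nu_one] at h2
      omega
    · have h2 := nu_Cm ih.1 h1
      have h3 := ih.2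
      omega

theorem Cm_iter_one {f : (ZMod 2)[X]} (h : f.coeff 0 = 1) (k : ℕ) : Cm^[k] f = 1 ↔ nu f ≤ k := by
  obtain ⟨h1, h2⟩ := Cm_iter h k
  constructor
  · intro h3
    rw [h3, nu_one] at h2
    omega
  · intro h3
    by_contra h4
    have := nu_pos h1 h4
    omega

theorem ht_eq {f : (ZMod 2)[X]} (h : f.coeff 0 = 1) (h1 : f ≠ 1) : ht f = nu f := by
  unfold ht
  have h2 : {k : ℕ | 1 ≤ k ∧ Cm^[k] f = 1} = {k : ℕ | nu f ≤ k} := by
    ext k
    simp only [Set.mem_ofPred_eq]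
    rw [Cm_iter_one h]
    have := nu_pos h h1
    omega
  rw [h2]
  apply le_antisymm
  · exact Nat.sInf_le (s := {k : ℕ | nu f ≤ k}) (le_refl (nu f))
  · exact Nat.sInf_mem (s := {k : ℕ | nu f ≤ k}) ⟨nu f, le_refl (nu f)⟩

theorem ht_one : ht 1 = 1 := by
  unfold ht
  have h2 : {k : ℕ | 1 ≤ k ∧ Cm^[k] (1 : (ZMod 2)[X]) = 1} = {k : ℕ | 1 ≤ k} := by
    ext k
    simp only [Set.mem_ofPred_eq, and_iff_left_iff_imp]
    intro _
    rw [Cm_iter_one (by simp), nu_one]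
    omega
  rw [h2]
  apply le_antisymm
  · exact Nat.sInf_le (s := {k : ℕ | 1 ≤ k}) (le_refl 1)
  · exact Nat.sInf_mem (s := {k : ℕ | 1 ≤ k}) ⟨1, le_refl 1⟩

theorem ht_finite {f : (ZMod 2)[X]} (h : f.coeff 0 = 1) : ∃ k : ℕ, 1 ≤ k ∧ Cm^[k] f = 1 := by
  refine ⟨nu f + 1, by omega, ?_⟩
  rw [Cm_iter_one h]
  omega

/-- mean height of the odd polynomials of degree `n` -/
noncomputable def mh (n : ℕ) : ℝ := (∑ f ∈ Od n, (ht f : ℝ)) / 2 ^ (n - 1)

theorem mh_eq (n : ℕ) : mh (n + 1) = 2 * mn (n + 1) - mn n := by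
  have h1 := even_odd_split n (fun f => (nu f : ℝ))
  have h2 : ∑ f ∈ FC.D n, (nu (X * f) : ℝ) = ∑ f ∈ FC.D n, (nu f : ℝ) := by
    refine sum_congr rfl fun f hf => ?_
    rw [FC.mem_D'] at hf
    rw [nu_even (mul_ne_zero X_ne_zero hf.1) (S_X_mul f).1, (S_X_mul f).2]
  have h3 : ∑ f ∈ Od (n + 1), (nu f : ℝ) = ∑ f ∈ Od (n + 1), (ht f : ℝ) := by
    refine sum_congr rfl fun f hf => ?_
    rw [mem_Od, FC.mem_D'] at hf
    rw [ht_eq ((par_one_iff f).1 hf.2)]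
    rintro rfl
    rw [natDegree_one] at hf
    omega
  rw [h2, h3] at h1
  unfold mh mn av
  rw [h1, Nat.add_sub_cancel, pow_succ]
  have h4 : (2 : ℝ) ^ n ≠ 0 := by positivity
  field_simp
  ring

/-- mean height of the odd polynomials of degree at most `n` -/
noncomputable def mc (n : ℕ) : ℝ := (∑ j ∈ range (n + 1), ∑ f ∈ Od j, (ht f : ℝ)) / 2 ^ n

theorem mc_succ (n : ℕ) : mc (n + 1) = mc n / 2 + mh (n + 1) / 2 := by
  unfold mc mh
  rw [sum_range_succ, Nat.add_sub_cancel, pow_succ]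
  have h4 : (2 : ℝ) ^ n ≠ 0 := by positivity
  field_simp

/-- averaging lemma -/
theorem half_rate (u v : ℕ → ℝ) (hu : ∀ n, u (n + 1) = u n / 2 + v (n + 1) / 2) (a : ℕ) (K : ℝ) (hK : 0 < K)
    (hv : ∀ n : ℕ, 1 ≤ n → |v n| ≤ K / (n : ℝ) ^ a) : ∃ K' : ℝ, 0 < K' ∧ ∀ n : ℕ, 1 ≤ n → |u n| ≤ K' / (n : ℝ) ^ a := by
  have h1 : Filter.Tendsto (fun l : ℕ => (1 + (1 : ℝ) / (l : ℝ)) ^ a) Filter.atTop (nhds ((1 + 0) ^ a)) := by
    apply Filter.Tendsto.pow
    apply Filter.Tendsto.const_add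
    exact tendsto_const_div_atTop_nhds_zero_nat (1 : ℝ)
  rw [add_zero, one_pow] at h1
  have h2 := (h1.eventually (gt_mem_nhds (show (1 : ℝ) < 3 / 2 by norm_num)))
  obtain ⟨N, hN⟩ := Filter.eventually_atTop.1 h2
  set M := N + 1 with hM
  -- bound up to M
  set K₁ : ℝ := (∑ j ∈ range (M + 1), |u j|) * (M : ℝ) ^ a with hK₁
  have hK₁0 : 0 ≤ K₁ := mul_nonneg (sum_nonneg fun j _ => abs_nonneg _) (by positivity)
  refine ⟨K₁ + 2 * K, by positivity, ?_⟩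
  have hsmall : ∀ n : ℕ, 1 ≤ n → n ≤ M → |u n| ≤ (K₁ + 2 * K) / (n : ℝ) ^ a := by
    intro n hn hnM
    have hn0 : (0 : ℝ) < n := by exact_mod_cast hn
    rw [le_div_iff₀ (by positivity)]
    have h3 : |u n| ≤ ∑ j ∈ range (M + 1), |u j| :=
      single_le_sum (f := fun j => |u j|) (fun j _ => abs_nonneg _) (by rw [mem_range]; omega)
    have h4 : (n : ℝ) ^ a ≤ (M : ℝ) ^ a := pow_le_pow_left₀ hn0.le (by exact_mod_cast hnM) a
    calc |u n| * (n : ℝ) ^ a ≤ (∑ j ∈ range (M + 1), |u j|) * (M : ℝ) ^ a :=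
          mul_le_mul h3 h4 (by positivity) (sum_nonneg fun j _ => abs_nonneg _)
      _ ≤ _ := by linarith
  intro n hn
  rcases le_total n M with h | h
  · exact hsmall n hn h
  · induction n, h using Nat.le_induction with
    | base => exact hsmall M hn le_rfl
    | succ n hnM ih =>
      have hn1 : 1 ≤ n := by omega
      have ih' := ih hn1
      have hn0 : (0 : ℝ) < n := by exact_mod_cast hn1
      have h3 := hv (n + 1) (by omega)
      have h4 := (hN n (by omega)).le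
      have h5 : 1 / (n : ℝ) ^ a ≤ 3 / 2 * (1 / ((n + 1 : ℕ) : ℝ) ^ a) := by
        rw [mul_one_div, div_le_div_iff₀ (by positivity) (by positivity), one_mul]
        have h6 : ((n + 1 : ℕ) : ℝ) ^ a = (1 + 1 / (n : ℝ)) ^ a * (n : ℝ) ^ a := by
          rw [← mul_pow]
          congr 1
          push_cast
          field_simp
        rw [h6]
        exact mul_le_mul_of_nonneg_right h4 (by positivity)
      rw [hu]
      have h6 : |u n / 2 + v (n + 1) / 2| ≤ |u n| / 2 + |v (n + 1)| / 2 := by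
        refine (abs_add_le _ _).trans ?_
        rw [abs_div, abs_div, abs_of_pos (show (0 : ℝ) < 2 by norm_num)]
      refine h6.trans ?_
      set y : ℝ := 1 / ((n + 1 : ℕ) : ℝ) ^ a with hy
      have hy0 : 0 < y := by positivity
      have e1 : (K₁ + 2 * K) / (n : ℝ) ^ a = (K₁ + 2 * K) * (1 / (n : ℝ) ^ a) := by ring
      have e2 : K / ((n + 1 : ℕ) : ℝ) ^ a = K * y := by rw [hy]; ring
      have e3 : (K₁ + 2 * K) / ((n + 1 : ℕ) : ℝ) ^ a = (K₁ + 2 * K) * y := by rw [hy]; ring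
      rw [e1] at ih'
      rw [e2] at h3
      rw [e3]
      have h7 := mul_le_mul_of_nonneg_left h5 (show 0 ≤ K₁ + 2 * K by positivity)
      nlinarith [mul_nonneg hK₁0 hy0.le, mul_pos hK hy0]

/-- total stopping time -/
noncomputable def mt (n : ℕ) : ℝ := (∑ f ∈ FC.D n, (FC.tm f : ℝ)) / 2 ^ n

theorem mt_eq (n : ℕ) : mt n = n + 2 * mn n := by
  unfold mt mn av
  have h1 : ∑ f ∈ FC.D n, (FC.tm f : ℝ) = ∑ f ∈ FC.D n, ((n : ℝ) + 2 * (nu f : ℝ)) := by
    refine sum_congr rfl fun f hf => ?_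
    rw [FC.mem_D'] at hf
    rw [tm_nu hf.1, hf.2]
    push_cast
    ring
  rw [h1, sum_add_distrib, sum_const, FC.card_D, nsmul_eq_mul, ← mul_sum]
  have h4 : (2 : ℝ) ^ n ≠ 0 := by positivity
  push_cast
  field_simp

/-- ALL THE MEANS -/
theorem means : ∃ c : ℝ, ∀ a : ℕ, ∃ K : ℝ, 0 < K ∧ ∀ n : ℕ, 1 ≤ n →
    |mt n - (3 * n - 2 * c)| ≤ K / (n : ℝ) ^ a ∧ |mh n - (n + 1 - c)| ≤ K / (n : ℝ) ^ a ∧
    |mc n - (n - c)| ≤ K / (n : ℝ) ^ a := by
  obtain ⟨c, hc⟩ := mean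
  refine ⟨c, fun a => ?_⟩
  obtain ⟨K, hK, h⟩ := hc a
  have hmh : ∃ K₁ : ℝ, 0 < K₁ ∧ ∀ n : ℕ, 1 ≤ n → |mh n - (n + 1 - c)| ≤ K₁ / (n : ℝ) ^ a := by
    set K₀ : ℝ := |mh 1 - (1 + 1 - c)| with hK₀
    have hK₀0 : 0 ≤ K₀ := abs_nonneg _
    refine ⟨K₀ + (2 * K + K * 2 ^ a), by positivity, ?_⟩
    intro n hn
    obtain ⟨m, rfl⟩ : ∃ m, n = m + 1 := ⟨n - 1, by omega⟩
    rcases Nat.eq_zero_or_pos m with rfl | hm
    · norm_num
      have h1 : |mh 1 - (1 + 1 - c)| = K₀ := rfl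
      norm_num at h1
      rw [h1]
      have : 0 ≤ 2 * K + K * 2 ^ a := by positivity
      linarith
    · have h1 := h (m + 1) (by omega)
      have h2 := h m hm
      rw [mh_eq]
      have hm0 : (0 : ℝ) < m := by exact_mod_cast hm
      have e : 2 * mn (m + 1) - mn m - (((m + 1 : ℕ) : ℝ) + 1 - c) =
          2 * (mn (m + 1) - (((m + 1 : ℕ) : ℝ) - c)) - (mn m - (m - c)) := by push_cast; ring
      rw [e]
      have h3 : |2 * (mn (m + 1) - (((m + 1 : ℕ) : ℝ) - c)) - (mn m - (m - c))| ≤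
          2 * |mn (m + 1) - (((m + 1 : ℕ) : ℝ) - c)| + |mn m - (m - c)| := by
        refine (abs_sub _ _).trans ?_
        rw [abs_mul, abs_of_pos (show (0 : ℝ) < 2 by norm_num)]
      refine h3.trans ?_
      have h4 : K / (m : ℝ) ^ a ≤ K * 2 ^ a / ((m + 1 : ℕ) : ℝ) ^ a := by
        rw [div_le_div_iff₀ (by positivity) (by positivity), mul_assoc, ← mul_pow]
        apply mul_le_mul_of_nonneg_left _ hK.le
        apply pow_le_pow_left₀ (by positivity)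
        push_cast
        have : (1 : ℝ) ≤ m := by exact_mod_cast hm
        linarith
      have e2 : (K₀ + (2 * K + K * 2 ^ a)) / ((m + 1 : ℕ) : ℝ) ^ a =
          K₀ / ((m + 1 : ℕ) : ℝ) ^ a + 2 * (K / ((m + 1 : ℕ) : ℝ) ^ a) + K * 2 ^ a / ((m + 1 : ℕ) : ℝ) ^ a := by ring
      rw [e2]
      have h5 : 0 ≤ K₀ / ((m + 1 : ℕ) : ℝ) ^ a := by positivity
      linarith
  obtain ⟨K₁, hK₁, h1⟩ := hmh
  obtain ⟨K₂, hK₂, h2⟩ := half_rate (fun n => mc n - (n - c)) (fun n => mh n - (n + 1 - c)) (by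
    intro n
    rw [mc_succ]
    push_cast
    ring) a K₁ hK₁ h1
  refine ⟨2 * K + K₁ + K₂, by positivity, fun n hn => ?_⟩
  have hn0 : (0 : ℝ) < n := by exact_mod_cast hn
  have hy : (0 : ℝ) < 1 / (n : ℝ) ^ a := by positivity
  have e : ∀ x : ℝ, x / (n : ℝ) ^ a = x * (1 / (n : ℝ) ^ a) := fun x => by ring
  refine ⟨?_, ?_, ?_⟩
  · rw [mt_eq]
    have h3 := h n hn
    have e1 : (n : ℝ) + 2 * mn n - (3 * n - 2 * c) = 2 * (mn n - (n - c)) := by ring
    rw [e1, abs_mul, abs_of_pos (show (0 : ℝ) < 2 by norm_num)]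
    rw [e] at h3 ⊢
    nlinarith [mul_pos hK₁ hy, mul_pos hK₂ hy]
  · have h3 := h1 n hn
    rw [e] at h3 ⊢
    nlinarith [mul_pos hK hy, mul_pos hK₂ hy]
  · have h3 := h2 n hn
    rw [e] at h3 ⊢
    nlinarith [mul_pos hK hy, mul_pos hK₁ hy]

end Pool.Agent.H618.PM
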