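import Pool.Agent.H618.PM.Mean

/-! # The law of the number of odd steps in total variation -/

set_option autoImplicit false

namespace Pool.Agent.H618.PM

open Polynomial Finset Pool.Agent.Q74

/-- bounded functions -/
def Bd (F : ℕ → ℝ) (B : ℝ) : Prop := ∀ a, |F a| ≤ B

/-- geometric average -/
noncomputable def Ga (F : ℕ → ℝ) (a : ℕ) : ℝ := ∑' i : ℕ, (1 / 2 : ℝ) ^ i / 2 * F (a + i)

theorem geo_hasSum : HasSum (fun i : ℕ => (1 / 2 : ℝ) ^ i / 2) 1 := by
  have h := (hasSum_geometric_of_lt_one (r := (1 / 2 : ℝ)) (by norm_num) (by norm_num)).div_const 2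
  norm_num at h
  exact h

theorem Ga_summable {F : ℕ → ℝ} {B : ℝ} (h : Bd F B) (a : ℕ) : Summable (fun i : ℕ => (1 / 2 : ℝ) ^ i / 2 * F (a + i)) := by
  apply Summable.of_norm_bounded (g := fun i : ℕ => (1 / 2 : ℝ) ^ i / 2 * B)
  · exact geo_hasSum.summable.mul_right B
  · intro i
    rw [Real.norm_eq_abs, abs_mul, abs_of_nonneg (by positivity)]
    exact mul_le_mul_of_nonneg_left (h _) (by positivity)

theorem Ga_const (c : ℝ) (a : ℕ) : Ga (fun _ => c) a = c := by
  unfold Ga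
  have h := geo_hasSum.mul_right c
  rw [one_mul] at h
  exact h.tsum_eq

theorem Ga_mono {F G : ℕ → ℝ} {B B' : ℝ} (hF : Bd F B) (hG : Bd G B') (h : ∀ a, F a ≤ G a) (a : ℕ) : Ga F a ≤ Ga G a := by
  unfold Ga
  exact (Ga_summable hF a).tsum_le_tsum (fun i => mul_le_mul_of_nonneg_left (h _) (by positivity)) (Ga_summable hG a)

theorem Ga_add {F G : ℕ → ℝ} {B B' : ℝ} (hF : Bd F B) (hG : Bd G B') (a : ℕ) :
    Ga (fun i => F i + G i) a = Ga F a + Ga G a := by
  unfold Ga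
  rw [← (Ga_summable hF a).tsum_add (Ga_summable hG a)]
  congr 1
  funext i
  ring

theorem Ga_smul {F : ℕ → ℝ} (c : ℝ) (a : ℕ) : Ga (fun i => c * F i) a = c * Ga F a := by
  unfold Ga
  rw [← tsum_mul_left]
  congr 1
  funext i
  ring

theorem Ga_bd {F : ℕ → ℝ} {B : ℝ} (hF : Bd F B) : Bd (Ga F) B := by
  intro a
  have hB : Bd (fun _ => B) |B| := fun _ => le_rfl
  have hB' : Bd (fun _ => -B) |B| := fun _ => by rw [abs_neg]
  rw [abs_le]
  constructor
  · have := Ga_mono hB' hF (fun i => (abs_le.1 (hF i)).1) a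
    rwa [Ga_const] at this
  · have := Ga_mono hF hB (fun i => (abs_le.1 (hF i)).2) a
    rwa [Ga_const] at this

theorem Ga_shift (F : ℕ → ℝ) (a : ℕ) : Ga (fun i => F (i + 1)) a = Ga F (a + 1) := by
  unfold Ga
  congr 1
  funext i
  have : a + i + 1 = a + 1 + i := by ring
  simp only [this]

theorem Ga_rec {F : ℕ → ℝ} {B : ℝ} (hF : Bd F B) (a : ℕ) : Ga F a = F a / 2 + Ga F (a + 1) / 2 := by
  have h1 := (Ga_summable hF a).tsum_eq_zero_add
  unfold Ga
  rw [h1]
  simp only [pow_zero, add_zero]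
  have h2 : (fun i : ℕ => (1 / 2 : ℝ) ^ (i + 1) / 2 * F (a + (i + 1))) =
      fun i : ℕ => (1 / 2 : ℝ) * ((1 / 2 : ℝ) ^ i / 2 * F (a + 1 + i)) := by
    funext i
    have : a + (i + 1) = a + 1 + i := by ring
    rw [this, pow_succ]
    ring
  rw [h2, tsum_mul_left]
  ring

theorem Ga_jensen {F : ℕ → ℝ} {B : ℝ} (hF : Bd F B) (a : ℕ) : Ga F a ^ 2 ≤ Ga (fun i => F i ^ 2) a := by
  have hB0 : 0 ≤ B := (abs_nonneg _).trans (hF 0)
  set c := Ga F a with hc
  have hsq : Bd (fun i => F i ^ 2) (B ^ 2) := by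
    intro i
    rw [abs_pow]
    exact pow_le_pow_left₀ (abs_nonneg _) (hF i) 2
  have h1 : Bd (fun i => (-2 * c) * F i) (|(-2 * c)| * B) := by
    intro i
    rw [abs_mul]
    exact mul_le_mul_of_nonneg_left (hF i) (abs_nonneg _)
  have hc2 : Bd (fun _ => c ^ 2) |c ^ 2| := fun _ => le_rfl
  have h2 : Bd (fun i => F i ^ 2 + (-2 * c) * F i) (B ^ 2 + |(-2 * c)| * B) := by
    intro i
    exact (abs_add_le _ _).trans (add_le_add (hsq i) (h1 i))
  have h3 : Bd (fun i => F i ^ 2 + (-2 * c) * F i + c ^ 2) (B ^ 2 + |(-2 * c)| * B + |c ^ 2|) := by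
    intro i
    exact (abs_add_le _ _).trans (add_le_add (h2 i) (hc2 i))
  have h0 : Bd (fun _ => (0 : ℝ)) 0 := fun _ => by simp
  have h4 := Ga_mono h0 h3 (fun i => by
    have : F i ^ 2 + -2 * c * F i + c ^ 2 = (F i - c) ^ 2 := by ring
    rw [this]; exact sq_nonneg _) a
  rw [Ga_const, Ga_add h2 hc2, Ga_add hsq h1, Ga_smul, Ga_const, ← hc] at h4
  nlinarith

/-- iterated averages -/
noncomputable def GaN (k : ℕ) (F : ℕ → ℝ) : ℕ → ℝ := Ga^[k] F

theorem GaN_bd {F : ℕ → ℝ} {B : ℝ} (hF : Bd F B) (k : ℕ) : Bd (GaN k F) B := by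
  induction k with
  | zero => exact hF
  | succ k ih =>
    unfold GaN
    rw [Function.iterate_succ_apply']
    exact Ga_bd ih

theorem GaN_succ (k : ℕ) (F : ℕ → ℝ) : GaN (k + 1) F = Ga (GaN k F) := by
  unfold GaN
  rw [Function.iterate_succ_apply']

/-- BESSEL -/
theorem GaN_var {F : ℕ → ℝ} (hF : Bd F 1) (k : ℕ) : ∀ a : ℕ,
    GaN k F a ^ 2 + k * (GaN k F a - GaN k F (a + 1)) ^ 2 ≤ 1 := by
  induction k with
  | zero =>
    intro a
    have h := hF a
    simp only [GaN, Function.iterate_zero, id_eq, Nat.cast_zero, zero_mul, add_zero]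
    rw [sq_le_one_iff_abs_le_one]
    exact h
  | succ k ih =>
    intro a
    set H := GaN k F with hH
    have hHb : Bd H 1 := GaN_bd hF k
    rw [GaN_succ, ← hH]
    -- D H
    have hD : Bd (fun i => H i + (-1) * H (i + 1)) 2 := by
      intro i
      have h1 := abs_le.1 (hHb i)
      have h2 := abs_le.1 (hHb (i + 1))
      rw [abs_le]
      constructor <;> linarith [h1.1, h1.2, h2.1, h2.2]
    have hHs : Bd (fun i => H (i + 1)) 1 := fun i => hHb (i + 1)
    have hHs' : Bd (fun i => (-1) * H (i + 1)) 1 := fun i => by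
      rw [abs_mul]; simpa using hHb (i + 1)
    have hDG : Ga (fun i => H i + (-1) * H (i + 1)) a = Ga H a - Ga H (a + 1) := by
      rw [Ga_add hHb hHs', Ga_smul, Ga_shift]
      ring
    have hj := Ga_jensen hD a
    rw [hDG] at hj
    have hsq : Bd (fun i => H i ^ 2) 1 := by
      intro i
      rw [abs_pow]
      have := pow_le_pow_left₀ (abs_nonneg _) (hHb i) 2
      simpa using this
    have hDsq : Bd (fun i => (k : ℝ) * (H i + (-1) * H (i + 1)) ^ 2) ((k : ℝ) * 2 ^ 2) := by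
      intro i
      rw [abs_mul, abs_of_nonneg (Nat.cast_nonneg k : (0 : ℝ) ≤ k), abs_pow]
      apply mul_le_mul_of_nonneg_left _ (Nat.cast_nonneg k)
      exact pow_le_pow_left₀ (abs_nonneg _) (hD i) 2
    have hsum : Bd (fun i => H i ^ 2 + (k : ℝ) * (H i + (-1) * H (i + 1)) ^ 2) (1 + (k : ℝ) * 2 ^ 2) := by
      intro i
      exact (abs_add_le _ _).trans (add_le_add (hsq i) (hDsq i))
    have h1 : Bd (fun _ => (1 : ℝ)) 1 := fun _ => by simp
    have h2 := Ga_mono hsum h1 (fun i => by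
      have := ih i
      have e : H i + (-1) * H (i + 1) = H i - H (i + 1) := by ring
      rw [e]; exact this) a
    rw [Ga_const, Ga_add hsq hDsq, Ga_smul] at h2
    -- one step
    have h3 := Ga_rec hsq a
    have h4 := Ga_rec hHb a
    have h5 := Ga_jensen hHb (a + 1)
    set u := H a
    set v := Ga H (a + 1) with hv
    set w := Ga H a with hw
    have h6 : (k : ℝ) * (w - v) ^ 2 ≤ (k : ℝ) * Ga (fun i => (H i + (-1) * H (i + 1)) ^ 2) a :=
      mul_le_mul_of_nonneg_left hj (Nat.cast_nonneg k)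
    have h7 : w ^ 2 + (w - v) ^ 2 = (u ^ 2 + v ^ 2) / 2 := by rw [h4]; ring
    push_cast
    nlinarith

/-- slow variation of iterated averages -/
theorem GaN_slow {F : ℕ → ℝ} (hF : Bd F 1) {k : ℕ} (hk : 1 ≤ k) (a : ℕ) :
    |GaN k F a - GaN k F (a + 1)| ≤ 1 / √k := by
  have h := GaN_var hF k a
  have hk0 : (0 : ℝ) < k := by exact_mod_cast hk
  have h1 : (k : ℝ) * (GaN k F a - GaN k F (a + 1)) ^ 2 ≤ 1 := by
    have := sq_nonneg (GaN k F a)
    linarith
  have h2 : (√k * |GaN k F a - GaN k F (a + 1)|) ^ 2 ≤ 1 := by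
    rw [mul_pow, Real.sq_sqrt hk0.le, sq_abs]; exact h1
  rw [le_div_iff₀ (Real.sqrt_pos.2 hk0), mul_comm]
  have h3 : 0 ≤ √k * |GaN k F a - GaN k F (a + 1)| := by positivity
  exact (sq_le_one_iff₀ h3).1 h2

theorem GaN_lip {F : ℕ → ℝ} (hF : Bd F 1) {k : ℕ} (hk : 1 ≤ k) (m : ℕ) :
    |GaN k F m - GaN k F 0| ≤ m * (1 / √k) := by
  induction m with
  | zero => simp
  | succ m ih =>
    have h1 := GaN_slow hF hk m
    rw [abs_sub_comm] at h1
    have h2 : GaN k F (m + 1) - GaN k F 0 = (GaN k F (m + 1) - GaN k F m) + (GaN k F m - GaN k F 0) := by ring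
    rw [h2]
    refine (abs_add_le _ _).trans ?_
    push_cast
    linarith

theorem av_smul (n : ℕ) (c : ℝ) (F : ℕ → ℝ) : av n (fun k => c * F k) = c * av n F := by
  unfold av
  rw [← mul_sum, mul_div_assoc]

/-- one step of the comparison -/
theorem compare_step : ∃ C : ℝ, 0 < C ∧ ∀ (m k : ℕ) (F : ℕ → ℝ), Bd F 1 →
    |av (m + 1) (GaN k F) - av m (GaN (k + 1) F)| ≤ C / ((m : ℝ) + 1) ^ 3 * (1 / √((k + 1 : ℕ) : ℝ)) := by
  obtain ⟨C, hC, h⟩ := av_step 5
  refine ⟨2 * (7 * C), by positivity, ?_⟩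
  intro m k F hF
  set H := GaN (k + 1) F with hH
  have hHb : Bd H 1 := GaN_bd hF (k + 1)
  have hlip := fun j => GaN_lip hF (k := k + 1) (by omega) j
  rw [← hH] at hlip
  set δ : ℝ := 1 / √((k + 1 : ℕ) : ℝ) with hδ
  have hδ0 : 0 < δ := by positivity
  have h1 := h m (7 * ((m : ℝ) + 1) ^ 2 * δ) (fun j => H j + (-1) * H 0) (by positivity) (by
    intro f hf
    have hf' := FC.mem_D'.1 hf
    have h2 := nu_le hf'.1
    rw [hf'.2] at h2
    have h3 : (((nu f + 1 : ℕ)) : ℝ) ≤ ((m + 1 + 1) * (m + 1 + 2) + 1 : ℕ) := by exact_mod_cast (by omega)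
    have h4 := hlip (nu f + 1)
    have h5 : H (nu f + 1) + (-1) * H 0 = H (nu f + 1) - H 0 := by ring
    rw [h5]
    refine h4.trans ?_
    apply mul_le_mul_of_nonneg_right _ hδ0.le
    refine h3.trans ?_
    push_cast
    have : (0 : ℝ) ≤ m := Nat.cast_nonneg m
    nlinarith)
  have e1 : ∀ n, av n (fun j => H j + (-1) * H 0) = av n H - H 0 := by
    intro n
    rw [av_add, av_const]; ring
  have e2 : av (m + 1) (fun j => H (j + 1) + (-1) * H 0) = av (m + 1) (fun j => H (j + 1)) - H 0 := by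
    rw [av_add, av_const]; ring
  rw [e1, e1, e2] at h1
  -- H(j) - H(j+1)/2 = (GaN k F j)/2
  have e3 : av (m + 1) (GaN k F) = 2 * av (m + 1) H + (-1) * av (m + 1) (fun j => H (j + 1)) := by
    rw [← av_smul, ← av_smul, ← av_add]
    congr 1
    funext j
    have h6 := Ga_rec (GaN_bd hF k) j
    rw [← GaN_succ, ← hH] at h6
    linarith
  have e4 : av (m + 1) (GaN k F) - av m H = 2 * (av (m + 1) H - H 0 - (av m H - H 0) / 2 - (av (m + 1) (fun j => H (j + 1)) - H 0) / 2) := by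
    rw [e3]; ring
  rw [e4, abs_mul, abs_of_pos (show (0 : ℝ) < 2 by norm_num)]
  have h7 : 2 * (7 * ((m : ℝ) + 1) ^ 2 * δ * (C / ((m : ℝ) + 1) ^ 5)) = 2 * (7 * C) / ((m : ℝ) + 1) ^ 3 * δ := by
    have h8 : ((m : ℝ) + 1) ≠ 0 := by positivity
    field_simp
  linarith

/-- COMPARISON with the negative binomial law, for test functions -/
theorem compare : ∃ C : ℝ, 0 < C ∧ ∀ (n : ℕ) (F : ℕ → ℝ), 1 ≤ n → Bd F 1 →
    |av n F - GaN n F 0| ≤ C / √n := by
  obtain ⟨C, hC, h⟩ := compare_step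
  refine ⟨C * 2, by positivity, ?_⟩
  intro n F hn hF
  have hn0 : (0 : ℝ) < n := by exact_mod_cast hn
  have hsn : 0 < √(n : ℝ) := Real.sqrt_pos.2 hn0
  have h0 : av 0 (GaN n F) = GaN n F 0 := by
    unfold av
    have h1 : FC.D 0 = {1} := by
      ext f
      rw [FC.mem_D', mem_singleton]
      constructor
      · rintro ⟨h1, h2⟩
        exact FC.eq_one_of_natDegree h1 h2
      · rintro rfl; simp
    rw [h1, sum_singleton, nu_one]
    simp
  -- telescoping
  have key : ∀ m : ℕ, m ≤ n → |av m (GaN (n - m) F) - GaN n F 0| ≤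
      C / √n * (2 * (1 - 1 / ((m : ℝ) + 1))) := by
    intro m
    induction m with
    | zero =>
      intro _
      rw [Nat.sub_zero, h0, sub_self, abs_zero]
      norm_num
    | succ m ih =>
      intro hm
      have h1 := ih (by omega)
      have h2 := h m (n - (m + 1)) F hF
      have e : n - (m + 1) + 1 = n - m := by omega
      rw [e] at h2
      have h3 : 1 / √((n - m : ℕ) : ℝ) ≤ ((m : ℝ) + 1) / √n := by
        have hnm : 1 ≤ n - m := by omega
        have hnm0 : (0 : ℝ) < ((n - m : ℕ) : ℝ) := by exact_mod_cast hnm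
        rw [div_le_div_iff₀ (Real.sqrt_pos.2 hnm0) hsn, one_mul]
        have h4 : (n : ℝ) ≤ (((m : ℝ) + 1) * √((n - m : ℕ) : ℝ)) ^ 2 := by
          rw [mul_pow, Real.sq_sqrt hnm0.le]
          have h5 : n ≤ (m + 1) * (n - m) := by
            obtain ⟨r, hr⟩ : ∃ r, n - m = r + 1 := ⟨n - m - 1, by omega⟩
            have : n = r + 1 + m := by omega
            rw [hr]
            nlinarith
          have h6 : (n : ℝ) ≤ ((m : ℝ) + 1) * ((n - m : ℕ) : ℝ) := by exact_mod_cast h5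
          have h7 : (1 : ℝ) ≤ (m : ℝ) + 1 := by linarith [(Nat.cast_nonneg m : (0 : ℝ) ≤ m)]
          have h8 : ((m : ℝ) + 1) * ((n - m : ℕ) : ℝ) ≤ ((m : ℝ) + 1) ^ 2 * ((n - m : ℕ) : ℝ) := by
            apply mul_le_mul_of_nonneg_right _ hnm0.le
            nlinarith
          linarith
        have h9 := Real.sqrt_le_sqrt h4
        rwa [Real.sqrt_sq (by positivity)] at h9
      have h4 : C / ((m : ℝ) + 1) ^ 3 * (1 / √((n - m : ℕ) : ℝ)) ≤ C / √n * (1 / ((m : ℝ) + 1) ^ 2) := by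
        refine (mul_le_mul_of_nonneg_left h3 (by positivity)).trans (le_of_eq ?_)
        have h5 : ((m : ℝ) + 1) ≠ 0 := by positivity
        field_simp
      have h5 : 1 / ((m : ℝ) + 1) ^ 2 ≤ 2 * (1 / ((m : ℝ) + 1) - 1 / (((m + 1 : ℕ) : ℝ) + 1)) := by
        have e2 : 1 / ((m : ℝ) + 1) - 1 / (((m + 1 : ℕ) : ℝ) + 1) = 1 / (((m : ℝ) + 1) * ((m : ℝ) + 2)) := by
          push_cast
          have : (m : ℝ) + 1 ≠ 0 := by positivity
          have : (m : ℝ) + 1 + 1 ≠ 0 := by positivity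
          have : (m : ℝ) + 2 ≠ 0 := by positivity
          field_simp
          ring
        rw [e2, mul_one_div, div_le_div_iff₀ (by positivity) (by positivity)]
        have : (0 : ℝ) ≤ m := Nat.cast_nonneg m
        nlinarith
      have h6 : av (m + 1) (GaN (n - (m + 1)) F) - GaN n F 0 =
          (av (m + 1) (GaN (n - (m + 1)) F) - av m (GaN (n - m) F)) + (av m (GaN (n - m) F) - GaN n F 0) := by ring
      rw [h6]
      refine (abs_add_le _ _).trans ?_
      have h7 := mul_le_mul_of_nonneg_left h5 (show 0 ≤ C / √n by positivity)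
      have h8 : C / √n * (2 * (1 - 1 / (((m + 1 : ℕ) : ℝ) + 1))) = C / √n * (2 * (1 / ((m : ℝ) + 1) - 1 / (((m + 1 : ℕ) : ℝ) + 1))) +
          C / √n * (2 * (1 - 1 / ((m : ℝ) + 1))) := by ring
      rw [h8]
      exact add_le_add ((h2.trans h4).trans h7) h1
  have h1 := key n le_rfl
  rw [Nat.sub_self] at h1
  have h2 : GaN 0 F = F := rfl
  rw [h2] at h1
  refine h1.trans ?_
  have h3 : 2 * (1 - 1 / ((n : ℝ) + 1)) ≤ 2 := by
    have : 0 < 1 / ((n : ℝ) + 1) := by positivity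
    linarith
  calc C / √n * (2 * (1 - 1 / ((n : ℝ) + 1))) ≤ C / √n * 2 := mul_le_mul_of_nonneg_left h3 (by positivity)
    _ = C * 2 / √n := by ring

end Pool.Agent.H618.PM
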