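import Pool.Agent.H618.PM.Plan

/-! # Many polynomials of degree `n` have a large stopping time -/

set_option autoImplicit false

namespace Pool.Agent.H618.PM

open Polynomial Finset Pool.Agent.Q74

theorem lower_bound (n : ℕ) (B : ℝ) (hB1 : 1 ≤ B) (hlogB : 64 * B ≤ Real.log n) :
    ∃ E : Finset ((ZMod 2)[X]), (∀ f ∈ E, f ∈ FC.D n ∧ B * n ≤ nu f) ∧
      (2 : ℝ) ^ ((n : ℝ) - 40 * B * n / Real.log n) ≤ E.card := by
  classical
  have hB : 0 < B := by linarith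
  have hn1 : 1 ≤ n := by
    rcases Nat.eq_zero_or_pos n with h | h
    · rw [h] at hlogB
      simp at hlogB
      linarith
    · exact h
  set K : ℝ := 21 + 3 * |Real.log B| + 40 * B with hK
  have hlog : K ≤ Real.log n := by
    have h1 : |Real.log B| = Real.log B := abs_of_nonneg (Real.log_nonneg hB1)
    have h2 := Real.log_le_sub_one_of_pos hB
    rw [hK, h1]
    linarith
  have hn0 : (0 : ℝ) < n := by exact_mod_cast hn1
  have habs := abs_nonneg (Real.log B)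
  have hlog0 : 0 < Real.log n := by linarith
  have hex : ∃ b : ℕ, B * n ≤ ((b : ℝ) - 1) * 2 ^ (3 * b + 5) := by
    refine ⟨n + ⌈B⌉₊ + 1, ?_⟩
    have h2 : B ≤ ⌈B⌉₊ := Nat.le_ceil B
    have h3 : (⌈B⌉₊ : ℝ) ≤ 2 ^ (3 * (n + ⌈B⌉₊ + 1) + 5) := by
      have : ⌈B⌉₊ ≤ 2 ^ (3 * (n + ⌈B⌉₊ + 1) + 5) := by
        have h4 : 3 * (n + ⌈B⌉₊ + 1) + 5 < 2 ^ (3 * (n + ⌈B⌉₊ + 1) + 5) := Nat.lt_two_pow_self
        omega
      exact_mod_cast this
    push_cast
    have h5 : (n : ℝ) ≤ (n : ℝ) + ⌈B⌉₊ + 1 - 1 := by linarith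
    calc B * n = n * B := mul_comm _ _
      _ ≤ ((n : ℝ) + ⌈B⌉₊ + 1 - 1) * 2 ^ (3 * (n + ⌈B⌉₊ + 1) + 5) := by
        apply mul_le_mul h5 (h2.trans h3) hB.le (by linarith)
  set b := Nat.find hex with hb
  have hb1 : B * n ≤ ((b : ℝ) - 1) * 2 ^ (3 * b + 5) := Nat.find_spec hex
  have hb0 : b ≠ 0 := by
    intro h
    rw [h] at hb1
    norm_num at hb1
    have : 0 < B * n := by positivity
    linarith
  obtain ⟨c, hc⟩ := Nat.exists_eq_succ_of_ne_zero hb0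
  have hb2 : ((c : ℝ) - 1) * 2 ^ (3 * c + 5) < B * n := by
    have := Nat.find_min hex (m := c) (by omega)
    exact not_le.1 this
  have hcb : (b : ℝ) = c + 1 := by rw [hc]; push_cast; ring
  -- `b` is large
  have hl2 : Real.log 2 < 0.7 := by have := Real.log_two_lt_d9; linarith
  have h6 : B * n ≤ (2 : ℝ) ^ (4 * b + 5) := by
    refine hb1.trans ?_
    have h7 : (b : ℝ) - 1 ≤ 2 ^ b := by
      have : (b : ℝ) < 2 ^ b := by exact_mod_cast Nat.lt_two_pow_self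
      linarith
    have h8 : (2 : ℝ) ^ (4 * b + 5) = 2 ^ b * 2 ^ (3 * b + 5) := by rw [← pow_add]; congr 1; ring
    rw [h8]
    exact mul_le_mul_of_nonneg_right h7 (by positivity)
  have h9 : Real.log B + Real.log n ≤ (4 * b + 5) * Real.log 2 := by
    rw [← Real.log_mul hB.ne' hn0.ne']
    calc Real.log (B * n) ≤ Real.log ((2 : ℝ) ^ (4 * b + 5)) := Real.log_le_log (by positivity) h6
      _ = (4 * b + 5) * Real.log 2 := by rw [Real.log_pow]; push_cast; ring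
  have h10 : Real.log B + Real.log n ≤ (4 * b + 5) * 0.7 :=
    h9.trans (mul_le_mul_of_nonneg_left hl2.le (by positivity))
  have h11 : -|Real.log B| ≤ Real.log B := neg_abs_le _
  have h12 : Real.log n / 5 ≤ (c : ℝ) - 1 := by
    rw [hcb] at h10
    norm_num at h10
    linarith
  have hc1 : 0 < (c : ℝ) - 1 := lt_of_lt_of_le (by positivity) h12
  -- the size of `2^(3b+5)`
  have h13 : (2 : ℝ) ^ (3 * b + 5) = 8 * 2 ^ (3 * c + 5) := by
    have : 3 * b + 5 = 3 + (3 * c + 5) := by omega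
    rw [this, pow_add]; norm_num
  have h14 : (2 : ℝ) ^ (3 * b + 5) ≤ 40 * B * n / Real.log n := by
    rw [h13, le_div_iff₀ hlog0]
    have h15 : Real.log n / 5 * 2 ^ (3 * c + 5) ≤ ((c : ℝ) - 1) * 2 ^ (3 * c + 5) :=
      mul_le_mul_of_nonneg_right h12 (by positivity)
    linarith
  have h16 : (2 : ℝ) ^ (3 * b + 5) ≤ n := by
    refine h14.trans ?_
    rw [div_le_iff₀ hlog0, mul_comm (n : ℝ)]
    exact mul_le_mul_of_nonneg_right (by linarith) hn0.le
  have h17 : 2 ^ (3 * b + 5) ≤ n := by exact_mod_cast h16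
  obtain ⟨E, hE1, hE2⟩ := lower_b b n h17
  refine ⟨E, ?_, ?_⟩
  · intro f hf
    obtain ⟨h18, h19⟩ := hE2 f hf
    refine ⟨h18, hb1.trans ?_⟩
    have h20 : ((b * 2 ^ (3 * b + 5) : ℕ) : ℝ) ≤ ((nu f + 2 ^ (3 * b + 5) : ℕ) : ℝ) := by exact_mod_cast h19
    push_cast at h20
    linarith
  · have h21 : ((2 ^ (n - 2 ^ (3 * b + 5)) : ℕ) : ℝ) ≤ E.card := by exact_mod_cast hE1
    refine le_trans ?_ h21
    have h22 : ((2 ^ (n - 2 ^ (3 * b + 5)) : ℕ) : ℝ) = (2 : ℝ) ^ ((n : ℝ) - 2 ^ (3 * b + 5)) := by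
      have h23 : (n : ℝ) - 2 ^ (3 * b + 5) = ((n - 2 ^ (3 * b + 5) : ℕ) : ℝ) := by
        rw [Nat.cast_sub h17]; push_cast; ring
      rw [h23, Real.rpow_natCast]
      push_cast
      ring
    rw [h22]
    apply Real.rpow_le_rpow_of_exponent_le (by norm_num)
    linarith

end Pool.Agent.H618.PM
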