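import Pool.Agent.H618.PM.Odds

/-! # The mean number of odd steps -/

set_option autoImplicit false

namespace Pool.Agent.H618.PM

open Polynomial Finset Pool.Agent.Q74

/-- mean number of odd steps in degree `n` -/
noncomputable def mn (n : ℕ) : ℝ := av n (fun k => (k : ℝ))

theorem av_const (n : ℕ) (c : ℝ) : av n (fun _ => c) = c := by
  unfold av
  rw [sum_const, FC.card_D, nsmul_eq_mul]
  have : (2 : ℝ) ^ n ≠ 0 := by positivity
  push_cast
  field_simp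

theorem av_add (n : ℕ) (F G : ℕ → ℝ) : av n (fun k => F k + G k) = av n F + av n G := by
  unfold av
  rw [sum_add_distrib, add_div]

theorem mn_step (a : ℕ) : ∃ C : ℝ, 0 < C ∧ ∀ n : ℕ, |mn (n + 1) - mn n - 1| ≤ C / ((n : ℝ) + 1) ^ (a + 2) := by
  obtain ⟨C, hC, h⟩ := av_step (a + 4)
  refine ⟨2 * (7 * C), by positivity, fun n => ?_⟩
  have h1 := h n (7 * ((n : ℝ) + 1) ^ 2) (fun k => (k : ℝ)) (by positivity) (by
    intro f hf
    have hf' := FC.mem_D'.1 hf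
    have h2 := nu_le hf'.1
    rw [hf'.2] at h2
    have h3 : (((nu f + 1 : ℕ)) : ℝ) ≤ ((n + 1 + 1) * (n + 1 + 2) + 1 : ℕ) := by exact_mod_cast (by omega)
    have h4 : |(((nu f + 1 : ℕ)) : ℝ)| = ((nu f + 1 : ℕ) : ℝ) := abs_of_nonneg (Nat.cast_nonneg _)
    rw [h4]
    refine h3.trans ?_
    push_cast
    have : (0 : ℝ) ≤ n := Nat.cast_nonneg n
    nlinarith)
  have h2 : av (n + 1) (fun k => ((k + 1 : ℕ) : ℝ)) = mn (n + 1) + 1 := by
    have h3 : (fun k : ℕ => ((k + 1 : ℕ) : ℝ)) = fun k : ℕ => (k : ℝ) + 1 := by funext k; push_cast; ring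
    rw [h3, av_add, av_const]
    rfl
  have h3 : av (n + 1) (fun k => (k : ℝ)) - av n (fun k => (k : ℝ)) / 2 - av (n + 1) (fun k => ((k + 1 : ℕ) : ℝ)) / 2 =
      (mn (n + 1) - mn n - 1) / 2 := by
    rw [h2]
    unfold mn
    ring
  rw [h3, abs_div, abs_of_pos (show (0 : ℝ) < 2 by norm_num), div_le_iff₀ (by norm_num)] at h1
  refine h1.trans (le_of_eq ?_)
  have h4 : ((n : ℝ) + 1) ^ (a + 4) = ((n : ℝ) + 1) ^ (a + 2) * ((n : ℝ) + 1) ^ 2 := by rw [← pow_add]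
  rw [h4]
  have h5 : ((n : ℝ) + 1) ≠ 0 := by positivity
  field_simp

/-- a general summation lemma -/
theorem cauchy_rate (u : ℕ → ℝ) (h : ∀ a : ℕ, ∃ C : ℝ, 0 < C ∧ ∀ n : ℕ, |u (n + 1) - u n| ≤ C / ((n : ℝ) + 1) ^ (a + 2)) :
    ∃ c : ℝ, ∀ a : ℕ, ∃ K : ℝ, 0 < K ∧ ∀ n : ℕ, 1 ≤ n → |u n - c| ≤ K / (n : ℝ) ^ a := by
  have key : ∀ a : ℕ, ∃ K : ℝ, 0 < K ∧ ∀ n N : ℕ, 1 ≤ n → n ≤ N → |u N - u n| ≤ K * (1 / n - 1 / N) / (n : ℝ) ^ a := by
    intro a
    obtain ⟨C, hC, hu⟩ := h a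
    refine ⟨C, hC, ?_⟩
    intro n N hn hN
    induction N, hN using Nat.le_induction with
    | base => simp
    | succ N hN ih =>
      have hn0 : (0 : ℝ) < n := by exact_mod_cast hn
      have hN0 : (0 : ℝ) < N := by exact_mod_cast (by omega : 0 < N)
      have h1 := hu N
      have h2 : |u (N + 1) - u n| ≤ |u (N + 1) - u N| + |u N - u n| := by
        have : u (N + 1) - u n = (u (N + 1) - u N) + (u N - u n) := by ring
        rw [this]
        exact abs_add_le _ _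
      have h3 : C / ((N : ℝ) + 1) ^ (a + 2) ≤ C * (1 / (N : ℝ) - 1 / ((N + 1 : ℕ) : ℝ)) / (n : ℝ) ^ a := by
        rw [mul_div_assoc, div_eq_mul_one_div C]
        apply mul_le_mul_of_nonneg_left _ hC.le
        have h4 : 1 / (N : ℝ) - 1 / ((N + 1 : ℕ) : ℝ) = 1 / (N * (N + 1)) := by
          push_cast
          field_simp
          ring
        rw [h4, div_div, one_div_le_one_div (by positivity) (by positivity), pow_add]
        have h5 : (n : ℝ) ^ a ≤ ((N : ℝ) + 1) ^ a := by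
          apply pow_le_pow_left₀ hn0.le
          have : (n : ℝ) ≤ N := by exact_mod_cast hN
          linarith
        calc (N : ℝ) * (N + 1) * (n : ℝ) ^ a ≤ (((N : ℝ) + 1) ^ 2) * ((N : ℝ) + 1) ^ a := by
              apply mul_le_mul _ h5 (by positivity) (by positivity)
              nlinarith
          _ = _ := by ring
      calc |u (N + 1) - u n| ≤ C * (1 / (N : ℝ) - 1 / ((N + 1 : ℕ) : ℝ)) / (n : ℝ) ^ a + C * (1 / n - 1 / N) / (n : ℝ) ^ a :=
            h2.trans (add_le_add (h1.trans h3) ih)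
        _ = _ := by ring
  -- the limit
  obtain ⟨K, hK, hkey⟩ := key 0
  have hc : CauchySeq u := by
    rw [Metric.cauchySeq_iff']
    intro ε hε
    obtain ⟨M, hM⟩ := exists_nat_gt (K / ε)
    refine ⟨M + 1, fun N hN => ?_⟩
    rw [Real.dist_eq]
    have h1 := hkey (M + 1) N (by omega) hN
    rw [pow_zero, div_one] at h1
    refine lt_of_le_of_lt h1 ?_
    have hM0 : (0 : ℝ) < ((M + 1 : ℕ) : ℝ) := by positivity
    have h2 : K * (1 / ((M + 1 : ℕ) : ℝ) - 1 / (N : ℝ)) ≤ K / ((M + 1 : ℕ) : ℝ) := by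
      have : 0 ≤ K * (1 / (N : ℝ)) := by positivity
      rw [mul_sub, mul_one_div]
      linarith
    refine lt_of_le_of_lt h2 ?_
    rw [div_lt_iff₀ hM0]
    rw [div_lt_iff₀ hε] at hM
    push_cast
    nlinarith
  obtain ⟨c, hc⟩ := cauchySeq_tendsto_of_complete hc
  refine ⟨c, fun a => ?_⟩
  obtain ⟨K, hK, hkey⟩ := key a
  refine ⟨K, hK, fun n hn => ?_⟩
  have h1 : Filter.Tendsto (fun N => |u N - u n|) Filter.atTop (nhds |c - u n|) := (hc.sub_const _).abs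
  rw [abs_sub_comm]
  apply le_of_tendsto h1
  rw [Filter.eventually_atTop]
  refine ⟨n, fun N hN => (hkey n N hn hN).trans ?_⟩
  have hn0 : (1 : ℝ) ≤ n := by exact_mod_cast hn
  have hn0' : (0 : ℝ) < n := by linarith
  apply div_le_div_of_nonneg_right _ (by positivity)
  have h2 : 1 / (n : ℝ) - 1 / N ≤ 1 := by
    have h3 : 1 / (n : ℝ) ≤ 1 := by rw [div_le_one hn0']; exact hn0
    have h4 : 0 ≤ 1 / (N : ℝ) := by positivity
    linarith
  calc K * (1 / (n : ℝ) - 1 / N) ≤ K * 1 := mul_le_mul_of_nonneg_left h2 hK.le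
    _ = K := mul_one K

/-- THE MEAN -/
theorem mean : ∃ c : ℝ, ∀ a : ℕ, ∃ K : ℝ, 0 < K ∧ ∀ n : ℕ, 1 ≤ n → |mn n - (n - c)| ≤ K / (n : ℝ) ^ a := by
  obtain ⟨c, hc⟩ := cauchy_rate (fun n => (n : ℝ) - mn n) (by
    intro a
    obtain ⟨C, hC, h⟩ := mn_step a
    refine ⟨C, hC, fun n => ?_⟩
    have := h n
    rw [← abs_neg]
    convert this using 2
    push_cast
    ring)
  refine ⟨c, fun a => ?_⟩
  obtain ⟨K, hK, h⟩ := hc a
  refine ⟨K, hK, fun n hn => ?_⟩
  have := h n hn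
  rw [← abs_neg]
  convert this using 2
  ring

end Pool.Agent.H618.PM
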