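import Pool.Agent.H618.PM.Char

/-! # Fine scale mixing -/

set_option autoImplicit false

namespace Pool.Agent.H618.PM

open Polynomial Finset Pool.Agent.Q74

/-- path splitting -/
theorem g_split (s : ℕ → ℕ → ℝ) (κ n₂ : ℕ) : ∀ n₁ j t : ℕ, g s κ (n₁ + n₂) j t =
    ∑ r ∈ range (n₁ + 1), g s (j + r) n₁ j t * g s κ n₂ (j + r) (t + n₁) := by
  intro n₁
  induction n₁ with
  | zero =>
    intro j t
    simp [g]
  | succ n₁ ih =>
    intro j t
    have e : n₁ + 1 + n₂ = (n₁ + n₂) + 1 := by ring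
    rw [e]
    have hl : g s κ (n₁ + n₂ + 1) j t =
        (s j (t + 1) * g s κ (n₁ + n₂) (j + 1) (t + 1) + g s κ (n₁ + n₂) j (t + 1)) / 2 := rfl
    rw [hl, ih, ih]
    have h1 : ∀ r, g s (j + r) (n₁ + 1) j t * g s κ n₂ (j + r) (t + (n₁ + 1)) =
        s j (t + 1) * (g s (j + r) n₁ (j + 1) (t + 1) * g s κ n₂ (j + r) (t + 1 + n₁)) / 2 +
        (g s (j + r) n₁ j (t + 1) * g s κ n₂ (j + r) (t + 1 + n₁)) / 2 := by
      intro r
      have hg : g s (j + r) (n₁ + 1) j t =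
        (s j (t + 1) * g s (j + r) n₁ (j + 1) (t + 1) + g s (j + r) n₁ j (t + 1)) / 2 := rfl
      have e2 : t + (n₁ + 1) = t + 1 + n₁ := by ring
      rw [hg, e2]
      ring
    rw [sum_congr rfl fun r _ => h1 r, sum_add_distrib]
    have h2 : ∑ r ∈ range (n₁ + 1 + 1), (g s (j + r) n₁ j (t + 1) * g s κ n₂ (j + r) (t + 1 + n₁)) / 2 =
        (∑ r ∈ range (n₁ + 1), g s (j + r) n₁ j (t + 1) * g s κ n₂ (j + r) (t + 1 + n₁)) / 2 := by
      rw [sum_range_succ, g_short n₁ j (t + 1) (κ := j + (n₁ + 1)) (by omega), zero_mul, zero_div, add_zero, sum_div]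
    have h3 : ∑ r ∈ range (n₁ + 1 + 1), s j (t + 1) * (g s (j + r) n₁ (j + 1) (t + 1) * g s κ n₂ (j + r) (t + 1 + n₁)) / 2 =
        s j (t + 1) * (∑ r ∈ range (n₁ + 1), g s (j + 1 + r) n₁ (j + 1) (t + 1) * g s κ n₂ (j + 1 + r) (t + 1 + n₁)) / 2 := by
      rw [sum_range_succ', add_zero, g_zero n₁ (j + 1) (t + 1) (κ := j) (by omega), zero_mul, mul_zero, zero_div, add_zero,
        mul_sum, sum_div]
      refine sum_congr rfl fun r _ => ?_
      have e3 : j + (r + 1) = j + 1 + r := by ring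
      rw [e3]
    rw [h2, h3]
    ring

theorem R_le (q d : ℕ) : R q d * ((d : ℝ) + 1) ^ q ≤ 1 := by
  unfold R
  rw [div_mul_eq_mul_div, div_le_one (by positivity)]
  have h := Nat.factorial_mul_pow_le_factorial (m := d) (n := q)
  exact_mod_cast h

theorem P_R' (q d : ℕ) : P d (fun i => R q i) 0 ≤ 2 ^ q * R q d := by
  rw [P_binom, div_le_iff₀ (by positivity)]
  have h1 : ∀ i ∈ range (d + 1), (d.choose i : ℝ) * R q (0 + i) = R q d * ((d + q).choose (i + q) : ℝ) := by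
    intro i hi
    rw [mem_range] at hi
    have hi' : i ≤ d := by omega
    rw [zero_add]
    unfold R
    rw [Nat.cast_choose ℝ hi', Nat.cast_choose ℝ (by omega : i + q ≤ d + q)]
    have e : d + q - (i + q) = d - i := by omega
    rw [e]
    have h1 : ((d + q).factorial : ℝ) ≠ 0 := by positivity
    have h2 : ((d - i).factorial : ℝ) ≠ 0 := by positivity
    have h3 : ((i + q).factorial : ℝ) ≠ 0 := by positivity
    have h4 : (i.factorial : ℝ) ≠ 0 := by positivity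
    field_simp
  rw [sum_congr rfl h1, ← mul_sum]
  have h2 : ∑ i ∈ range (d + 1), ((d + q).choose (i + q) : ℝ) ≤ 2 ^ (d + q) := by
    have h3 : ∑ i ∈ range (d + q + 1), ((d + q).choose i : ℝ) = 2 ^ (d + q) := by
      exact_mod_cast Nat.sum_range_choose (d + q)
    rw [← h3]
    have h4 : ∑ i ∈ range (d + 1), ((d + q).choose (i + q) : ℝ) =
        ∑ i ∈ (range (d + 1)).map (addRightEmbedding q), ((d + q).choose i : ℝ) := by
      rw [sum_map]; rfl
    rw [h4]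
    apply sum_le_sum_of_subset_of_nonneg
    · intro i hi
      rw [mem_map] at hi
      obtain ⟨a, ha, rfl⟩ := hi
      rw [mem_range] at ha
      simp only [addRightEmbedding_apply, mem_range]
      omega
    · intro i _ _
      positivity
  have h4 := mul_le_mul_of_nonneg_left h2 (R_pos q d).le
  rw [pow_add] at h4
  linarith

section

variable {A : Type} [CommRing A] [Fintype A] {κ : ℕ} {π : (ZMod 2)[X] →+* A} {w : A}

/-- mean square of the path sums -/
theorem l2_bound {q : ℕ} {K : ℝ} (hK : 0 < K)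
    (hdec : ∀ (s : ℕ → ℕ → ℝ) (κ : ℕ), IsArr s κ → ∀ n j t : ℕ, j ≤ κ → g s κ n j t ^ 2 ≤ K * R q (κ + 1 - j))
    (h : Red (κ + 1) π w) (d : ℕ) (hd : κ + 1 ≤ d) :
    ∑ χ : AddChar A ℂ, (if sg χ (π (X + 1) ^ κ) = -1 then g (arr π w χ) κ d 0 0 ^ 2 else 0) ≤
      ((κ : ℝ) + 2) * (K * (2 ^ q * R q (κ + 1))) := by
  classical
  obtain ⟨n₂, rfl⟩ : ∃ n₂, d = (κ + 1) + n₂ := ⟨d - (κ + 1), by omega⟩
  have hcard := h.card
  -- pointwise
  have h1 : ∀ χ : AddChar A ℂ, (if sg χ (π (X + 1) ^ κ) = -1 then g (arr π w χ) κ (κ + 1 + n₂) 0 0 ^ 2 else 0) ≤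
      ∑ r ∈ range (κ + 2), ((κ : ℝ) + 2) * (K * R q (κ + 1 - r)) * g (arr π w χ) r (κ + 1) 0 0 ^ 2 := by
    intro χ
    split_ifs with hχ
    · have ha := arr_isArr h χ hχ
      rw [g_split]
      have h2 : (∑ r ∈ range (κ + 1 + 1), g (arr π w χ) (0 + r) (κ + 1) 0 0 * g (arr π w χ) κ n₂ (0 + r) (0 + (κ + 1))) ^ 2 ≤
          ((range (κ + 1 + 1)).card : ℝ) * ∑ r ∈ range (κ + 1 + 1), (g (arr π w χ) (0 + r) (κ + 1) 0 0 * g (arr π w χ) κ n₂ (0 + r) (0 + (κ + 1))) ^ 2 :=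
        sq_sum_le_card_mul_sum_sq
      refine h2.trans ?_
      rw [card_range, mul_sum]
      refine sum_le_sum fun r hr => ?_
      rw [mem_range] at hr
      rw [zero_add, zero_add, mul_pow]
      have h3 : g (arr π w χ) κ n₂ r (κ + 1) ^ 2 ≤ K * R q (κ + 1 - r) := by
        by_cases hrκ : r ≤ κ
        · exact hdec _ _ ha n₂ r (κ + 1) hrκ
        · rw [g_zero n₂ r (κ + 1) (by omega)]
          have := R_pos q (κ + 1 - r)
          have : 0 ≤ K * R q (κ + 1 - r) := by positivity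
          simpa using this
      have h4 : 0 ≤ g (arr π w χ) r (κ + 1) 0 0 ^ 2 := sq_nonneg _
      have h5 : (((κ + 1 + 1 : ℕ)) : ℝ) = (κ : ℝ) + 2 := by push_cast; ring
      rw [h5]
      have h6 := mul_le_mul_of_nonneg_left h3 h4
      have h7 : (0 : ℝ) ≤ (κ : ℝ) + 2 := by positivity
      calc ((κ : ℝ) + 2) * (g (arr π w χ) r (κ + 1) 0 0 ^ 2 * g (arr π w χ) κ n₂ r (κ + 1) ^ 2)
          ≤ ((κ : ℝ) + 2) * (g (arr π w χ) r (κ + 1) 0 0 ^ 2 * (K * R q (κ + 1 - r))) := mul_le_mul_of_nonneg_left h6 h7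
        _ = _ := by ring
    · apply sum_nonneg
      intro r _
      have := R_pos q (κ + 1 - r)
      positivity
  refine (sum_le_sum fun χ _ => h1 χ).trans ?_
  rw [sum_comm]
  -- Parseval for each r
  have h2 : ∀ r : ℕ, ∑ χ : AddChar A ℂ, g (arr π w χ) r (κ + 1) 0 0 ^ 2 =
      (((FC.L (κ + 1)).filter (fun f => FC.odds (κ + 1) f = r)).card : ℝ) / 2 ^ (κ + 1) := by
    intro r
    have h3 := parseval_inj h.two ((FC.L (κ + 1)).filter (fun f => FC.odds (κ + 1) f = r)) (V π w (κ + 1))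
      (V_inj h (κ + 1) r le_rfl)
    have h4 : ∀ χ : AddChar A ℂ, ∑ f ∈ (FC.L (κ + 1)).filter (fun f => FC.odds (κ + 1) f = r), sg χ (V π w (κ + 1) f) =
        2 ^ (κ + 1) * g (arr π w χ) r (κ + 1) 0 0 := by
      intro χ
      rw [← word_sum h χ r (κ + 1) 0 0, sum_filter]
      refine sum_congr rfl fun f _ => ?_
      rw [zero_add, pow_zero, pow_zero, one_mul, one_mul]
    rw [sum_congr rfl fun χ _ => by rw [h4 χ, mul_pow], ← mul_sum, hcard] at h3
    have h5 : (0 : ℝ) < 2 ^ (κ + 1) := by positivity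
    rw [eq_div_iff h5.ne']
    push_cast at h3
    have h6 : (2 : ℝ) ^ (κ + 1) * ((∑ χ : AddChar A ℂ, g (arr π w χ) r (κ + 1) 0 0 ^ 2) * 2 ^ (κ + 1)) =
        2 ^ (κ + 1) * (((FC.L (κ + 1)).filter (fun f => FC.odds (κ + 1) f = r)).card : ℝ) := by
      rw [← h3]; ring
    exact mul_left_cancel₀ h5.ne' h6
  have h3 : ∑ r ∈ range (κ + 2), ∑ χ : AddChar A ℂ, ((κ : ℝ) + 2) * (K * R q (κ + 1 - r)) * g (arr π w χ) r (κ + 1) 0 0 ^ 2 =
      ((κ : ℝ) + 2) * (K * P (κ + 1) (fun i => R q (κ + 1 - i)) 0) := by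
    have h4 := sum_odds (κ + 1) (fun i => R q (κ + 1 - i))
    have h5 : ∑ f ∈ FC.L (κ + 1), R q (κ + 1 - FC.odds (κ + 1) f) =
        ∑ r ∈ range (κ + 2), (((FC.L (κ + 1)).filter (fun f => FC.odds (κ + 1) f = r)).card : ℝ) * R q (κ + 1 - r) := by
      rw [← sum_fiberwise_of_maps_to (s := FC.L (κ + 1)) (t := range (κ + 2)) (g := fun f => FC.odds (κ + 1) f)
        (fun f _ => by rw [mem_range]; have := FC.odds_le (κ + 1) f; omega)]
      refine sum_congr rfl fun r _ => ?_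
      rw [sum_congr rfl (g := fun _ => R q (κ + 1 - r)) (fun f hf => by rw [(mem_filter.1 hf).2]), sum_const, nsmul_eq_mul]
    rw [h5] at h4
    have h6 : (0 : ℝ) < 2 ^ (κ + 1) := by positivity
    have h7 : P (κ + 1) (fun i => R q (κ + 1 - i)) 0 =
        (∑ r ∈ range (κ + 2), (((FC.L (κ + 1)).filter (fun f => FC.odds (κ + 1) f = r)).card : ℝ) * R q (κ + 1 - r)) / 2 ^ (κ + 1) := by
      rw [h4]; field_simp
    rw [h7, sum_div, mul_sum, mul_sum]
    refine sum_congr rfl fun r _ => ?_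
    rw [← mul_sum, h2]
    ring
  rw [h3]
  have h4 := P_R_top q (κ + 1)
  have h5 : 0 ≤ (κ : ℝ) + 2 := by positivity
  exact mul_le_mul_of_nonneg_left (mul_le_mul_of_nonneg_left h4 hK.le) h5

/-- test functions on the words with `κ` odd steps -/
theorem fixed_odds {q : ℕ} {K : ℝ} (hK : 0 < K)
    (hdec : ∀ (s : ℕ → ℕ → ℝ) (κ : ℕ), IsArr s κ → ∀ n j t : ℕ, j ≤ κ → g s κ n j t ^ 2 ≤ K * R q (κ + 1 - j))
    (h : Red (κ + 1) π w) (d : ℕ) (hd : κ + 1 ≤ d) (φ : A → ℝ) (hφ : ∀ v, |φ v| ≤ 1) :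
    (∑ f ∈ (FC.L d).filter (fun f => FC.odds d f = κ), (φ (V π w d f) - φ (V π w d f + π (X + 1) ^ κ))) ^ 2 ≤
      4 * 4 ^ d * (((κ : ℝ) + 2) * (K * (2 ^ q * R q (κ + 1)))) := by
  classical
  refine (test_bound h.two _ (V π w d) (π (X + 1) ^ κ) φ hφ).trans ?_
  have h1 := l2_bound hK hdec h d hd
  have h2 : ∀ χ : AddChar A ℂ, ((1 - sg χ (π (X + 1) ^ κ)) *
      ∑ f ∈ (FC.L d).filter (fun f => FC.odds d f = κ), sg χ (V π w d f)) ^ 2 =
      4 * 4 ^ d * (if sg χ (π (X + 1) ^ κ) = -1 then g (arr π w χ) κ d 0 0 ^ 2 else 0) := by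
    intro χ
    have h3 : ∑ f ∈ (FC.L d).filter (fun f => FC.odds d f = κ), sg χ (V π w d f) = 2 ^ d * g (arr π w χ) κ d 0 0 := by
      rw [← word_sum h χ κ d 0 0, sum_filter]
      refine sum_congr rfl fun f _ => ?_
      rw [zero_add, pow_zero, pow_zero, one_mul, one_mul]
    rw [h3]
    have h4 : (4 : ℝ) ^ d = 2 ^ d * 2 ^ d := by rw [← mul_pow]; norm_num
    rcases sg_cases h.two χ (π (X + 1) ^ κ) with h5 | h5
    · rw [h5, if_neg (by norm_num)]; ring
    · rw [h5, if_pos rfl, h4]; ring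
  rw [sum_congr rfl fun χ _ => h2 χ, ← mul_sum]
  exact mul_le_mul_of_nonneg_left h1 (by positivity)

end

/-- the polynomials of degree `n` with value `r` at `1` -/
noncomputable def Cl (r : ZMod 2) (n : ℕ) : Finset ((ZMod 2)[X]) := by
  classical
  exact (FC.D n).filter (fun f => f.eval 1 = r)

theorem mem_Cl {r : ZMod 2} {n : ℕ} {f : (ZMod 2)[X]} : f ∈ Cl r n ↔ f ∈ FC.D n ∧ f.eval 1 = r := by
  classical
  unfold Cl
  rw [mem_filter]

/-- completion of a word to a polynomial of degree `d + 1` with value `r` at `1` -/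
noncomputable def comp (d : ℕ) (r : ZMod 2) (f : (ZMod 2)[X]) : (ZMod 2)[X] :=
  f + X ^ d * (X + C (r + f.eval 1 + 1))

theorem comp_eval (d : ℕ) (r : ZMod 2) (f : (ZMod 2)[X]) : (comp d r f).eval 1 = r := by
  unfold comp
  simp only [eval_add, eval_mul, eval_pow, eval_X, one_pow, one_mul, eval_C]
  generalize f.eval 1 = a
  revert a r
  decide

theorem comp_mem {d : ℕ} {r : ZMod 2} {f : (ZMod 2)[X]} (hf : f ∈ FC.L d) : comp d r f ∈ Cl r (d + 1) := by
  rw [mem_Cl]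
  refine ⟨?_, comp_eval d r f⟩
  rw [FC.mem_D]
  rw [FC.mem_L] at hf
  unfold comp
  have h1 : (X ^ d * (X + C (r + f.eval 1 + 1)) : (ZMod 2)[X]).degree = ((d + 1 : ℕ) : WithBot ℕ) := by
    rw [degree_mul, degree_X_pow, degree_X_add_C]
    rfl
  rw [degree_add_eq_right_of_degree_lt, h1]
  rw [h1]
  refine lt_trans hf ?_
  exact_mod_cast Nat.lt_succ_self d

theorem sum_Cl (d : ℕ) (r : ZMod 2) (F : (ZMod 2)[X] → ℝ) :
    ∑ f ∈ Cl r (d + 1), F f = ∑ f ∈ FC.L d, F (comp d r f) := by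
  classical
  symm
  apply sum_bij (fun f _ => comp d r f)
  · intro f hf
    exact comp_mem hf
  · intro f hf f' hf' he
    rw [FC.mem_L] at hf hf'
    unfold comp at he
    have h1 : f - f' = X ^ d * (C (r + f'.eval 1 + 1) - C (r + f.eval 1 + 1)) := by linear_combination he
    have h2 : (f - f').degree < (d : WithBot ℕ) := lt_of_le_of_lt (degree_sub_le _ _) (max_lt hf hf')
    by_contra hne
    have h3 : f - f' ≠ 0 := sub_ne_zero.2 hne
    have h4 : (X ^ d : (ZMod 2)[X]) ∣ f - f' := ⟨_, h1⟩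
    have h5 := natDegree_le_of_dvd h4 h3
    rw [natDegree_X_pow] at h5
    rw [degree_eq_natDegree h3] at h2
    have h6 : (f - f').natDegree < d := by exact_mod_cast h2
    omega
  · intro f hf
    rw [mem_Cl, FC.mem_D] at hf
    refine ⟨f %ₘ X ^ d, ?_, ?_⟩
    · rw [FC.mem_L]
      have h1 := degree_modByMonic_lt f (monic_X_pow (R := ZMod 2) d)
      rwa [degree_X_pow] at h1
    · -- the quotient is X + c
      have h1 := modByMonic_add_div f (X ^ d : (ZMod 2)[X])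
      set a := f %ₘ X ^ d with ha
      set b := f /ₘ X ^ d with hb
      have h2 : a.degree < (d : WithBot ℕ) := by
        have h1 := degree_modByMonic_lt f (monic_X_pow (R := ZMod 2) d)
        rwa [degree_X_pow] at h1
      have hb0 : b ≠ 0 := by
        intro h3
        rw [h3, mul_zero, add_zero] at h1
        rw [h1, hf.1] at h2
        have : d + 1 < d := by exact_mod_cast h2
        omega
      have h3 : b.natDegree = 1 := by
        have h4 : (X ^ d * b : (ZMod 2)[X]).degree = ((d + b.natDegree : ℕ) : WithBot ℕ) := by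
          rw [degree_mul, degree_X_pow, degree_eq_natDegree hb0]
          rfl
        have h5 : f.degree = (X ^ d * b : (ZMod 2)[X]).degree := by
          rw [← h1, degree_add_eq_right_of_degree_lt]
          rw [h4]
          refine lt_of_lt_of_le h2 ?_
          exact_mod_cast Nat.le_add_right d b.natDegree
        rw [hf.1, h4] at h5
        have h6 : d + 1 = d + b.natDegree := by exact_mod_cast h5
        omega
      have h4 : b = X + C (b.coeff 0) := by
        have h5 := eq_X_add_C_of_natDegree_le_one h3.le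
        have h6 : b.coeff 1 = 1 := by
          rcases FC.zmod2 (b.coeff 1) with h7 | h7
          · have : b.leadingCoeff = 0 := by unfold leadingCoeff; rw [h3, h7]
            exact absurd (leadingCoeff_eq_zero.1 this) hb0
          · exact h7
        rw [h6, map_one, one_mul] at h5
        exact h5
      unfold comp
      have h5 : f.eval 1 = a.eval 1 + (1 + b.coeff 0) := by
        rw [← h1, h4]
        simp
      have h6 : b.coeff 0 = r + a.eval 1 + 1 := by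
        rw [hf.2] at h5
        rw [h5]
        generalize a.eval 1 = u
        generalize b.coeff 0 = v
        revert u v
        decide
      rw [← h6, ← h4]
      exact h1
  · intro f _; rfl

/-- the class of the polynomial reached -/
theorem class_comp {A : Type} [CommRing A] {κ : ℕ} {π : (ZMod 2)[X] →+* A} {w : A} (h : Red (κ + 1) π w)
    (d : ℕ) (f : (ZMod 2)[X]) (hf : FC.odds d f = κ) :
    π (FC.S^[d] (comp d 0 f)) = V π w d f ∧ π (FC.S^[d] (comp d 1 f)) = V π w d f + π (X + 1) ^ κ := by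
  have key : ∀ r : ZMod 2, π (FC.S^[d] (comp d r f)) = V π w d f + π (X + 1) ^ κ * π (C r) := by
    intro r
    obtain ⟨h1, h2, h3⟩ := shiftX d f (X + C (r + f.eval 1 + 1))
    have h4 : V π w d (comp d r f) = V π w d f := by unfold V comp; rw [h2]
    have h5 : FC.odds d (comp d r f) = κ := by unfold comp; rw [h1, hf]
    rw [class_iter h, h4, h5, h.top_wpow]
    congr 1
    have h6 : (X + 1 : (ZMod 2)[X]) ∣ comp d r f - C r := by
      have h7 : (X - C (1 : ZMod 2)) ∣ comp d r f - C r := by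
        rw [dvd_iff_isRoot, IsRoot, eval_sub, comp_eval, eval_C, sub_self]
      have h8 : (X - C (1 : ZMod 2)) = (X + 1 : (ZMod 2)[X]) := by
        rw [map_one, sub_eq_add_neg]
        congr 1
        rw [neg_eq_iff_add_eq_zero, CharTwo.add_self_eq_zero]
      rwa [h8] at h7
    obtain ⟨c, hc⟩ := h6
    have h9 : comp d r f = C r + (X + 1) * c := by rw [← hc]; ring
    have h10 : π (X + 1) ^ (κ + 1) = 0 := by rw [← map_pow, h.ker]
    have h11 : π (comp d r f) = π (C r) + π (X + 1) * π c := by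
      rw [h9, map_add π (C r) ((X + 1) * c), map_mul π (X + 1) c]
    rw [h11, mul_add, ← mul_assoc, ← pow_succ, h10, zero_mul, add_zero]
  refine ⟨?_, ?_⟩
  · rw [key 0, map_zero, map_zero, mul_zero, add_zero]
  · rw [key 1, map_one, map_one, mul_one]

theorem iter_mem {d : ℕ} {r : ZMod 2} {f : (ZMod 2)[X]} (hf : f ∈ FC.L d) :
    FC.S^[d] (comp d r f) ∈ FC.D (FC.odds d f + 1) := by
  have h1 := (mem_Cl.1 (comp_mem (r := r) hf)).1
  rw [FC.mem_D'] at h1 ⊢
  obtain ⟨h2, h3⟩ := FC.S_iter_ne h1.1 d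
  refine ⟨h2, ?_⟩
  have h4 : FC.odds d (comp d r f) = FC.odds d f := (shiftX d f _).1
  rw [h4, h1.2] at h3
  omega

/-- MIXING with a fixed number of odd steps -/
theorem mix_fixed {q : ℕ} {K : ℝ} (hK : 0 < K)
    (hdec : ∀ (s : ℕ → ℕ → ℝ) (κ : ℕ), IsArr s κ → ∀ n j t : ℕ, j ≤ κ → g s κ n j t ^ 2 ≤ K * R q (κ + 1 - j))
    (d κ : ℕ) (hd : κ + 1 ≤ d) (Φ : (ZMod 2)[X] → ℝ) (hΦ : ∀ f, |Φ f| ≤ 1) :
    (∑ f ∈ (FC.L d).filter (fun f => FC.odds d f = κ),
      (Φ (FC.S^[d] (comp d 0 f)) - Φ (FC.S^[d] (comp d 1 f)))) ^ 2 ≤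
      4 * 4 ^ d * (((κ : ℝ) + 2) * (K * (2 ^ q * R q (κ + 1)))) := by
  classical
  obtain ⟨w, h⟩ := exists_red (κ + 1)
  have := h.finite
  let _ : Fintype ((ZMod 2)[X] ⧸ Ideal.span {((X + 1) ^ (κ + 1) : (ZMod 2)[X])}) := Fintype.ofFinite _
  set π := Ideal.Quotient.mk (Ideal.span {((X + 1) ^ (κ + 1) : (ZMod 2)[X])}) with hπ
  -- the lift
  have hlift : ∀ v, ∃ f ∈ FC.D (κ + 1), π f = v := by
    intro v
    obtain ⟨f, hf, hfv⟩ := h.surj_L v
    refine ⟨f + (X + 1) ^ (κ + 1), ?_, ?_⟩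
    · rw [FC.mem_D]
      rw [FC.mem_L] at hf
      have h1 : ((X + 1) ^ (κ + 1) : (ZMod 2)[X]).degree = ((κ + 1 : ℕ) : WithBot ℕ) := by
        rw [degree_eq_natDegree (X1_monic.pow _).ne_zero, X1_pow_natDegree]
      rw [degree_add_eq_right_of_degree_lt, h1]
      rw [h1]; exact hf
    · have h1 : π ((X + 1) ^ (κ + 1)) = 0 := by rw [h.ker]
      rw [map_add, h1, add_zero, hfv]
  choose lift hl1 hl2 using hlift
  have hlu : ∀ f ∈ FC.D (κ + 1), lift (π f) = f := by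
    intro f hf
    apply h.inj _ (hl2 _)
    have h1 := hl1 (π f)
    have h0 : lift (π f) ≠ 0 := (FC.mem_D'.1 h1).1
    have h0' : f ≠ 0 := (FC.mem_D'.1 hf).1
    rw [FC.mem_D] at h1 hf
    have l1 : ∀ {p : (ZMod 2)[X]}, p ≠ 0 → p.leadingCoeff = 1 := by
      intro p hp
      rcases FC.zmod2 p.leadingCoeff with h2 | h2
      · exact absurd (leadingCoeff_eq_zero.1 h2) hp
      · exact h2
    have h2 := degree_sub_lt_left (p := lift (π f)) (q := f) (by rw [h1, hf]) h0 (by rw [l1 h0, l1 h0'])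
    rwa [h1] at h2
  have h1 := fixed_odds hK hdec h d hd (fun v => Φ (lift v)) (fun v => hΦ _)
  convert h1 using 2
  refine sum_congr rfl fun f hf => ?_
  rw [mem_filter] at hf
  obtain ⟨h2, h3⟩ := class_comp h d f hf.2
  have h4 := iter_mem (r := 0) hf.1
  have h5 := iter_mem (r := 1) hf.1
  rw [hf.2] at h4 h5
  rw [← h3, ← h2, hlu _ h4, hlu _ h5]

theorem card_odds_top (d : ℕ) : ((FC.L d).filter (fun f => FC.odds d f = d)).card ≤ 1 := by
  classical
  rw [card_le_one]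
  intro f hf f' hf'
  rw [mem_filter] at hf hf'
  have key : ∀ f, FC.odds d f = d → ∀ i < d, FC.par (FC.S^[i] f) = 1 := by
    intro f h i hi
    rw [FC.odds_card] at h
    have h1 : (range d).filter (fun i => FC.par (FC.S^[i] f) = 1) = range d := by
      apply eq_of_subset_of_card_le (filter_subset _ _)
      rw [h, card_range]
    have h2 : i ∈ (range d).filter (fun i => FC.par (FC.S^[i] f) = 1) := by rw [h1, mem_range]; exact hi
    exact (mem_filter.1 h2).2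
  have h1 := FC.par_inj (n := d) (f := f) (g := f') (fun i hi => by rw [key f hf.2 i hi, key f' hf'.2 i hi])
  by_contra hne
  have h3 : f - f' ≠ 0 := sub_ne_zero.2 hne
  have h5 := natDegree_le_of_dvd h1 h3
  rw [natDegree_X_pow] at h5
  have h2 : (f - f').degree < (d : WithBot ℕ) :=
    lt_of_le_of_lt (degree_sub_le _ _) (max_lt (FC.mem_L.1 hf.1) (FC.mem_L.1 hf'.1))
  rw [degree_eq_natDegree h3] at h2
  have h6 : (f - f').natDegree < d := by exact_mod_cast h2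
  omega

/-- FINE SCALE MIXING: the value at `1` of a random polynomial of degree `d + 1` has superpolynomially small
influence on its `d`-th accelerated iterate. -/
theorem mixing (a : ℕ) : ∃ C : ℝ, 0 < C ∧ ∀ (d : ℕ) (Φ : (ZMod 2)[X] → ℝ), (∀ f, |Φ f| ≤ 1) →
    |∑ f ∈ Cl 0 (d + 1), Φ (FC.S^[d] f) - ∑ f ∈ Cl 1 (d + 1), Φ (FC.S^[d] f)| ≤ 2 ^ d * (C / ((d : ℝ) + 1) ^ a) := by
  classical
  set q := 4 * a + 3 with hq
  obtain ⟨K, hK, hdec⟩ := decay q
  -- the exponential term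
  obtain ⟨C₁, hC₁⟩ : ∃ C₁ : ℝ, ∀ d : ℕ, ((d : ℝ) + 1) ^ a ≤ C₁ * 2 ^ d := by
    have h1 : Filter.Tendsto (fun l : ℕ => (l : ℝ) ^ a * (1 / 2 : ℝ) ^ l) Filter.atTop (nhds 0) :=
      tendsto_pow_const_mul_const_pow_of_abs_lt_one a (by norm_num [abs_of_pos])
    obtain ⟨B, hB⟩ := h1.bddAbove_range
    refine ⟨2 * B, fun d => ?_⟩
    have h2 := hB ⟨d + 1, rfl⟩
    simp only at h2
    rw [one_div_pow, mul_one_div, div_le_iff₀ (by positivity)] at h2
    push_cast at h2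
    rw [pow_succ] at h2
    linarith
  have hC₁0 : 0 < C₁ := by
    have := hC₁ 0
    simp at this
    linarith
  set C₂ : ℝ := 16 * (K * (2 ^ q * 2 ^ q)) * 2 + 1 with hC₂
  have hC₂0 : 0 < C₂ := by rw [hC₂]; positivity
  refine ⟨C₂ + 2 * C₁, by positivity, ?_⟩
  intro d Φ hΦ
  rw [sum_Cl, sum_Cl, ← sum_sub_distrib]
  set G : (ZMod 2)[X] → ℝ := fun f => Φ (FC.S^[d] (comp d 0 f)) - Φ (FC.S^[d] (comp d 1 f)) with hG
  set x : ℕ → ℝ := fun κ => |∑ f ∈ (FC.L d).filter (fun f => FC.odds d f = κ), G f| with hx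
  set c : ℕ → ℝ := fun κ => (((FC.L d).filter (fun f => FC.odds d f = κ)).card : ℝ) with hc
  set e : ℕ → ℝ := fun κ => ((κ : ℝ) + 2) * (K * (2 ^ q * R q (κ + 1))) with he
  have he0 : ∀ κ, 0 ≤ e κ := by
    intro κ
    have := R_pos q (κ + 1)
    simp only [he]
    positivity
  have hx0 : ∀ κ, 0 ≤ x κ := fun κ => abs_nonneg _
  have hc0 : ∀ κ, 0 ≤ c κ := fun κ => Nat.cast_nonneg _
  have hG2 : ∀ f, |G f| ≤ 2 := by
    intro f
    simp only [hG]
    have h1 := hΦ (FC.S^[d] (comp d 0 f))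
    have h2 := hΦ (FC.S^[d] (comp d 1 f))
    rw [abs_le] at h1 h2 ⊢
    constructor <;> linarith [h1.1, h1.2, h2.1, h2.2]
  have hx1 : ∀ κ, x κ ≤ 2 * c κ := by
    intro κ
    simp only [hx, hc]
    refine (abs_sum_le_sum_abs _ _).trans ?_
    refine (sum_le_sum fun f _ => hG2 f).trans ?_
    rw [sum_const, nsmul_eq_mul, mul_comm]
  have hx2 : ∀ κ < d, x κ ^ 2 ≤ 4 * 4 ^ d * e κ := by
    intro κ hκ
    simp only [hx, sq_abs]
    exact mix_fixed hK hdec d κ hκ Φ hΦ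
  have hsum : ∑ f ∈ FC.L d, G f = ∑ κ ∈ range (d + 1), ∑ f ∈ (FC.L d).filter (fun f => FC.odds d f = κ), G f := by
    rw [sum_fiberwise_of_maps_to]
    intro f _
    rw [mem_range]
    have := FC.odds_le d f
    omega
  have h1 : |∑ f ∈ FC.L d, G f| ≤ ∑ κ ∈ range d, x κ + x d := by
    rw [hsum]
    refine (abs_sum_le_sum_abs _ _).trans ?_
    rw [sum_range_succ]
  have h2 : x d ≤ 2 := by
    refine (hx1 d).trans ?_
    have : c d ≤ 1 := by simp only [hc]; exact_mod_cast card_odds_top d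
    linarith
  -- the main sum
  set Y := ∑ κ ∈ range d, x κ with hY
  have hY0 : 0 ≤ Y := sum_nonneg fun κ _ => hx0 κ
  have h3 : Y ^ 2 ≤ d * ∑ κ ∈ range d, x κ ^ 2 := by
    have := sq_sum_le_card_mul_sum_sq (s := range d) (f := x)
    rwa [card_range] at this
  have h4 : ∑ κ ∈ range d, x κ ^ 2 ≤ 4 * 2 ^ d * ∑ κ ∈ range d, c κ * √(e κ) := by
    rw [mul_sum]
    refine sum_le_sum fun κ hκ => ?_
    rw [mem_range] at hκ
    have h5 : x κ ≤ 2 * 2 ^ d * √(e κ) := by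
      have h6 := Real.sqrt_le_sqrt (hx2 κ hκ)
      rw [Real.sqrt_sq (hx0 κ), Real.sqrt_mul (by positivity)] at h6
      have h7 : √(4 * 4 ^ d : ℝ) = 2 * 2 ^ d := by
        have : (4 * 4 ^ d : ℝ) = (2 * 2 ^ d) ^ 2 := by
          have h8 : (4 : ℝ) ^ d = 2 ^ d * 2 ^ d := by rw [← mul_pow]; norm_num
          rw [h8]; ring
        rw [this, Real.sqrt_sq (by positivity)]
      rwa [h7] at h6
    calc x κ ^ 2 = x κ * x κ := by ring
      _ ≤ (2 * c κ) * (2 * 2 ^ d * √(e κ)) := mul_le_mul (hx1 κ) h5 (hx0 κ) (by have := hc0 κ; positivity)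
      _ = _ := by ring
  have h5 : (∑ κ ∈ range d, c κ * √(e κ)) ^ 2 ≤ 2 ^ d * (2 ^ d * P d e 0) := by
    have h6 : (∑ κ ∈ range d, c κ * √(e κ)) ^ 2 ≤ (∑ κ ∈ range d, c κ) * ∑ κ ∈ range d, c κ * e κ := by
      have h7 := sum_mul_sq_le_sq_mul_sq (range d) (fun κ => √(c κ)) (fun κ => √(c κ) * √(e κ))
      have e1 : ∀ κ, √(c κ) * (√(c κ) * √(e κ)) = c κ * √(e κ) := by
        intro κ
        rw [← mul_assoc, Real.mul_self_sqrt (hc0 κ)]
      have e2 : ∀ κ, √(c κ) ^ 2 = c κ := fun κ => Real.sq_sqrt (hc0 κ)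
      have e3 : ∀ κ, (√(c κ) * √(e κ)) ^ 2 = c κ * e κ := by
        intro κ
        rw [mul_pow, Real.sq_sqrt (hc0 κ), Real.sq_sqrt (he0 κ)]
      rw [sum_congr rfl fun κ _ => e1 κ, sum_congr rfl fun κ _ => e2 κ, sum_congr rfl fun κ _ => e3 κ] at h7
      exact h7
    refine h6.trans ?_
    have h8 : ∀ F : ℕ → ℝ, ∑ κ ∈ range (d + 1), c κ * F κ = 2 ^ d * P d F 0 := by
      intro F
      rw [← sum_odds, ← sum_fiberwise_of_maps_to (s := FC.L d) (t := range (d + 1)) (g := fun f => FC.odds d f)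
        (fun f _ => by rw [mem_range]; have := FC.odds_le d f; omega)]
      refine sum_congr rfl fun r _ => ?_
      rw [sum_congr rfl (g := fun _ => F r) (fun f hf => by rw [(mem_filter.1 hf).2]), sum_const, nsmul_eq_mul]
    have h9 : ∑ κ ∈ range d, c κ ≤ 2 ^ d := by
      have h10 := h8 (fun _ => 1)
      rw [P_const, mul_one, sum_range_succ] at h10
      simp only [mul_one] at h10
      have := hc0 d
      linarith
    have h11 : ∑ κ ∈ range d, c κ * e κ ≤ 2 ^ d * P d e 0 := by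
      have h10 := h8 e
      rw [sum_range_succ] at h10
      have := mul_nonneg (hc0 d) (he0 d)
      linarith
    exact mul_le_mul h9 h11 (sum_nonneg fun κ _ => mul_nonneg (hc0 κ) (he0 κ)) (by positivity)
  have h6 : P d e 0 ≤ ((d : ℝ) + 2) * (K * (2 ^ q * (2 ^ q * R q d))) := by
    have h7 : P d e 0 ≤ P d (fun i => (((d : ℝ) + 2) * (K * 2 ^ q)) * R q i) 0 := by
      apply P_mono
      intro i hi
      simp only [he, zero_add]
      have h8 : R q (i + 1) ≤ R q i := R_anti q (by omega)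
      have h9 : (i : ℝ) ≤ d := by exact_mod_cast hi
      have h10 := R_pos q i
      have h11 := R_pos q (i + 1)
      calc ((i : ℝ) + 2) * (K * (2 ^ q * R q (i + 1))) ≤ ((d : ℝ) + 2) * (K * (2 ^ q * R q i)) := by
            apply mul_le_mul _ _ (by positivity) (by positivity)
            · linarith
            · exact mul_le_mul_of_nonneg_left (mul_le_mul_of_nonneg_left h8 (by positivity)) hK.le
        _ = _ := by ring
    rw [P_smul] at h7
    refine h7.trans ?_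
    have h8 := mul_le_mul_of_nonneg_left (P_R' q d) (show 0 ≤ ((d : ℝ) + 2) * (K * 2 ^ q) by positivity)
    linarith
  have hPe0 : 0 ≤ P d e 0 := by
    have := P_mono (m := d) (F := fun _ => 0) (G := e) (a := 0) (fun i _ => he0 _)
    rwa [P_const] at this
  have hd1 : (0 : ℝ) < (d : ℝ) + 1 := by positivity
  have h7 : (Y / 2 ^ d) ^ 4 ≤ C₂ / ((d : ℝ) + 1) ^ (4 * a) := by
    have h8 : Y ^ 4 ≤ 16 * (d : ℝ) ^ 2 * (16 ^ d * P d e 0) := by
      have hZ0 : 0 ≤ ∑ κ ∈ range d, c κ * √(e κ) := sum_nonneg fun κ _ => mul_nonneg (hc0 κ) (Real.sqrt_nonneg _)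
      have h9 : Y ^ 2 ≤ d * (4 * 2 ^ d * ∑ κ ∈ range d, c κ * √(e κ)) :=
        h3.trans (mul_le_mul_of_nonneg_left h4 (Nat.cast_nonneg d))
      calc Y ^ 4 = (Y ^ 2) ^ 2 := by ring
        _ ≤ (d * (4 * 2 ^ d * ∑ κ ∈ range d, c κ * √(e κ))) ^ 2 := pow_le_pow_left₀ (sq_nonneg _) h9 2
        _ = 16 * (d : ℝ) ^ 2 * (2 ^ d * 2 ^ d) * (∑ κ ∈ range d, c κ * √(e κ)) ^ 2 := by ring
        _ ≤ 16 * (d : ℝ) ^ 2 * (2 ^ d * 2 ^ d) * (2 ^ d * (2 ^ d * P d e 0)) := mul_le_mul_of_nonneg_left h5 (by positivity)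
        _ = 16 * (d : ℝ) ^ 2 * (16 ^ d * P d e 0) := by
          have : (16 : ℝ) ^ d = 2 ^ d * 2 ^ d * (2 ^ d * 2 ^ d) := by rw [← mul_pow, ← mul_pow]; norm_num
          rw [this]; ring
    rw [div_pow, div_le_div_iff₀ (by positivity) (by positivity)]
    have h9 : ((2 : ℝ) ^ d) ^ 4 = 16 ^ d := by rw [← pow_mul, mul_comm, pow_mul]; norm_num
    rw [h9]
    have h10 : P d e 0 * ((d : ℝ) + 1) ^ (4 * a + 2) ≤ 2 * (K * (2 ^ q * 2 ^ q)) := by
      have h11 := R_le q d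
      have h12 : ((d : ℝ) + 2) ≤ 2 * ((d : ℝ) + 1) := by linarith [(Nat.cast_nonneg d : (0 : ℝ) ≤ d)]
      have h13 := R_pos q d
      calc P d e 0 * ((d : ℝ) + 1) ^ (4 * a + 2) ≤
            (((d : ℝ) + 2) * (K * (2 ^ q * (2 ^ q * R q d)))) * ((d : ℝ) + 1) ^ (4 * a + 2) :=
            mul_le_mul_of_nonneg_right h6 (by positivity)
        _ ≤ ((2 * ((d : ℝ) + 1)) * (K * (2 ^ q * (2 ^ q * R q d)))) * ((d : ℝ) + 1) ^ (4 * a + 2) :=
            mul_le_mul_of_nonneg_right (mul_le_mul_of_nonneg_right h12 (by positivity)) (by positivity)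
        _ = 2 * (K * (2 ^ q * 2 ^ q)) * (R q d * ((d : ℝ) + 1) ^ q) := by
            have : ((d : ℝ) + 1) ^ q = ((d : ℝ) + 1) ^ (4 * a + 2) * ((d : ℝ) + 1) := by rw [← pow_succ]
            rw [this]; ring
        _ ≤ 2 * (K * (2 ^ q * 2 ^ q)) * 1 := mul_le_mul_of_nonneg_left h11 (by positivity)
        _ = _ := by ring
    have h14 : (d : ℝ) ^ 2 ≤ ((d : ℝ) + 1) ^ 2 := by
      apply pow_le_pow_left₀ (Nat.cast_nonneg d); linarith
    calc Y ^ 4 * ((d : ℝ) + 1) ^ (4 * a) ≤ (16 * (d : ℝ) ^ 2 * (16 ^ d * P d e 0)) * ((d : ℝ) + 1) ^ (4 * a) :=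
          mul_le_mul_of_nonneg_right h8 (by positivity)
      _ ≤ (16 * ((d : ℝ) + 1) ^ 2 * (16 ^ d * P d e 0)) * ((d : ℝ) + 1) ^ (4 * a) := by
          apply mul_le_mul_of_nonneg_right _ (by positivity)
          apply mul_le_mul_of_nonneg_right _ (by positivity)
          linarith
      _ = 16 * 16 ^ d * (P d e 0 * ((d : ℝ) + 1) ^ (4 * a + 2)) := by rw [pow_add]; ring
      _ ≤ 16 * 16 ^ d * (2 * (K * (2 ^ q * 2 ^ q))) := mul_le_mul_of_nonneg_left h10 (by positivity)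
      _ ≤ C₂ * 16 ^ d := by
          rw [hC₂]
          have : (0 : ℝ) < 16 ^ d := by positivity
          nlinarith
  have h8 : Y / 2 ^ d ≤ C₂ / ((d : ℝ) + 1) ^ a := by
    have h9 : (Y / 2 ^ d) ^ 4 ≤ (C₂ / ((d : ℝ) + 1) ^ a) ^ 4 := by
      refine h7.trans ?_
      rw [div_pow, ← pow_mul, mul_comm a 4]
      apply div_le_div_of_nonneg_right _ (by positivity)
      have h10 : 1 ≤ C₂ := by
        rw [hC₂]
        have : 0 ≤ 16 * (K * (2 ^ q * 2 ^ q)) * 2 := by positivity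
        linarith
      exact le_self_pow₀ h10 (by norm_num)
    by_contra hcon
    rw [not_le] at hcon
    have h10 : 0 ≤ C₂ / ((d : ℝ) + 1) ^ a := by positivity
    have h11 := pow_lt_pow_left₀ hcon h10 (show (4 : ℕ) ≠ 0 by norm_num)
    linarith
  have h9 : x d ≤ 2 ^ d * (2 * C₁ / ((d : ℝ) + 1) ^ a) := by
    refine h2.trans ?_
    rw [← mul_div_assoc, le_div_iff₀ (by positivity)]
    have := hC₁ d
    linarith
  have h10 : Y ≤ 2 ^ d * (C₂ / ((d : ℝ) + 1) ^ a) := by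
    rw [div_le_iff₀ (by positivity)] at h8
    linarith
  calc |∑ f ∈ FC.L d, G f| ≤ Y + x d := h1
    _ ≤ 2 ^ d * (C₂ / ((d : ℝ) + 1) ^ a) + 2 ^ d * (2 * C₁ / ((d : ℝ) + 1) ^ a) := add_le_add h10 h9
    _ = 2 ^ d * ((C₂ + 2 * C₁) / ((d : ℝ) + 1) ^ a) := by ring

end Pool.Agent.H618.PM
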