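import Pool.Agent.H618.PM.TV

/-! # Exponential decay of the upper tail in the random walk model -/

set_option autoImplicit false

namespace Pool.Agent.H618.PM

open Polynomial Finset Pool.Agent.Q74

theorem nb_hasSum_geom (k : ℕ) (l : ℝ) (hl0 : 0 < l) (hl2 : l < 2) :
    HasSum (fun j => nb k j * l ^ j) (((2 - l)⁻¹) ^ k) := by
  rcases k with _ | k
  · have : (fun j => nb 0 j * l ^ j) = fun j => if j = 0 then 1 else 0 := by
      funext j
      rcases j with _ | j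
      · simp [nb_zero_zero]
      · rw [nb_zero_succ, if_neg (by omega), zero_mul]
    rw [this, pow_zero]
    exact hasSum_ite_eq 0 1
  · have h := hasSum_choose_mul_geometric_of_norm_lt_one (𝕜 := ℝ) k (r := l / 2) (by
      rw [Real.norm_of_nonneg (by positivity)]; linarith)
    have h2 := h.mul_right (1 / 2 ^ (k + 1) : ℝ)
    have hne : (2 - l) ≠ 0 := by linarith
    have e : (1 : ℝ) / (1 - l / 2) ^ (k + 1) * (1 / 2 ^ (k + 1)) = ((2 - l)⁻¹) ^ (k + 1) := by
      have : (1 - l / 2 : ℝ) = (2 - l) / 2 := by ring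
      rw [this, inv_pow, div_pow]
      field_simp
    rw [e] at h2
    have hfun : (fun j => nb (k + 1) j * l ^ j) = fun i : ℕ => ((i + k).choose k : ℝ) * (l / 2) ^ i * (1 / 2 ^ (k + 1)) := by
     funext j
     unfold nb
     have e1 : k + 1 + j - 1 = j + k := by omega
     have e2 : (j + k).choose j = (j + k).choose k := Nat.choose_symm_add
     rw [e1, e2]
     have e3 : (2 : ℝ) ^ (k + 1 + j) = 2 ^ j * 2 ^ (k + 1) := by rw [← pow_add]; congr 1; ring
     rw [e3, div_pow]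
     field_simp
    rw [hfun]
    exact h2

theorem nb_tail (B : ℝ) (hB : 2 < B) : ∃ q : ℝ, 0 < q ∧ q < 1 ∧ ∀ n : ℕ,
    ∑' j : ℕ, (if B * n ≤ ((n + j : ℕ) : ℝ) then nb n j else 0) ≤ q ^ n := by
  obtain ⟨l, hl1, hl2, hl3⟩ : ∃ l : ℝ, 1 < l ∧ l < 2 ∧ 1 < l ^ (B - 1) * (2 - l) := by
    have hd : HasDerivAt (fun l : ℝ => l ^ (B - 1) * (2 - l)) ((B - 1) * 1 ^ (B - 1 - 1) * (2 - 1) + 1 ^ (B - 1) * (-1)) 1 := by
      have h1 := Real.hasDerivAt_rpow_const (x := (1 : ℝ)) (p := B - 1) (Or.inl one_ne_zero)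
      have h2 : HasDerivAt (fun l : ℝ => 2 - l) (-1) 1 := by
        have := (hasDerivAt_id (1 : ℝ)).const_sub 2
        exact this
      exact h1.mul h2
    rw [Real.one_rpow, Real.one_rpow] at hd
    have hpos : 0 < (B - 1) * 1 * (2 - 1) + 1 * (-1) := by linarith
    have h3 := hd.tendsto_slope
    have h4 := h3.eventually (lt_mem_nhds hpos)
    have h5 : ∀ᶠ l in nhdsWithin (1 : ℝ) (Set.Ioi 1), 0 < slope (fun l : ℝ => l ^ (B - 1) * (2 - l)) 1 l :=
      h4.filter_mono (nhdsWithin_mono _ (fun x hx => ne_of_gt hx))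
    have h6 : ∀ᶠ l in nhdsWithin (1 : ℝ) (Set.Ioi 1), l < 2 :=
      mem_nhdsWithin_of_mem_nhds (Iio_mem_nhds (by norm_num))
    obtain ⟨l, ⟨hl, hl2⟩, hl'⟩ := ((h5.and h6).and self_mem_nhdsWithin).exists
    refine ⟨l, hl', hl2, ?_⟩
    rw [slope_def_field] at hl
    have hl'' : 0 < l - 1 := sub_pos.2 hl'
    rw [lt_div_iff₀ hl'', zero_mul, Real.one_rpow] at hl
    linarith
  have hl0 : 0 < l := by linarith
  have hpos : 0 < l ^ (B - 1) := Real.rpow_pos_of_pos hl0 _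
  refine ⟨(l ^ (B - 1) * (2 - l))⁻¹, inv_pos.2 (by linarith), inv_lt_one_of_one_lt₀ hl3, ?_⟩
  intro n
  have hs := nb_hasSum_geom n l hl0 hl2
  have hs2 := hs.mul_right (((l ^ (B - 1))⁻¹) ^ n)
  have hle : ∀ j : ℕ, (if B * n ≤ ((n + j : ℕ) : ℝ) then nb n j else 0) ≤ nb n j * l ^ j * ((l ^ (B - 1))⁻¹) ^ n := by
    intro j
    have hnn : 0 ≤ nb n j * l ^ j * ((l ^ (B - 1))⁻¹) ^ n := by
      have := nb_nonneg n j
      positivity
    split_ifs with h
    · push_cast at h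
      have h1 : 1 ≤ l ^ j * ((l ^ (B - 1))⁻¹) ^ n := by
        rw [inv_pow, ← div_eq_mul_inv, one_le_div (by positivity), ← Real.rpow_natCast l j, ← Real.rpow_natCast (l ^ (B - 1)) n,
          ← Real.rpow_mul hl0.le]
        apply Real.rpow_le_rpow_of_exponent_le hl1.le
        linarith
      calc nb n j = nb n j * 1 := (mul_one _).symm
        _ ≤ nb n j * (l ^ j * ((l ^ (B - 1))⁻¹) ^ n) := mul_le_mul_of_nonneg_left h1 (nb_nonneg n j)
        _ = _ := by ring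
    · exact hnn
  have hsum : Summable (fun j : ℕ => (if B * n ≤ ((n + j : ℕ) : ℝ) then nb n j else 0)) := by
    apply Summable.of_nonneg_of_le _ hle hs2.summable
    intro j
    split_ifs
    · exact nb_nonneg n j
    · exact le_rfl
  calc ∑' j : ℕ, (if B * n ≤ ((n + j : ℕ) : ℝ) then nb n j else 0)
      ≤ ∑' j : ℕ, nb n j * l ^ j * ((l ^ (B - 1))⁻¹) ^ n := hsum.tsum_le_tsum hle hs2.summable
    _ = ((2 - l)⁻¹) ^ n * ((l ^ (B - 1))⁻¹) ^ n := hs2.tsum_eq
    _ = ((l ^ (B - 1) * (2 - l))⁻¹) ^ n := by rw [← mul_pow, mul_inv, mul_comm (2 - l)⁻¹]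

end Pool.Agent.H618.PM
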