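import Pool.Agent.H618.PM.Mix

/-! # The number of odd steps before reaching 1 -/

set_option autoImplicit false

namespace Pool.Agent.H618.PM

open Polynomial Finset Pool.Agent.Q74

theorem tm_one : FC.tm 1 = 0 := by
  have h : FC.tm 1 ≤ 0 := Nat.sInf_le (s := {k : ℕ | FC.T^[k] 1 = 1}) (by simp)
  omega

theorem tm_pos {f : (ZMod 2)[X]} (h0 : f ≠ 0) (h1 : f ≠ 1) : 0 < FC.tm f := by
  rcases Nat.eq_zero_or_pos (FC.tm f) with h | h
  · have := FC.tm_spec h0
    rw [h] at this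
    exact absurd this h1
  · exact h

theorem T_ne_zero {f : (ZMod 2)[X]} (h0 : f ≠ 0) : FC.T f ≠ 0 := by
  unfold FC.T
  split_ifs with h
  · intro h2
    have h3 : ((X + 1) * f + 1 : (ZMod 2)[X]).eval 1 = 0 := by rw [h2]; simp
    simp only [eval_add, eval_mul, eval_X, eval_one] at h3
    have : (1 + 1 : ZMod 2) = 0 := by decide
    rw [this, zero_mul, zero_add] at h3
    exact one_ne_zero h3
  · intro h2
    have h3 := divX_mul_X_add f
    have h4 : f.coeff 0 = 0 := by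
      rcases FC.zmod2 (f.coeff 0) with h5 | h5
      · exact h5
      · exact absurd h5 h
    rw [h2, h4, zero_mul, map_zero, zero_add] at h3
    exact h0 h3.symm

theorem tm_succ {f : (ZMod 2)[X]} (h0 : f ≠ 0) (h1 : f ≠ 1) : FC.tm f = FC.tm (FC.T f) + 1 := by
  apply le_antisymm
  · apply Nat.sInf_le
    change FC.T^[FC.tm (FC.T f) + 1] f = 1
    rw [Function.iterate_succ_apply]
    exact FC.tm_spec (T_ne_zero h0)
  · have h2 := tm_pos h0 h1
    obtain ⟨k, hk⟩ : ∃ k, FC.tm f = k + 1 := ⟨FC.tm f - 1, by omega⟩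
    have h3 := FC.tm_spec h0
    rw [hk, Function.iterate_succ_apply] at h3
    have h4 : FC.tm (FC.T f) ≤ k := Nat.sInf_le h3
    omega

theorem one_odd : FC.par 1 = 1 := by unfold FC.par; simp

theorem tm_even {f : (ZMod 2)[X]} (h0 : f ≠ 0) (h : FC.par f = 0) : FC.tm f = FC.tm (FC.S f) + 1 := by
  have h1 : f ≠ 1 := by rintro rfl; rw [one_odd] at h; omega
  rw [tm_succ h0 h1, FC.T_even h]

theorem tm_odd {f : (ZMod 2)[X]} (h1 : f ≠ 1) (h : FC.par f = 1) : FC.tm f = FC.tm (FC.S f) + 2 := by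
  have h0 := FC.odd_ne_zero h
  rw [tm_succ h0 h1]
  have h2 : FC.T f ≠ 1 := by
    rcases FC.par_cases f with ⟨h3, _⟩ | ⟨_, h3⟩
    · omega
    · unfold FC.T
      rw [if_pos h3]
      intro h4
      have h5 : ((X + 1) * f : (ZMod 2)[X]) = 0 := by
        have : (X + 1) * f + 1 - 1 = (0 : (ZMod 2)[X]) := by rw [h4, sub_self]
        rwa [add_sub_cancel_right] at this
      rcases mul_eq_zero.1 h5 with h6 | h6
      · exact FC.X_add_one_ne h6
      · exact h0 h6
  rw [tm_succ (T_ne_zero h0) h2, FC.T_odd h]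

/-- number of odd steps before reaching `1` -/
noncomputable def nu (f : (ZMod 2)[X]) : ℕ := (FC.tm f - f.natDegree) / 2

theorem tm_eq : ∀ (n : ℕ) (f : (ZMod 2)[X]), f ≠ 0 → FC.tm f = n → FC.tm f = f.natDegree + 2 * nu f := by
  intro n
  induction n using Nat.strong_induction_on with
  | _ n ih =>
  intro f h0 hn
  by_cases h1 : f = 1
  · subst h1
    unfold nu
    rw [tm_one]
    simp
  · have hS := FC.S_ne_zero h0
    rcases FC.par_cases f with ⟨h2, _⟩ | ⟨h2, _⟩
    · have h3 := tm_even h0 h2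
      have h4 := ih (FC.tm (FC.S f)) (by omega) (FC.S f) hS.1 rfl
      have h5 := hS.2
      unfold nu
      omega
    · have h3 := tm_odd h1 h2
      have h4 := ih (FC.tm (FC.S f)) (by omega) (FC.S f) hS.1 rfl
      have h5 := hS.2
      unfold nu
      omega

theorem tm_nu {f : (ZMod 2)[X]} (h0 : f ≠ 0) : FC.tm f = f.natDegree + 2 * nu f := tm_eq _ f h0 rfl

theorem nu_one : nu 1 = 0 := by unfold nu; rw [tm_one]; simp

theorem nu_even {f : (ZMod 2)[X]} (h0 : f ≠ 0) (h : FC.par f = 0) : nu f = nu (FC.S f) := by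
  have h1 := tm_even h0 h
  have h2 := tm_nu h0
  have hS := FC.S_ne_zero h0
  have h3 := tm_nu hS.1
  have h4 := hS.2
  omega

theorem nu_odd {f : (ZMod 2)[X]} (h1 : f ≠ 1) (h : FC.par f = 1) : nu f = nu (FC.S f) + 1 := by
  have h0 := FC.odd_ne_zero h
  have h1 := tm_odd h1 h
  have h2 := tm_nu h0
  have hS := FC.S_ne_zero h0
  have h3 := tm_nu hS.1
  have h4 := hS.2
  omega

theorem nu_le {f : (ZMod 2)[X]} (h0 : f ≠ 0) : nu f ≤ (f.natDegree + 1) * (f.natDegree + 2) := by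
  have h1 := FC.tm_le h0
  unfold nu
  omega

/-- `d` accelerated steps, starting in degree more than `d` -/
theorem nu_iter {f : (ZMod 2)[X]} (h0 : f ≠ 0) : ∀ d : ℕ, d ≤ f.natDegree → nu f = FC.odds d f + nu (FC.S^[d] f) := by
  intro d
  induction d with
  | zero => intro _; simp [FC.odds]
  | succ d ih =>
    intro hd
    have h1 := ih (by omega)
    obtain ⟨h2, h3⟩ := FC.S_iter_ne h0 d
    have h4 : FC.S^[d] f ≠ 1 := by
      intro h5
      rw [h5, natDegree_one] at h3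
      have := FC.odds_le d f
      omega
    rw [h1, Function.iterate_succ_apply']
    simp only [FC.odds]
    rcases FC.par_cases (FC.S^[d] f) with ⟨h5, _⟩ | ⟨h5, _⟩
    · rw [nu_even h2 h5, h5]; ring
    · rw [nu_odd h4 h5, h5]; ring

theorem nu_deg {f : (ZMod 2)[X]} {d : ℕ} (hf : f ∈ FC.D (d + 1)) :
    nu f = ((FC.S^[d] f).natDegree - 1) + nu (FC.S^[d] f) := by
  rw [FC.mem_D'] at hf
  rw [nu_iter hf.1 d (by omega)]
  have := (FC.S_iter_ne hf.1 d).2
  omega

/-! ### one step -/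

theorem D_split (n : ℕ) (F : (ZMod 2)[X] → ℝ) :
    ∑ f ∈ FC.D n, F f = ∑ f ∈ Cl 0 n, F f + ∑ f ∈ Cl 1 n, F f := by
  classical
  have h1 : FC.D n = Cl 0 n ∪ Cl 1 n := by
    ext f
    rw [mem_union, mem_Cl, mem_Cl]
    constructor
    · intro h
      rcases FC.zmod2 (f.eval 1) with h2 | h2
      · left; exact ⟨h, h2⟩
      · right; exact ⟨h, h2⟩
    · rintro (h | h) <;> exact h.1
  rw [h1, sum_union]
  rw [disjoint_left]
  intro f h2 h3
  rw [mem_Cl] at h2 h3
  have := h2.2.symm.trans h3.2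
  exact absurd this (by decide)

/-- the odd polynomials of degree `n` -/
noncomputable def Od (n : ℕ) : Finset ((ZMod 2)[X]) := by
  classical
  exact (FC.D n).filter (fun f => FC.par f = 1)

theorem mem_Od {n : ℕ} {f : (ZMod 2)[X]} : f ∈ Od n ↔ f ∈ FC.D n ∧ FC.par f = 1 := by
  classical
  unfold Od
  rw [mem_filter]

theorem X_mul_mem {n : ℕ} {f : (ZMod 2)[X]} (hf : f ∈ FC.D n) : X * f ∈ FC.D (n + 1) := by
  rw [FC.mem_D'] at hf ⊢
  refine ⟨mul_ne_zero X_ne_zero hf.1, ?_⟩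
  rw [natDegree_X_mul hf.1, hf.2]

theorem S_X_mul (f : (ZMod 2)[X]) : FC.par (X * f) = 0 ∧ FC.S (X * f) = f := by
  have h1 : FC.par (X * f) = 0 := by unfold FC.par; simp
  refine ⟨h1, ?_⟩
  have h2 := FC.X_mul_S (X * f)
  rw [h1, pow_zero, one_mul, Nat.cast_zero, map_zero, add_zero] at h2
  exact mul_left_cancel₀ X_ne_zero h2

theorem even_odd_split (n : ℕ) (F : (ZMod 2)[X] → ℝ) :
    ∑ f ∈ FC.D (n + 1), F f = ∑ f ∈ FC.D n, F (X * f) + ∑ f ∈ Od (n + 1), F f := by
  classical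
  have h1 : FC.D (n + 1) = (FC.D n).image (fun f => X * f) ∪ Od (n + 1) := by
    ext f
    rw [mem_union, mem_image, mem_Od]
    constructor
    · intro h
      rcases FC.par_cases f with ⟨h2, h3⟩ | ⟨h2, _⟩
      · left
        refine ⟨f.divX, ?_, ?_⟩
        · rw [FC.mem_D'] at h ⊢
          constructor
          · intro h4
            have h5 := divX_mul_X_add f
            rw [h4, h3, zero_mul, map_zero, add_zero] at h5
            exact h.1 h5.symm
          · rw [natDegree_divX_eq_natDegree_tsub_one, h.2]; omega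
        · have h5 := divX_mul_X_add f
          rw [h3, map_zero, add_zero, mul_comm] at h5
          exact h5
      · right; exact ⟨h, h2⟩
    · rintro (⟨a, ha, rfl⟩ | h)
      · exact X_mul_mem ha
      · exact h.1
  have h2 : Disjoint ((FC.D n).image (fun f => X * f)) (Od (n + 1)) := by
    rw [disjoint_left]
    intro f hf hf2
    rw [mem_image] at hf
    obtain ⟨a, _, rfl⟩ := hf
    rw [mem_Od] at hf2
    rw [(S_X_mul a).1] at hf2
    exact absurd hf2.2 (by decide)
  rw [h1, sum_union h2, sum_image (fun a _ b _ hab => mul_left_cancel₀ X_ne_zero hab)]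

theorem sum_Od (n : ℕ) (F : (ZMod 2)[X] → ℝ) : ∑ f ∈ Od (n + 1), F (FC.S f) = ∑ f ∈ Cl 1 (n + 1), F f := by
  classical
  apply sum_bij (fun f _ => FC.S f)
  · intro f hf
    rw [mem_Od, FC.mem_D'] at hf
    rw [mem_Cl, FC.mem_D']
    have h1 := FC.S_ne_zero hf.1.1
    refine ⟨⟨h1.1, ?_⟩, ?_⟩
    · have := h1.2
      rw [hf.2, hf.1.2] at this
      omega
    · have h2 := FC.X_mul_S f
      rw [hf.2, pow_one, Nat.cast_one, map_one] at h2
      have h3 := congrArg (eval 1) h2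
      simp only [eval_mul, eval_add, eval_X, eval_one, one_mul] at h3
      rw [h3]
      have : (1 + 1 : ZMod 2) = 0 := by decide
      rw [this, zero_mul, zero_add]
  · intro f hf g hg he
    rw [mem_Od] at hf hg
    have h2 := FC.X_mul_S f
    have h3 := FC.X_mul_S g
    rw [hf.2, he] at h2
    rw [hg.2] at h3
    rw [h2, pow_one] at h3
    have h4 : (X + 1) * f = (X + 1) * g := by
      have := add_right_cancel h3
      exact this
    exact mul_left_cancel₀ FC.X_add_one_ne h4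
  · intro g hg
    rw [mem_Cl, FC.mem_D'] at hg
    have h1 : (X + 1 : (ZMod 2)[X]) ∣ X * g + 1 := by
      have h7 : (X - C (1 : ZMod 2)) ∣ X * g + 1 := by
        rw [dvd_iff_isRoot, IsRoot]
        simp only [eval_mul, eval_add, eval_X, eval_one, one_mul]
        rw [hg.2]
        decide
      have h8 : (X - C (1 : ZMod 2)) = (X + 1 : (ZMod 2)[X]) := by
        rw [map_one, sub_eq_add_neg]
        congr 1
        rw [neg_eq_iff_add_eq_zero, CharTwo.add_self_eq_zero]
      rwa [h8] at h7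
    obtain ⟨f, hf⟩ := h1
    have hc : f.coeff 0 = 1 := by
      have h2 := congrArg (fun p => p.coeff 0) hf
      simp only [coeff_add, mul_coeff_zero, coeff_X_zero, zero_mul, coeff_one_zero, zero_add, one_mul] at h2
      exact h2.symm
    have hp : FC.par f = 1 := by unfold FC.par; rw [if_pos hc]
    have h0 := FC.odd_ne_zero hp
    have hS : FC.S f = g := by
      have h2 := FC.X_mul_S f
      rw [hp, pow_one, Nat.cast_one, map_one, ← hf] at h2
      have h3 : X * FC.S f = X * g := by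
        rw [h2, add_assoc, CharTwo.add_self_eq_zero, add_zero]
      exact mul_left_cancel₀ X_ne_zero h3
    refine ⟨f, ?_, hS⟩
    rw [mem_Od, FC.mem_D']
    refine ⟨⟨h0, ?_⟩, hp⟩
    have h3 := (FC.S_ne_zero h0).2
    rw [hS, hp, hg.1.2] at h3
    omega
  · intro f _; rfl

/-- averages of functions of `nu` in degree `n` -/
noncomputable def av (n : ℕ) (F : ℕ → ℝ) : ℝ := (∑ f ∈ FC.D n, F (nu f)) / 2 ^ n

theorem av_recursion (n : ℕ) (F : ℕ → ℝ) : av (n + 1) F = av n F / 2 + av (n + 1) (fun k => F (k + 1)) / 2 +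
    (∑ f ∈ Cl 1 (n + 1), F (nu f + 1) - ∑ f ∈ Cl 0 (n + 1), F (nu f + 1)) / 2 / 2 ^ (n + 1) := by
  unfold av
  rw [even_odd_split]
  have h1 : ∑ f ∈ FC.D n, F (nu (X * f)) = ∑ f ∈ FC.D n, F (nu f) := by
    refine sum_congr rfl fun f hf => ?_
    rw [FC.mem_D'] at hf
    rw [nu_even (mul_ne_zero X_ne_zero hf.1) (S_X_mul f).1, (S_X_mul f).2]
  have h2 : ∑ f ∈ Od (n + 1), F (nu f) = ∑ f ∈ Od (n + 1), F (nu (FC.S f) + 1) := by
    refine sum_congr rfl fun f hf => ?_
    rw [mem_Od, FC.mem_D'] at hf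
    rw [nu_odd _ hf.2]
    rintro rfl
    rw [natDegree_one] at hf
    omega
  rw [h1, h2, sum_Od n (fun f => F (nu f + 1)), D_split (n + 1) (fun f => F (nu f + 1)), pow_succ]
  have h3 : (2 : ℝ) ^ n ≠ 0 := by positivity
  field_simp
  ring

/-- THE RECURSION for the law of the number of odd steps -/
theorem av_step (a : ℕ) : ∃ C : ℝ, 0 < C ∧ ∀ (n : ℕ) (B : ℝ) (F : ℕ → ℝ), 0 ≤ B →
    (∀ f ∈ FC.D (n + 1), |F (nu f + 1)| ≤ B) →
    |av (n + 1) F - av n F / 2 - av (n + 1) (fun k => F (k + 1)) / 2| ≤ B * (C / ((n : ℝ) + 1) ^ a) := by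
  classical
  obtain ⟨C, hC, h⟩ := mixing a
  refine ⟨C, hC, ?_⟩
  intro n B F hB hF
  rcases hB.eq_or_lt with hB0 | hB0
  · -- all values vanish
    have h1 := av_recursion n F
    have h2 : ∀ f ∈ FC.D (n + 1), F (nu f + 1) = 0 := by
      intro f hf
      have := hF f hf
      rw [← hB0] at this
      exact abs_nonpos_iff.1 this
    have h3 : ∑ f ∈ Cl 1 (n + 1), F (nu f + 1) = 0 := sum_eq_zero fun f hf => h2 f (mem_Cl.1 hf).1
    have h4 : ∑ f ∈ Cl 0 (n + 1), F (nu f + 1) = 0 := sum_eq_zero fun f hf => h2 f (mem_Cl.1 hf).1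
    rw [h3, h4] at h1
    rw [h1, ← hB0]
    simp
  set Φ : (ZMod 2)[X] → ℝ := fun g => if |F (g.natDegree - 1 + nu g + 1)| ≤ B then F (g.natDegree - 1 + nu g + 1) / B else 0 with hΦ
  have hΦ1 : ∀ g, |Φ g| ≤ 1 := by
    intro g
    simp only [hΦ]
    split_ifs with h2
    · rw [abs_div, abs_of_pos hB0, div_le_one hB0]; exact h2
    · simp
  have h1 := h n Φ hΦ1
  have h2 : ∀ r : ZMod 2, ∑ f ∈ Cl r (n + 1), Φ (FC.S^[n] f) = (∑ f ∈ Cl r (n + 1), F (nu f + 1)) / B := by
    intro r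
    rw [sum_div]
    refine sum_congr rfl fun f hf => ?_
    have hf' := (mem_Cl.1 hf).1
    have h3 := nu_deg hf'
    have h4 := hF f hf'
    simp only [hΦ]
    rw [← h3, if_pos h4]
  rw [h2, h2, ← sub_div, abs_div, abs_of_pos hB0, div_le_iff₀ hB0] at h1
  have h3 := av_recursion n F
  have h4 : av (n + 1) F - av n F / 2 - av (n + 1) (fun k => F (k + 1)) / 2 =
      (∑ f ∈ Cl 1 (n + 1), F (nu f + 1) - ∑ f ∈ Cl 0 (n + 1), F (nu f + 1)) / 2 / 2 ^ (n + 1) := by
    rw [h3]; ring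
  rw [h4, abs_div, abs_div, abs_sub_comm]
  have h5 : |(2 : ℝ) ^ (n + 1)| = 2 ^ (n + 1) := abs_of_pos (by positivity)
  have h6 : |(2 : ℝ)| = 2 := abs_of_pos (by norm_num)
  rw [h5, h6, div_div, div_le_iff₀ (by positivity)]
  refine h1.trans ?_
  have h7 : 0 ≤ B * (C / ((n : ℝ) + 1) ^ a) := by positivity
  have h8 : (0 : ℝ) < 2 ^ n := by positivity
  calc 2 ^ n * (C / ((n : ℝ) + 1) ^ a) * B = (B * (C / ((n : ℝ) + 1) ^ a)) * 2 ^ n := by ring
    _ ≤ (B * (C / ((n : ℝ) + 1) ^ a)) * (2 * 2 ^ (n + 1)) := by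
      apply mul_le_mul_of_nonneg_left _ h7
      rw [pow_succ]; linarith
    _ = _ := by ring

end Pool.Agent.H618.PM
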