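import Pool.Agent.H618.PM.TV
import Pool.Graph.R_pool_sql_team_seeded_63374d34.N158.PC.Chain2

/-! # Monotonicity of the number of odd steps under truncation -/

set_option autoImplicit false

namespace Pool.Agent.H618.PM

open Polynomial Finset Pool.Agent.Q74

theorem divX_iter_coeff (r : ℕ) : ∀ (f : (ZMod 2)[X]) (i : ℕ), (divX^[r] f).coeff i = f.coeff (i + r) := by
  induction r with
  | zero => intro f i; rfl
  | succ r ih =>
    intro f i
    rw [Function.iterate_succ_apply', coeff_divX, ih]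
    congr 1; ring

/-- the operator of an odd step -/
noncomputable def Ph (f : (ZMod 2)[X]) : (ZMod 2)[X] := ((X + 1) * f).divX

theorem Ph_coeff (f : (ZMod 2)[X]) (i : ℕ) : (Ph f).coeff i = f.coeff i + f.coeff (i + 1) := by
  unfold Ph
  rw [coeff_divX, add_mul, one_mul, coeff_add, coeff_X_mul]

theorem divX_Ph (f : (ZMod 2)[X]) : divX (Ph f) = Ph (divX f) := by
  ext i
  rw [coeff_divX, Ph_coeff, Ph_coeff, coeff_divX, coeff_divX]

theorem comm_Ph : Function.Commute (divX : (ZMod 2)[X] → (ZMod 2)[X]) Ph := fun f => divX_Ph f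

theorem divX_iter_Ph_iter (r k : ℕ) (f : (ZMod 2)[X]) : divX^[r] (Ph^[k] f) = Ph^[k] (divX^[r] f) :=
  comm_Ph.iterate_iterate r k f

theorem S_odd {f : (ZMod 2)[X]} (h : FC.par f = 1) : FC.S f = Ph f := by
  have hc : f.coeff 0 = 1 := by
    rcases FC.par_cases f with h1 | h1
    · rw [h] at h1; exact absurd h1.1 (by decide)
    · exact h1.2
  unfold FC.S Ph
  rw [if_pos hc]
  ext i
  rw [coeff_divX, coeff_divX, coeff_add]
  simp [coeff_one]

theorem S_even {f : (ZMod 2)[X]} (h : FC.par f = 0) : FC.S f = divX f := by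
  have hc : f.coeff 0 = 0 := by
    rcases FC.par_cases f with h1 | h1
    · exact h1.2
    · rw [h] at h1; exact absurd h1.1 (by decide)
  unfold FC.S
  rw [if_neg]
  rw [hc]; decide

theorem divX_ne {f : (ZMod 2)[X]} {r : ℕ} (h0 : f ≠ 0) (hr : r ≤ f.natDegree) :
    divX^[r] f ≠ 0 ∧ (divX^[r] f).natDegree = f.natDegree - r := by
  have h1 : (divX^[r] f).coeff (f.natDegree - r) ≠ 0 := by
    rw [divX_iter_coeff, Nat.sub_add_cancel hr]
    exact leadingCoeff_ne_zero.2 h0
  have h2 : divX^[r] f ≠ 0 := by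
    intro h
    rw [h, coeff_zero] at h1
    exact h1 rfl
  refine ⟨h2, le_antisymm ?_ (le_natDegree_of_ne_zero h1)⟩
  rw [natDegree_le_iff_coeff_eq_zero]
  intro i hi
  rw [divX_iter_coeff]
  apply coeff_eq_zero_of_natDegree_lt
  omega

theorem Ph_ne {f : (ZMod 2)[X]} (h0 : f ≠ 0) : Ph f ≠ 0 ∧ (Ph f).natDegree = f.natDegree := by
  have h1 : (Ph f).coeff f.natDegree ≠ 0 := by
    rw [Ph_coeff, coeff_eq_zero_of_natDegree_lt (Nat.lt_succ_self f.natDegree), add_zero]
    exact leadingCoeff_ne_zero.2 h0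
  refine ⟨fun h => by rw [h, coeff_zero] at h1; exact h1 rfl, le_antisymm ?_ (le_natDegree_of_ne_zero h1)⟩
  rw [natDegree_le_iff_coeff_eq_zero]
  intro i hi
  rw [Ph_coeff, coeff_eq_zero_of_natDegree_lt hi, coeff_eq_zero_of_natDegree_lt (by omega), add_zero]

theorem Ph_iter_ne {f : (ZMod 2)[X]} (h0 : f ≠ 0) (k : ℕ) : Ph^[k] f ≠ 0 ∧ (Ph^[k] f).natDegree = f.natDegree := by
  induction k with
  | zero => exact ⟨h0, rfl⟩
  | succ k ih =>
    rw [Function.iterate_succ_apply']
    have := Ph_ne ih.1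
    exact ⟨this.1, this.2.trans ih.2⟩

/-- MONOTONICITY: removing the low coefficients does not increase the number of odd steps -/
theorem trunc_le : ∀ (n : ℕ) (f : (ZMod 2)[X]), f ≠ 0 → f.natDegree + nu f = n → ∀ r ≤ f.natDegree,
    nu (divX^[r] f) ≤ nu f := by
  intro n
  induction n with
  | zero =>
    intro f h0 hn r hr
    have : r = 0 := by omega
    rw [this]; exact le_rfl
  | succ n ih =>
    intro f h0 hn r hr
    by_cases h1 : f = 1
    · have : r = 0 := by rw [h1, natDegree_one] at hr; omega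
      rw [this]; exact le_rfl
    have hS := FC.S_ne_zero h0
    rcases FC.par_cases f with ⟨hp, _⟩ | ⟨hp, _⟩
    · rcases r with _ | r
      · exact le_rfl
      · have h2 := nu_even h0 hp
        have h3 : (FC.S f).natDegree + 1 = f.natDegree := by have := hS.2; omega
        rw [Function.iterate_succ_apply, ← S_even hp, h2]
        exact ih (FC.S f) hS.1 (by omega) r (by omega)
    · have h2 := nu_odd h1 hp
      have h3 : (FC.S f).natDegree = f.natDegree := by have := hS.2; omega
      have h4 := ih (FC.S f) hS.1 (by omega)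
      have key : ∀ k r : ℕ, r + k = f.natDegree → nu (divX^[r] f) ≤ nu f := by
        intro k
        induction k with
        | zero =>
          intro r hr
          have h5 := divX_ne h0 (le_of_eq hr : r ≤ f.natDegree)
          rw [FC.eq_one_of_natDegree h5.1 (by omega), nu_one]
          exact Nat.zero_le _
        | succ k ihk =>
          intro r hr
          have h5 := divX_ne h0 (show r ≤ f.natDegree by omega)
          rcases FC.par_cases (divX^[r] f) with ⟨hu, _⟩ | ⟨hu, _⟩
          · rw [nu_even h5.1 hu, S_even hu, ← Function.iterate_succ_apply' (f := divX)]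
            exact ihk (r + 1) (by omega)
          · have hu1 : divX^[r] f ≠ 1 := by
              intro h
              have := h5.2
              rw [h, natDegree_one] at this
              omega
            rw [nu_odd hu1 hu, h2, S_odd hu, S_odd hp]
            have h6 := divX_iter_Ph_iter r 1 f
            simp only [Function.iterate_one] at h6
            rw [← h6, ← S_odd hp]
            have := h4 r (by omega)
            omega
      exact key (f.natDegree - r) r (by omega)

theorem trunc_le' {f : (ZMod 2)[X]} (h0 : f ≠ 0) {r : ℕ} (hr : r ≤ f.natDegree) : nu (divX^[r] f) ≤ nu f :=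
  trunc_le _ f h0 rfl r hr

/-- an odd step operator costs at most one odd step -/
theorem nu_le_Ph {f : (ZMod 2)[X]} (h0 : f ≠ 0) : nu f ≤ 1 + nu (Ph f) := by
  have key : ∀ k r : ℕ, r + k = f.natDegree → nu (divX^[r] f) ≤ 1 + nu (Ph f) := by
    intro k
    induction k with
    | zero =>
      intro r hr
      have h5 := divX_ne h0 (le_of_eq hr : r ≤ f.natDegree)
      rw [FC.eq_one_of_natDegree h5.1 (by omega), nu_one]
      exact Nat.zero_le _
    | succ k ihk =>
      intro r hr
      have h5 := divX_ne h0 (show r ≤ f.natDegree by omega)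
      rcases FC.par_cases (divX^[r] f) with ⟨hu, _⟩ | ⟨hu, _⟩
      · rw [nu_even h5.1 hu, S_even hu, ← Function.iterate_succ_apply' (f := divX)]
        exact ihk (r + 1) (by omega)
      · have hu1 : divX^[r] f ≠ 1 := by
          intro h
          have := h5.2
          rw [h, natDegree_one] at this
          omega
        rw [nu_odd hu1 hu, S_odd hu]
        have h6 := divX_iter_Ph_iter r 1 f
        simp only [Function.iterate_one] at h6
        rw [← h6]
        have h7 := Ph_ne h0
        have := trunc_le' h7.1 (show r ≤ (Ph f).natDegree by omega)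
        omega
  exact key f.natDegree 0 (by omega)

theorem nu_le_Ph_iter {f : (ZMod 2)[X]} (h0 : f ≠ 0) (c : ℕ) : nu f ≤ c + nu (Ph^[c] f) := by
  induction c with
  | zero => simp
  | succ c ih =>
    rw [Function.iterate_succ_apply']
    have := nu_le_Ph (Ph_iter_ne h0 c).1
    omega

theorem Ph_iter_eq (k : ℕ) (f : (ZMod 2)[X]) : Ph^[k] f = divX^[k] ((X + 1) ^ k * f) := by
  induction k with
  | zero => simp
  | succ k ih =>
    have h6 := divX_iter_Ph_iter k 1 ((X + 1) ^ k * f)
    simp only [Function.iterate_one] at h6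
    rw [Function.iterate_succ_apply', ih, ← h6, Function.iterate_succ_apply]
    unfold Ph
    congr 2
    ring

theorem two_pow_X (J : ℕ) : ((X + 1) ^ (2 ^ J) : (ZMod 2)[X]) = X ^ (2 ^ J) + 1 := by
  have h := add_pow_char_pow (R := (ZMod 2)[X]) (p := 2) (n := J) X 1
  rw [one_pow] at h
  exact h

theorem Ph_period {f : (ZMod 2)[X]} {J : ℕ} (h : f.natDegree < 2 ^ J) : Ph^[2 ^ J] f = f := by
  rw [Ph_iter_eq, two_pow_X]
  ext i
  rw [divX_iter_coeff, add_mul, one_mul, coeff_add, coeff_X_pow_mul,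
    coeff_eq_zero_of_natDegree_lt (show f.natDegree < i + 2 ^ J by omega), add_zero]

theorem Ph_mod {f : (ZMod 2)[X]} {J : ℕ} (h : f.natDegree < 2 ^ J) (o : ℕ) : Ph^[o % 2 ^ J] f = Ph^[o] f :=
  Function.IsPeriodicPt.iterate_mod_apply (f := Ph) (x := f) (n := 2 ^ J) (Ph_period h) o

theorem S_iter_Ph (f : (ZMod 2)[X]) (j : ℕ) :
    FC.S^[j] f = divX^[j - FC.odds j f] (Ph^[FC.odds j f] f) := by
  induction j with
  | zero => simp [FC.odds]
  | succ j ih =>
    have hle := FC.odds_le j f
    rw [Function.iterate_succ_apply']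
    simp only [FC.odds]
    rcases FC.par_cases (FC.S^[j] f) with ⟨hp, _⟩ | ⟨hp, _⟩
    · have e : j + 1 - (FC.odds j f + 0) = (j - FC.odds j f).succ := by omega
      rw [hp, e, add_zero, S_even hp, ih, ← Function.iterate_succ_apply' (f := divX)]
    · rw [hp, S_odd hp, ih]
      have h6 := divX_iter_Ph_iter (j - FC.odds j f) 1 (Ph^[FC.odds j f] f)
      simp only [Function.iterate_one] at h6
      have e : j + 1 - (FC.odds j f + 1) = j - FC.odds j f := by omega
      rw [e, ← h6, ← Function.iterate_succ_apply' (f := Ph)]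

theorem nu_S_le {f : (ZMod 2)[X]} (h0 : f ≠ 0) : nu (FC.S f) ≤ nu f := by
  by_cases h1 : f = 1
  · rw [h1, FC.S_one]
  rcases FC.par_cases f with ⟨hp, _⟩ | ⟨hp, _⟩
  · rw [nu_even h0 hp]
  · rw [nu_odd h1 hp]; omega

theorem nu_S_iter_le {f : (ZMod 2)[X]} (h0 : f ≠ 0) (j : ℕ) : nu (FC.S^[j] f) ≤ nu f := by
  induction j with
  | zero => exact le_rfl
  | succ j ih =>
    rw [Function.iterate_succ_apply']
    exact (nu_S_le (FC.S_iter_ne h0 j).1).trans ih

theorem level : ∀ (n : ℕ) (f : (ZMod 2)[X]), f ≠ 0 → f.natDegree + nu f = n → ∀ m ≤ f.natDegree,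
    ∃ j : ℕ, (FC.S^[j] f).natDegree = m := by
  intro n
  induction n with
  | zero =>
    intro f h0 hn m hm
    exact ⟨0, by simp only [Function.iterate_zero, id_eq]; omega⟩
  | succ n ih =>
    intro f h0 hn m hm
    by_cases hm' : m = f.natDegree
    · exact ⟨0, hm'.symm⟩
    have h1 : f ≠ 1 := by
      rintro rfl
      rw [natDegree_one] at hm hm'
      omega
    have hS := FC.S_ne_zero h0
    have h2 : (FC.S f).natDegree + nu (FC.S f) = n := by
      rcases FC.par_cases f with ⟨h3, _⟩ | ⟨h3, _⟩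
      · have h4 := nu_even h0 h3
        have := hS.2
        omega
      · have h4 := nu_odd h1 h3
        have := hS.2
        omega
    obtain ⟨j, hj⟩ := ih (FC.S f) hS.1 h2 m (by have := hS.2; omega)
    exact ⟨j + 1, by rw [Function.iterate_succ_apply]; exact hj⟩

/-- EXTENSION: polynomials with the top part `divX^[N - m] f` have at least as many odd steps, up to `2^J` -/
theorem ext_bound {f : (ZMod 2)[X]} (h0 : f ≠ 0) {m J : ℕ} (hm : m ≤ f.natDegree) (hJ : m < 2 ^ J) :
    nu (divX^[f.natDegree - m] f) ≤ nu f + 2 ^ J := by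
  obtain ⟨j, hj⟩ := level _ f h0 rfl m hm
  set o := FC.odds j f with ho
  have h1 := FC.S_iter_ne h0 j
  have hle := FC.odds_le j f
  have h2 : j - o = f.natDegree - m := by
    have := h1.2
    omega
  have h3 := S_iter_Ph f j
  rw [← ho, h2, divX_iter_Ph_iter] at h3
  have h4 := divX_ne h0 (Nat.sub_le f.natDegree m)
  have h5 : (divX^[f.natDegree - m] f).natDegree < 2 ^ J := by omega
  rw [← Ph_mod h5] at h3
  have h6 := nu_le_Ph_iter h4.1 (o % 2 ^ J)
  rw [← h3] at h6
  have h7 := nu_S_iter_le h0 j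
  have h8 : o % 2 ^ J < 2 ^ J := Nat.mod_lt _ (by positivity)
  omega

/-- polynomials with a given top part -/
theorem card_ext {T : (ZMod 2)[X]} {m : ℕ} (hT : T ∈ FC.D m) (M : ℕ) :
    ∃ E : Finset ((ZMod 2)[X]), E.card = 2 ^ M ∧ ∀ f ∈ E, f ∈ FC.D (m + M) ∧ divX^[M] f = T := by
  classical
  refine ⟨(FC.L M).image (fun l => X ^ M * T + l), ?_, ?_⟩
  · rw [card_image_of_injective _ (fun a b hab => add_left_cancel hab), FC.card_L]
  · intro f hf
    rw [mem_image] at hf
    obtain ⟨l, hl, rfl⟩ := hf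
    rw [FC.mem_L] at hl
    have hTd := FC.mem_D.1 hT
    constructor
    · rw [FC.mem_D, degree_add_eq_left_of_degree_lt]
      · rw [degree_mul, degree_X_pow, hTd]
        push_cast
        ring
      · rw [degree_mul, degree_X_pow, hTd]
        refine lt_of_lt_of_le hl ?_
        exact_mod_cast Nat.le_add_right M m
    · ext i
      have h9 : l.coeff (i + M) = 0 := by
        apply coeff_eq_zero_of_degree_lt
        refine lt_of_lt_of_le hl ?_
        exact_mod_cast Nat.le_add_left M i
      rw [divX_iter_coeff, coeff_add, coeff_X_pow_mul, h9, add_zero]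

/-- the stopping times of the library -/
theorem stop_eq (f : (ZMod 2)[X]) : Pool.Agent.N158.PC.stop f = FC.tm f := by
  have h : Pool.Agent.N158.PC.T = FC.T := by
    funext g
    rfl
  unfold Pool.Agent.N158.PC.stop FC.tm
  rw [h]

theorem nu_Hp (b : ℕ) : nu (Pool.Agent.N158.PC.Hp (2 ^ (2 * b + 3)) (2 ^ (b + 1))) = 2 ^ (2 * b + 3) * (b * 2 ^ (b + 2) + 4) := by
  have h1 := Pool.Agent.N158.PC.stop_Hp 0 (2 * b + 3) b (by omega)
  rw [pow_zero, one_mul, stop_eq, tm_nu (Pool.Agent.N158.PC.Hp_ne _ _), Pool.Agent.N158.PC.Hp_natDegree] at h1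
  omega

/-- many polynomials of degree `n` have many odd steps -/
theorem lower_b (b n : ℕ) (hn : 2 ^ (3 * b + 5) ≤ n) : ∃ E : Finset ((ZMod 2)[X]),
    2 ^ (n - 2 ^ (3 * b + 5)) ≤ E.card ∧ ∀ f ∈ E, f ∈ FC.D n ∧ b * 2 ^ (3 * b + 5) ≤ nu f + 2 ^ (3 * b + 5) := by
  set T := Pool.Agent.N158.PC.Hp (2 ^ (2 * b + 3)) (2 ^ (b + 1)) with hT
  set m := (2 ^ (2 * b + 3) + 1) * 2 ^ (b + 1) with hm
  have h1 : T ∈ FC.D m := by
    rw [FC.mem_D']
    exact ⟨Pool.Agent.N158.PC.Hp_ne _ _, Pool.Agent.N158.PC.Hp_natDegree _ _⟩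
  have hlt : m < 2 ^ (3 * b + 5) := by
    have h2 : 2 ^ (3 * b + 5) = 2 ^ (2 * b + 3) * 2 ^ (b + 1) + 2 ^ (2 * b + 3) * 2 ^ (b + 1) := by
      rw [← pow_add, ← two_mul, ← pow_succ']; congr 1; ring
    have h3 : 2 ^ (b + 1) < 2 ^ (2 * b + 3) * 2 ^ (b + 1) := by
      have h4 : 2 ^ 1 ≤ 2 ^ (2 * b + 3) := Nat.pow_le_pow_right (by norm_num) (by omega)
      have h5 := Nat.two_pow_pos (b + 1)
      nlinarith
    rw [hm, h2]
    linarith
  obtain ⟨E, hE1, hE2⟩ := card_ext h1 (n - m)
  refine ⟨E, ?_, ?_⟩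
  · rw [hE1]
    exact Nat.pow_le_pow_right (by norm_num) (by omega)
  · intro f hf
    obtain ⟨h2, h3⟩ := hE2 f hf
    have e : m + (n - m) = n := by omega
    rw [e] at h2
    refine ⟨h2, ?_⟩
    have h4 := FC.mem_D'.1 h2
    have h5 := ext_bound h4.1 (m := m) (J := 3 * b + 5) (by omega) hlt
    rw [h4.2, h3, hT, nu_Hp] at h5
    refine le_trans ?_ h5
    have h6 : 2 ^ (3 * b + 5) = 2 ^ (2 * b + 3) * 2 ^ (b + 2) := by rw [← pow_add]; congr 1; ring
    rw [h6]
    have : b * (2 ^ (2 * b + 3) * 2 ^ (b + 2)) = 2 ^ (2 * b + 3) * (b * 2 ^ (b + 2)) := by ring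
    rw [this]
    exact Nat.mul_le_mul_left _ (by omega)

end Pool.Agent.H618.PM
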