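import Pool.Agent.H618.PM.Law

/-! # Total variation distance to the random walk model -/

set_option autoImplicit false

namespace Pool.Agent.H618.PM

open Polynomial Finset Pool.Agent.Q74

/-- negative binomial weights -/
noncomputable def nb (n j : ℕ) : ℝ := ((n + j - 1).choose j : ℝ) / 2 ^ (n + j)

theorem nb_nonneg (n j : ℕ) : 0 ≤ nb n j := by unfold nb; positivity

theorem nb_zero_succ (j : ℕ) : nb 0 (j + 1) = 0 := by
  unfold nb
  have : (0 + (j + 1) - 1).choose (j + 1) = 0 := by
    rw [Nat.choose_eq_zero_iff]; omega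
  rw [this]; simp

theorem nb_zero_zero : nb 0 0 = 1 := by unfold nb; simp

theorem nb_succ_zero (k : ℕ) : nb (k + 1) 0 = nb k 0 / 2 := by
  unfold nb
  simp only [add_zero, Nat.choose_zero_right, Nat.cast_one]
  rw [pow_succ]
  field_simp

theorem nb_succ_succ (k j : ℕ) : nb (k + 1) (j + 1) = nb k (j + 1) / 2 + nb (k + 1) j / 2 := by
  unfold nb
  have e1 : k + 1 + (j + 1) - 1 = (k + j) + 1 := by omega
  have e2 : k + (j + 1) - 1 = k + j := by omega
  have e3 : k + 1 + j - 1 = k + j := by omega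
  rw [e1, e2, e3, Nat.choose_succ_succ]
  push_cast
  have e4 : k + 1 + (j + 1) = (k + j + 1) + 1 := by ring
  have e5 : k + (j + 1) = k + j + 1 := by ring
  have e6 : k + 1 + j = k + j + 1 := by ring
  rw [e4, e5, e6, pow_succ]
  field_simp
  ring

theorem nb_hasSum (k : ℕ) : HasSum (nb k) 1 := by
  rcases k with _ | k
  · have : nb 0 = fun j => if j = 0 then 1 else 0 := by
      funext j
      rcases j with _ | j
      · simp [nb_zero_zero]
      · rw [nb_zero_succ, if_neg (by omega)]
    rw [this]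
    exact hasSum_ite_eq 0 1
  · have h := hasSum_choose_mul_geometric_of_norm_lt_one (𝕜 := ℝ) k (r := 1 / 2) (by
      rw [Real.norm_of_nonneg (by norm_num)]; norm_num)
    have h2 := h.mul_right (1 / 2 ^ (k + 1) : ℝ)
    have e : (1 : ℝ) / (1 - 1 / 2) ^ (k + 1) * (1 / 2 ^ (k + 1)) = 1 := by
      have : (1 - 1 / 2 : ℝ) = 1 / 2 := by norm_num
      rw [this, one_div_pow, one_div_one_div]
      field_simp
    rw [e] at h2
    have hfun : nb (k + 1) = fun i : ℕ => ((i + k).choose k : ℝ) * (1 / 2) ^ i * (1 / 2 ^ (k + 1)) := by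
     funext j
     unfold nb
     have e1 : k + 1 + j - 1 = j + k := by omega
     have e2 : (j + k).choose j = (j + k).choose k := Nat.choose_symm_add
     rw [e1, e2]
     have e3 : (2 : ℝ) ^ (k + 1 + j) = 2 ^ j * 2 ^ (k + 1) := by rw [← pow_add]; congr 1; ring
     rw [e3, one_div_pow]
     field_simp
    rw [hfun]
    exact h2

theorem nb_summable {F : ℕ → ℝ} {B : ℝ} (hF : Bd F B) (k a : ℕ) : Summable (fun j => nb k j * F (a + j)) := by
  apply Summable.of_norm_bounded (g := fun j => nb k j * B)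
  · exact (nb_hasSum k).summable.mul_right B
  · intro i
    rw [Real.norm_eq_abs, abs_mul, abs_of_nonneg (nb_nonneg _ _)]
    exact mul_le_mul_of_nonneg_left (hF _) (nb_nonneg _ _)

/-- negative binomial average -/
noncomputable def NB (k : ℕ) (F : ℕ → ℝ) (a : ℕ) : ℝ := ∑' j, nb k j * F (a + j)

theorem NB_bd {F : ℕ → ℝ} {B : ℝ} (hF : Bd F B) (k : ℕ) : Bd (NB k F) B := by
  intro a
  unfold NB
  have h1 : ‖∑' j, nb k j * F (a + j)‖ ≤ ∑' j, nb k j * B := by
    apply tsum_of_norm_bounded ((nb_hasSum k).summable.mul_right B).hasSum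
    intro i
    rw [Real.norm_eq_abs, abs_mul, abs_of_nonneg (nb_nonneg _ _)]
    exact mul_le_mul_of_nonneg_left (hF _) (nb_nonneg _ _)
  rw [tsum_mul_right, (nb_hasSum k).tsum_eq, one_mul, Real.norm_eq_abs] at h1
  exact h1

theorem NB_rec {F : ℕ → ℝ} {B : ℝ} (hF : Bd F B) (k a : ℕ) :
    NB (k + 1) F a = NB k F a / 2 + NB (k + 1) F (a + 1) / 2 := by
  have h1 := (nb_summable hF (k + 1) a).tsum_eq_zero_add
  have h2 := (nb_summable hF k a).tsum_eq_zero_add
  have hs1 : Summable (fun j => nb k (j + 1) * F (a + (j + 1))) :=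
    (summable_nat_add_iff 1).2 (nb_summable hF k a)
  have hs2 := nb_summable hF (k + 1) (a + 1)
  unfold NB
  rw [h1, h2]
  have h3 : (fun j => nb (k + 1) (j + 1) * F (a + (j + 1))) =
      fun j => (1 / 2 : ℝ) * (nb k (j + 1) * F (a + (j + 1))) + (1 / 2 : ℝ) * (nb (k + 1) j * F (a + 1 + j)) := by
    funext j
    have e : a + 1 + j = a + (j + 1) := by ring
    rw [nb_succ_succ, e]
    ring
  rw [h3, (hs1.mul_left _).tsum_add (hs2.mul_left _), tsum_mul_left, tsum_mul_left, nb_succ_zero]
  ring

theorem GaN_eq {F : ℕ → ℝ} {B : ℝ} (hF : Bd F B) (k : ℕ) : ∀ a, GaN k F a = NB k F a := by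
  induction k with
  | zero =>
    intro a
    unfold NB
    rw [tsum_eq_single 0]
    · rw [nb_zero_zero, one_mul, add_zero]; rfl
    · intro j hj
      obtain ⟨i, rfl⟩ : ∃ i, j = i + 1 := ⟨j - 1, by omega⟩
      rw [nb_zero_succ, zero_mul]
  | succ k ih =>
    have hB0 : 0 ≤ B := (abs_nonneg _).trans (hF 0)
    have hrec : ∀ a, GaN (k + 1) F a - NB (k + 1) F a = (GaN (k + 1) F (a + 1) - NB (k + 1) F (a + 1)) / 2 := by
      intro a
      have h1 := Ga_rec (GaN_bd hF k) a
      rw [← GaN_succ] at h1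
      rw [h1, NB_rec hF, ih a]
      ring
    have hbd : ∀ a, |GaN (k + 1) F a - NB (k + 1) F a| ≤ 2 * B := by
      intro a
      have h1 := GaN_bd hF (k + 1) a
      have h2 := NB_bd hF (k + 1) a
      refine (abs_sub _ _).trans ?_
      linarith
    have hpow : ∀ N a : ℕ, |GaN (k + 1) F a - NB (k + 1) F a| ≤ 2 * B / 2 ^ N := by
      intro N
      induction N with
      | zero => intro a; rw [pow_zero, div_one]; exact hbd a
      | succ N ihN =>
        intro a
        rw [hrec, abs_div, abs_of_pos (show (0 : ℝ) < 2 by norm_num), pow_succ, ← div_div]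
        exact div_le_div_of_nonneg_right (ihN (a + 1)) (by norm_num)
    intro a
    have h1 : Filter.Tendsto (fun N : ℕ => 2 * B / (2 : ℝ) ^ N) Filter.atTop (nhds 0) := by
      have h2 := (tendsto_pow_atTop_nhds_zero_of_lt_one (r := (1 / 2 : ℝ)) (by norm_num) (by norm_num)).const_mul (2 * B)
      rw [mul_zero] at h2
      refine h2.congr fun N => ?_
      rw [one_div_pow]
      ring
    have h2 : |GaN (k + 1) F a - NB (k + 1) F a| ≤ 0 := ge_of_tendsto h1 (Filter.Eventually.of_forall fun N => hpow N a)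
    have h3 := abs_nonpos_iff.1 h2
    linarith

/-- proportion of the polynomials of degree `n` with `j` odd steps -/
noncomputable def pr (n j : ℕ) : ℝ := by
  classical
  exact (((FC.D n).filter (fun f => nu f = j)).card : ℝ) / 2 ^ n

theorem pr_zero {n j : ℕ} (h : (n + 1) * (n + 2) < j) : pr n j = 0 := by
  classical
  unfold pr
  have : (FC.D n).filter (fun f => nu f = j) = ∅ := by
    rw [eq_empty_iff_forall_notMem]
    intro f hf
    rw [mem_filter, FC.mem_D'] at hf
    have h1 := nu_le hf.1.1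
    rw [hf.1.2, hf.2] at h1
    omega
  rw [this]; simp

theorem av_eq (n : ℕ) (F : ℕ → ℝ) : av n F = ∑' j, pr n j * F j := by
  classical
  rw [tsum_eq_sum (s := range ((n + 1) * (n + 2) + 1)) (fun j hj => by
    rw [mem_range] at hj
    rw [pr_zero (by omega), zero_mul])]
  unfold av
  rw [← sum_fiberwise_of_maps_to (s := FC.D n) (t := range ((n + 1) * (n + 2) + 1)) (g := nu) (fun f hf => by
    rw [mem_range]
    have h1 := FC.mem_D'.1 hf
    have h2 := nu_le h1.1
    rw [h1.2] at h2
    omega), sum_div]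
  refine sum_congr rfl fun j _ => ?_
  rw [sum_congr rfl (g := fun _ => F j) (fun f hf => by rw [(mem_filter.1 hf).2]), sum_const, nsmul_eq_mul]
  unfold pr
  ring

theorem pr_summable (n : ℕ) (F : ℕ → ℝ) : Summable (fun j => pr n j * F j) := by
  apply summable_of_ne_finset_zero (s := range ((n + 1) * (n + 2) + 1))
  intro j hj
  rw [mem_range] at hj
  rw [pr_zero (by omega), zero_mul]

/-- TOTAL VARIATION -/
theorem total_variation : ∃ C : ℝ, 0 < C ∧ ∀ n : ℕ, 1 ≤ n →
    Summable (fun j => |pr n j - nb n j|) ∧ ∑' j, |pr n j - nb n j| ≤ C / √n := by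
  obtain ⟨C, hC, h⟩ := compare
  refine ⟨C, hC, fun n hn => ?_⟩
  set F : ℕ → ℝ := fun j => if nb n j ≤ pr n j then 1 else -1 with hF
  have hFb : Bd F 1 := by
    intro j
    simp only [hF]
    split_ifs <;> simp
  have h1 := h n F hn hFb
  rw [GaN_eq hFb] at h1
  have h2 : ∀ j, |pr n j - nb n j| = pr n j * F j - nb n j * F (0 + j) := by
    intro j
    simp only [hF, zero_add]
    split_ifs with hj
    · rw [abs_of_nonneg (by linarith)]; ring
    · rw [abs_of_neg (by linarith)]; ring
  have h3 : (fun j => |pr n j - nb n j|) = fun j => pr n j * F j - nb n j * F (0 + j) := funext h2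
  have hs1 := pr_summable n F
  have hs2 := nb_summable hFb n 0
  rw [h3]
  refine ⟨hs1.sub hs2, ?_⟩
  rw [hs1.tsum_sub hs2, ← av_eq]
  exact (le_abs_self _).trans h1

/-! ### the accelerated total stopping time -/

/-- the least `k` with `S^k(f) = 1` -/
noncomputable def sm (f : (ZMod 2)[X]) : ℕ := sInf {k : ℕ | FC.S^[k] f = 1}

theorem S_iter_one (k : ℕ) : FC.S^[k] (1 : (ZMod 2)[X]) = 1 := by
  induction k with
  | zero => rfl
  | succ k ih => rw [Function.iterate_succ_apply', ih, FC.S_one]

theorem S_reach : ∀ (m : ℕ) (f : (ZMod 2)[X]), f ≠ 0 → f.natDegree + nu f = m → ∀ k, (FC.S^[k] f = 1 ↔ m ≤ k) := by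
  intro m
  induction m with
  | zero =>
    intro f h0 hm k
    have h1 : f = 1 := FC.eq_one_of_natDegree h0 (by omega)
    rw [h1, S_iter_one]
    simp
  | succ m ih =>
    intro f h0 hm k
    have h1 : f ≠ 1 := by
      rintro rfl
      rw [natDegree_one, nu_one] at hm
      omega
    rcases k with _ | k
    · simp only [Function.iterate_zero, id_eq]
      constructor
      · intro h; exact absurd h h1
      · intro h; omega
    · rw [Function.iterate_succ_apply]
      have hS := FC.S_ne_zero h0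
      have h2 : (FC.S f).natDegree + nu (FC.S f) = m := by
        rcases FC.par_cases f with ⟨h3, _⟩ | ⟨h3, _⟩
        · have h4 := nu_even h0 h3
          have := hS.2
          omega
        · have h4 := nu_odd h1 h3
          have := hS.2
          omega
      rw [ih (FC.S f) hS.1 h2 k]
      omega

theorem sm_eq {f : (ZMod 2)[X]} (h0 : f ≠ 0) : sm f = f.natDegree + nu f := by
  unfold sm
  have h : {k : ℕ | FC.S^[k] f = 1} = {k : ℕ | f.natDegree + nu f ≤ k} := by
    ext k
    exact S_reach _ f h0 rfl k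
  rw [h]
  apply le_antisymm
  · exact Nat.sInf_le (s := {k : ℕ | f.natDegree + nu f ≤ k}) (le_refl (f.natDegree + nu f))
  · exact Nat.sInf_mem (s := {k : ℕ | f.natDegree + nu f ≤ k}) ⟨_, le_refl (f.natDegree + nu f)⟩

end Pool.Agent.H618.PM
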