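import Pool.Graph.R_pool_sql_team_seeded_3997aac3.Q74.FC.Fin
import Pool.Agent.H618.PM.Arr

/-! # Parity words of polynomials -/

set_option autoImplicit false

namespace Pool.Agent.H618.PM

open Polynomial Finset Pool.Agent.Q74

theorem S_add_X_mul (a b : (ZMod 2)[X]) :
    FC.par (a + X * b) = FC.par a ∧ FC.S (a + X * b) = FC.S a + (X + 1) ^ FC.par a * b := by
  have h0 : (a + X * b).coeff 0 = a.coeff 0 := by simp
  have h1 : FC.par (a + X * b) = FC.par a := by unfold FC.par; rw [h0]
  refine ⟨h1, ?_⟩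
  have h2 := FC.X_mul_S (a + X * b)
  rw [h1, mul_add] at h2
  have h3 := FC.X_mul_S a
  apply mul_left_cancel₀ (X_ne_zero (R := ZMod 2))
  rw [h2, mul_add, h3]
  ring

theorem shiftX (d : ℕ) : ∀ f h : (ZMod 2)[X],
    FC.odds d (f + X ^ d * h) = FC.odds d f ∧ FC.R d (f + X ^ d * h) = FC.R d f ∧
      FC.S^[d] (f + X ^ d * h) = FC.S^[d] f + (X + 1) ^ FC.odds d f * h := by
  induction d with
  | zero => intro f h; simp [FC.odds, FC.R]
  | succ d ih =>
    intro f h
    have e : f + X ^ (d + 1) * h = f + X ^ d * (X * h) := by ring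
    obtain ⟨h1, h2, h3⟩ := ih f (X * h)
    have e2 : FC.S^[d] f + (X + 1) ^ FC.odds d f * (X * h) = FC.S^[d] f + X * ((X + 1) ^ FC.odds d f * h) := by ring
    rw [e2] at h3
    obtain ⟨h4, h5⟩ := S_add_X_mul (FC.S^[d] f) ((X + 1) ^ FC.odds d f * h)
    rw [e]
    simp only [FC.odds, FC.R, Function.iterate_succ_apply']
    rw [h1, h2, h3, h4, h5]
    refine ⟨rfl, rfl, ?_⟩
    rw [pow_add]
    ring

theorem L_succ (d : ℕ) (F : (ZMod 2)[X] → ℝ) :
    ∑ f ∈ FC.L (d + 1), F f = ∑ f ∈ FC.L d, (F f + F (f + X ^ d)) := by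
  classical
  have h1 : FC.L (d + 1) = FC.L d ∪ (FC.L d).image (fun f => f + X ^ d) := by
    ext f
    rw [mem_union, mem_image, FC.mem_L, FC.mem_L]
    constructor
    · intro hf
      by_cases h : f.coeff d = 1
      · right
        refine ⟨f - X ^ d, ?_, by ring⟩
        rw [FC.mem_L, degree_lt_iff_coeff_zero]
        intro m hm
        rw [coeff_sub, coeff_X_pow]
        rcases Nat.eq_or_lt_of_le hm with rfl | hlt
        · simp [h]
        · rw [if_neg (by omega), sub_zero]
          exact (degree_lt_iff_coeff_zero _ _).1 hf m hlt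
      · left
        rw [degree_lt_iff_coeff_zero]
        intro m hm
        rcases Nat.eq_or_lt_of_le hm with rfl | hlt
        · rcases FC.zmod2 (f.coeff d) with h2 | h2
          · exact h2
          · exact absurd h2 h
        · exact (degree_lt_iff_coeff_zero _ _).1 hf m hlt
    · rintro (hf | ⟨a, ha, rfl⟩)
      · exact lt_trans hf (by exact_mod_cast Nat.lt_succ_self d)
      · rw [FC.mem_L] at ha
        refine lt_of_le_of_lt (degree_add_le _ _) (max_lt ?_ ?_)
        · exact lt_trans ha (by exact_mod_cast Nat.lt_succ_self d)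
        · rw [degree_X_pow]; exact_mod_cast Nat.lt_succ_self d
  have h2 : Disjoint (FC.L d) ((FC.L d).image (fun f => f + X ^ d)) := by
    rw [disjoint_left]
    intro f hf hf2
    rw [mem_image] at hf2
    obtain ⟨a, ha, rfl⟩ := hf2
    rw [FC.mem_L] at hf ha
    have h3 := (degree_lt_iff_coeff_zero _ _).1 hf d le_rfl
    have h4 := (degree_lt_iff_coeff_zero _ _).1 ha d le_rfl
    rw [coeff_add, h4, coeff_X_pow_self] at h3
    simp at h3
  rw [h1, sum_union h2, sum_image (fun a _ b _ hab => by simpa using hab), sum_add_distrib]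

/-- LAST STEP: the parity of the last step is free -/
theorem last_step (d : ℕ) (H : ℕ → ℕ → (ZMod 2)[X] → ℝ) :
    ∑ f ∈ FC.L (d + 1), H (FC.par (FC.S^[d] f)) (FC.odds d f) (FC.R d f) =
      ∑ f ∈ FC.L d, (H 0 (FC.odds d f) (FC.R d f) + H 1 (FC.odds d f) (FC.R d f)) := by
  rw [L_succ]
  refine sum_congr rfl fun f _ => ?_
  obtain ⟨h1, h2, h3⟩ := shiftX d f 1
  rw [mul_one] at h1 h2 h3
  rw [mul_one] at h3
  rw [h1, h2, h3]
  have hc : (FC.S^[d] f + (X + 1) ^ FC.odds d f : (ZMod 2)[X]).coeff 0 = (FC.S^[d] f).coeff 0 + 1 := by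
    rw [coeff_add]
    congr 1
    rw [coeff_zero_eq_eval_zero]
    simp
  rcases FC.zmod2 ((FC.S^[d] f).coeff 0) with h | h
  · have p1 : FC.par (FC.S^[d] f) = 0 := by unfold FC.par; rw [h]; simp
    have p2 : FC.par (FC.S^[d] f + (X + 1) ^ FC.odds d f) = 1 := by
      unfold FC.par; rw [hc, h]; simp
    rw [p1, p2]
  · have p1 : FC.par (FC.S^[d] f) = 1 := by unfold FC.par; rw [h]; simp
    have p2 : FC.par (FC.S^[d] f + (X + 1) ^ FC.odds d f) = 0 := by
      unfold FC.par
      rw [hc, h, if_neg]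
      decide
    rw [p1, p2]
    ring

/-- the number of odd steps is binomial -/
theorem sum_odds (d : ℕ) (F : ℕ → ℝ) : ∑ f ∈ FC.L d, F (FC.odds d f) = 2 ^ d * P d F 0 := by
  have key : ∀ a : ℕ, ∑ f ∈ FC.L d, F (a + FC.odds d f) = 2 ^ d * P d F a := by
    induction d with
    | zero =>
      intro a
      have h : FC.L 0 = {0} := by
        ext f
        rw [FC.mem_L, mem_singleton]
        constructor
        · intro h
          have h2 : f.degree < 0 := by exact_mod_cast h
          rw [Polynomial.degree_lt_iff_coeff_zero] at h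
          ext i
          simpa using h i (by simp)
        · rintro rfl; simp
      rw [h]
      simp [FC.odds, P]
    | succ d ih =>
      intro a
      have h1 := last_step d (fun p k _ => F (a + (k + p)))
      simp only [FC.odds]
      rw [h1, sum_add_distrib]
      have h2 := ih a
      have h3 := ih (a + 1)
      have h4 : ∑ f ∈ FC.L d, F (a + (FC.odds d f + 1)) = ∑ f ∈ FC.L d, F (a + 1 + FC.odds d f) :=
        sum_congr rfl fun f _ => by congr 1; ring
      rw [h4, h3]
      simp only [add_zero]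
      rw [h2]
      simp only [P]
      ring
  have := key 0
  simpa using this

end Pool.Agent.H618.PM
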